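import Pool.Agent.NM70.NBList

set_option autoImplicit false

/-! HAND 9: from a matching to a path cover. -/

namespace NM70

open Finset Classical

variable {V : Type*} [Fintype V] {G M : SimpleGraph V}

/-- The vertices from which a non-backtracking walk in `Hg G M` of length at most `L` revisits a
vertex. -/
noncomputable def bad (G M : SimpleGraph V) (L : ℕ) : Finset V :=
  univ.filter fun v => ∃ l : List V, NB (Hg G M) l ∧ l.getLast? = some v ∧
    l.length ≤ L + 1 ∧ (∀ x ∈ l, ¬ Unm M x) ∧ ¬ l.Nodup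

omit [Fintype V] in
theorem h9_adj {a b : V} : (Hg G M).Adj a b ↔ G.Adj a b ∧ ¬ M.Adj a b ∧ ¬ Unm M a ∧ ¬ Unm M b := by
  unfold Hg
  rw [SimpleGraph.fromRel_adj]
  constructor
  · rintro ⟨h1, h | h⟩
    · exact h
    · exact ⟨h.1.symm, fun h2 => h.2.1 h2.symm, h.2.2.2, h.2.2.1⟩
  · intro h
    exact ⟨h.1.ne, Or.inl h⟩

omit [Fintype V] in
/-- Every vertex has at most two neighbours in `Hg`. -/
theorem h9_nbr (hc : Cubic G) (hM : IsMat G M) (x : V) :
    ∃ a b : V, ∀ y, (Hg G M).Adj x y → y = a ∨ y = b := by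
  obtain ⟨a, b, c, hab, hac, hbc, h⟩ := hc x
  by_cases hu : Unm M x
  · exact ⟨x, x, fun y hy => absurd hu (h9_adj.1 hy).2.2.1⟩
  · unfold Unm at hu
    push Not at hu
    obtain ⟨p, hp⟩ := hu
    rcases (h p).1 (hM.le _ _ hp) with rfl | rfl | rfl
    · refine ⟨b, c, fun y hy => ?_⟩
      obtain ⟨h1, h2, -⟩ := h9_adj.1 hy
      rcases (h y).1 h1 with rfl | rfl | rfl
      · exact absurd hp h2
      · exact Or.inl rfl
      · exact Or.inr rfl
    · refine ⟨a, c, fun y hy => ?_⟩
      obtain ⟨h1, h2, -⟩ := h9_adj.1 hy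
      rcases (h y).1 h1 with rfl | rfl | rfl
      · exact Or.inl rfl
      · exact absurd hp h2
      · exact Or.inr rfl
    · refine ⟨a, b, fun y hy => ?_⟩
      obtain ⟨h1, h2, -⟩ := h9_adj.1 hy
      rcases (h y).1 h1 with rfl | rfl | rfl
      · exact Or.inl rfl
      · exact Or.inr rfl
      · exact absurd hp h2

omit [Fintype V] in
/-- A matched vertex without unmatched neighbours has two neighbours in `Hg`. -/
theorem h9_two (hc : Cubic G) (hM : IsMat G M) (x : V) (hx : ¬ Unm M x)
    (hy : ∀ y, G.Adj x y → ¬ Unm M y) :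
    ∃ a b : V, a ≠ b ∧ (Hg G M).Adj x a ∧ (Hg G M).Adj x b := by
  obtain ⟨a, b, c, hab, hac, hbc, h⟩ := hc x
  have ha : G.Adj x a := (h a).2 (Or.inl rfl)
  have hb : G.Adj x b := (h b).2 (Or.inr (Or.inl rfl))
  have hc' : G.Adj x c := (h c).2 (Or.inr (Or.inr rfl))
  have key : ∀ y z, M.Adj x z → G.Adj x y → y ≠ z → (Hg G M).Adj x y := by
    intro y z hz hxy hne
    exact h9_adj.2 ⟨hxy, fun h1 => hne (hM.uniq x y z h1 hz), hx, hy y hxy⟩
  have hx' := hx
  unfold Unm at hx'
  push Not at hx'
  obtain ⟨p, hp⟩ := hx'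
  rcases (h p).1 (hM.le _ _ hp) with rfl | rfl | rfl
  · exact ⟨b, c, hbc, key b _ hp hb hab.symm, key c _ hp hc' hac.symm⟩
  · exact ⟨a, c, hac, key a _ hp ha hab, key c _ hp hc' hbc.symm⟩
  · exact ⟨a, b, hab, key a _ hp ha hac, key b _ hp hb hbc⟩

/-- The seeds: unmatched vertices and their neighbours. -/
noncomputable def h9S (G M : SimpleGraph V) : Finset V :=
  univ.filter fun x => Unm M x ∨ ∃ y, G.Adj x y ∧ Unm M y

theorem h9S_card (hc : Cubic G) : (h9S G M).card ≤ 4 * (unm M).card := by
  choose A B C hAB hAC hBC h using hc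
  have hsub : h9S G M ⊆ (unm M).biUnion fun u => {u, A u, B u, C u} := by
    intro x hx
    rw [h9S, mem_filter] at hx
    rw [mem_biUnion]
    rcases hx.2 with h1 | ⟨y, h1, h2⟩
    · refine ⟨x, ?_, ?_⟩
      · rw [unm, mem_filter]; exact ⟨mem_univ _, h1⟩
      · simp
    · refine ⟨y, ?_, ?_⟩
      · rw [unm, mem_filter]; exact ⟨mem_univ _, h2⟩
      · have := (h y x).1 h1.symm
        simp only [mem_insert, mem_singleton]
        exact Or.inr this
  calc (h9S G M).card ≤ ((unm M).biUnion fun u => {u, A u, B u, C u}).card := card_le_card hsub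
    _ ≤ (unm M).card * 4 := by
        refine card_biUnion_le_card_mul _ _ _ fun u _ => ?_
        exact card_le_four
    _ = 4 * (unm M).card := by ring

theorem h9_fiber {C : Type*} (comp : V → C) (A : Finset C) (k : ℕ)
    (h : ∀ c ∈ A, k ≤ (univ.filter (fun v => comp v = c)).card) :
    A.card * k ≤ Fintype.card V := by
  calc A.card * k = ∑ _c ∈ A, k := by rw [sum_const, smul_eq_mul]
    _ ≤ ∑ c ∈ A, (univ.filter (fun v => comp v = c)).card := sum_le_sum h
    _ = (A.biUnion fun c => univ.filter (fun v => comp v = c)).card := by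
        rw [card_biUnion]
        intro c _ d _ hcd
        rw [Function.onFun, disjoint_left]
        intro v hv hv'
        rw [mem_filter] at hv hv'
        exact hcd (hv.2.symm.trans hv'.2)
    _ ≤ (univ : Finset V).card := card_le_univ _
    _ = Fintype.card V := rfl

/-- A non-backtracking list in a component without seeds. -/
theorem h9_list (hc : Cubic G) (hM : IsMat G M) (c : (Hg G M).ConnectedComponent)
    (hc0 : ∀ v, (Hg G M).connectedComponentMk v = c → v ∉ h9S G M) (v : V)
    (hv : (Hg G M).connectedComponentMk v = c) (k : ℕ) :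
    ∃ l : List V, NB (Hg G M) l ∧ l.getLast? = some v ∧ l.length = k + 1 ∧
      ∀ x ∈ l, (Hg G M).connectedComponentMk x = c := by
  induction k with
  | zero =>
    refine ⟨[v], trivial, rfl, rfl, ?_⟩
    intro x hx
    rw [List.mem_singleton] at hx
    rw [hx]
    exact hv
  | succ k ih =>
    obtain ⟨l, h1, h2, h3, h4⟩ := ih
    obtain ⟨x, t, rfl⟩ : ∃ x t, l = x :: t := by
      cases l with
      | nil => simp at h3
      | cons x t => exact ⟨x, t, rfl⟩
    have hx := h4 x (by simp)
    have hxS := hc0 x hx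
    rw [h9S, mem_filter] at hxS
    push Not at hxS
    have hxS' := hxS (mem_univ _)
    obtain ⟨a, b, hab, ha, hb⟩ := h9_two hc hM x hxS'.1 hxS'.2
    obtain ⟨y, hy, hne⟩ : ∃ y, (Hg G M).Adj x y ∧ ∀ z, t.head? = some z → y ≠ z := by
      by_cases h : t.head? = some a
      · refine ⟨b, hb, fun z hz => ?_⟩
        rw [h] at hz
        rw [← Option.some.inj hz]
        exact hab.symm
      · refine ⟨a, ha, fun z hz hz' => ?_⟩
        rw [hz'] at h
        exact h hz
    refine ⟨y :: x :: t, ?_, ?_, ?_, ?_⟩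
    · cases t with
      | nil => exact hy.symm
      | cons z s => exact ⟨hy.symm, hne z rfl, h1⟩
    · rw [List.getLast?_cons_cons]
      exact h2
    · rw [List.length_cons, h3]
    · intro w hw
      rcases List.mem_cons.1 hw with rfl | hw'
      · rw [← hx]
        exact SimpleGraph.ConnectedComponent.sound hy.symm.reachable
      · exact h4 w hw'

theorem h9_comp (hc : Cubic G) (hM : IsMat G M) (L : ℕ) :
    (Nat.card (Hg G M).ConnectedComponent : ℝ) ≤
      4 * (unm M).card + (bad G M L).card + Fintype.card V / (L + 1) := by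
  set comp : V → (Hg G M).ConnectedComponent := (Hg G M).connectedComponentMk with hcomp
  set A : Finset (Hg G M).ConnectedComponent := (h9S G M).image comp with hA
  set B : Finset (Hg G M).ConnectedComponent := (bad G M L).image comp with hB
  set D : Finset (Hg G M).ConnectedComponent := univ \ (A ∪ B) with hD
  have h1 : D.card * (L + 1) ≤ Fintype.card V := by
    refine h9_fiber comp D (L + 1) fun c hcD => ?_
    by_contra hlt
    push Not at hlt
    rw [hD, mem_sdiff, mem_union, not_or, hA, hB, mem_image, mem_image] at hcD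
    obtain ⟨-, hcA, hcB⟩ := hcD
    push Not at hcA hcB
    obtain ⟨v, rfl⟩ := c.exists_rep
    have hc0 : ∀ w, comp w = comp v → w ∉ h9S G M := fun w hw hw' => hcA w hw' hw
    obtain ⟨l, hl1, hl2, hl3, hl4⟩ := h9_list hc hM (comp v) hc0 v rfl L
    refine hcB v ?_ rfl
    rw [bad, mem_filter]
    refine ⟨mem_univ _, l, hl1, hl2, hl3.le, ?_, ?_⟩
    · intro x hx hu
      refine hc0 x (hl4 x hx) ?_
      rw [h9S, mem_filter]
      exact ⟨mem_univ _, Or.inl hu⟩
    · intro hnd
      have h5 : l.toFinset.card ≤ (univ.filter (fun w => comp w = comp v)).card := by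
        refine card_le_card fun x hx => ?_
        rw [List.mem_toFinset] at hx
        rw [mem_filter]
        exact ⟨mem_univ _, hl4 x hx⟩
      rw [List.toFinset_card_of_nodup hnd, hl3] at h5
      exact absurd (h5.trans_lt hlt) (lt_irrefl _)
  have h2 : Nat.card (Hg G M).ConnectedComponent ≤ A.card + B.card + D.card := by
    rw [Nat.card_eq_fintype_card, ← card_univ]
    have h3 : (univ : Finset (Hg G M).ConnectedComponent) ⊆ (A ∪ B) ∪ D := by
      intro c _
      by_cases h : c ∈ A ∪ B
      · exact mem_union_left _ h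
      · refine mem_union_right _ ?_
        rw [hD, mem_sdiff]
        exact ⟨mem_univ _, h⟩
    calc (univ : Finset (Hg G M).ConnectedComponent).card ≤ ((A ∪ B) ∪ D).card := card_le_card h3
      _ ≤ (A ∪ B).card + D.card := card_union_le _ _
      _ ≤ A.card + B.card + D.card := Nat.add_le_add_right (card_union_le _ _) _
  have h4 : A.card ≤ 4 * (unm M).card := card_image_le.trans (h9S_card hc)
  have h5 : B.card ≤ (bad G M L).card := card_image_le
  have h6 : (D.card : ℝ) ≤ Fintype.card V / (L + 1) := by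
    rw [le_div_iff₀ (by positivity)]
    exact_mod_cast h1
  have h2' : (Nat.card (Hg G M).ConnectedComponent : ℝ) ≤ A.card + B.card + D.card := by
    exact_mod_cast h2
  have h4' : (A.card : ℝ) ≤ 4 * (unm M).card := by exact_mod_cast h4
  have h5' : (B.card : ℝ) ≤ (bad G M L).card := by exact_mod_cast h5
  linarith

theorem pathCover (hc : Cubic G) (hM : IsMat G M) (L : ℕ) :
    HasPathCover G (4 * (unm M).card + (bad G M L).card + Fintype.card V / (L + 1)) := by
  obtain ⟨F, hF1, hF2, hF3⟩ := (Hg G M).exists_isAcyclic_reachable_eq_le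
  refine ⟨F, fun x y h => (h9_adj.1 (hF1 h)).1, hF2, ?_, ?_⟩
  · intro v
    obtain ⟨a, b, hab⟩ := h9_nbr hc hM v
    have hsub : F.neighborSet v ⊆ {a, b} := by
      intro y hy
      exact hab y (hF1 hy)
    refine (Set.ncard_le_ncard hsub (Set.toFinite _)).trans ?_
    have := Set.ncard_insert_le a {b}
    rwa [Set.ncard_singleton] at this
  · have hcard : Nat.card F.ConnectedComponent = Nat.card (Hg G M).ConnectedComponent := by
      unfold SimpleGraph.ConnectedComponent
      rw [hF3]
    rw [hcard]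
    exact h9_comp hc hM L

end NM70
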