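import Pool.Agent.NM70.NBList

set_option autoImplicit false

/-! HAND 8b: counting non-backtracking lists with a near-collision at the head. -/

namespace NM70

open Finset Classical

variable {V : Type*} [Fintype V] {G : SimpleGraph V}

/-- The non-backtracking lists with `j` edges whose last element is `v`. -/
noncomputable def nbl (G : SimpleGraph V) (v : V) (j : ℕ) : Finset (List V) :=
  (List.finite_length_le V (j + 1)).toFinset.filter fun P =>
    NB G P ∧ P.length = j + 1 ∧ P.getLast? = some v

theorem mem_nbl {v : V} {j : ℕ} {P : List V} :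
    P ∈ nbl G v j ↔ NB G P ∧ P.length = j + 1 ∧ P.getLast? = some v := by
  unfold nbl
  rw [mem_filter, Set.Finite.mem_toFinset]
  constructor
  · exact fun h => h.2
  · intro h
    refine ⟨?_, h⟩
    show P.length ≤ j + 1
    omega

theorem h8b_ext3 (hc : Cubic G) (y : V) : (univ.filter fun x => NB G [x, y]).card ≤ 3 := by
  obtain ⟨a, b, c, -, -, -, hN⟩ := hc y
  have h : (univ.filter fun x => NB G [x, y]) ⊆ ({a, b, c} : Finset V) := by
    intro x hx
    rw [mem_filter] at hx
    have h1 : G.Adj x y := hx.2
    have h2 := (hN x).1 h1.symm
    simpa using h2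
  exact (card_le_card h).trans (card_le_three)

theorem h8b_ext2 (hc : Cubic G) (y z : V) (l : List V) (hz : G.Adj y z) :
    (univ.filter fun x => NB G (x :: y :: z :: l)).card ≤ 2 := by
  obtain ⟨a, b, c, -, -, -, hN⟩ := hc y
  have h : (univ.filter fun x => NB G (x :: y :: z :: l)) ⊆ (({a, b, c} : Finset V).erase z) := by
    intro x hx
    rw [mem_filter] at hx
    have h1 : G.Adj x y := hx.2.1
    have h2 := (hN x).1 h1.symm
    rw [mem_erase]
    exact ⟨hx.2.2.1, by simpa using h2⟩
  have hzm : z ∈ ({a, b, c} : Finset V) := by
    have := (hN z).1 hz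
    simpa using this
  have h3 := card_erase_add_one hzm
  have h4 : ({a, b, c} : Finset V).card ≤ 3 := card_le_three
  have h5 := card_le_card h
  omega

theorem h8b_step (v : V) (j K : ℕ)
    (hK : ∀ Q ∈ nbl G v j, (univ.filter fun x => NB G (x :: Q)).card ≤ K) :
    (nbl G v (j + 1)).card ≤ (nbl G v j).card * K := by
  have hsub : nbl G v (j + 1) ⊆ (nbl G v j).biUnion fun Q =>
      (univ.filter fun x => NB G (x :: Q)).image fun x => x :: Q := by
    intro P hP
    rw [mem_nbl] at hP
    obtain ⟨h1, h2, h3⟩ := hP
    cases P with
    | nil => simp at h2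
    | cons x Q =>
      rw [mem_biUnion]
      refine ⟨Q, ?_, ?_⟩
      · rw [mem_nbl]
        refine ⟨nb_tail h1, by simpa using h2, ?_⟩
        cases Q with
        | nil => simp at h2
        | cons y l => rwa [List.getLast?_cons_cons] at h3
      · rw [mem_image]
        exact ⟨x, by rw [mem_filter]; exact ⟨mem_univ _, h1⟩, rfl⟩
  refine (card_le_card hsub).trans ?_
  refine card_biUnion_le_card_mul _ _ _ ?_
  intro Q hQ
  exact card_image_le.trans (hK Q hQ)

theorem card_nbl (hc : Cubic G) (v : V) (j : ℕ) : (nbl G v (j + 1)).card ≤ 3 * 2 ^ j := by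
  induction j with
  | zero =>
    have h0 : (nbl G v 0).card ≤ 1 := by
      have : nbl G v 0 ⊆ {[v]} := by
        intro P hP
        rw [mem_nbl] at hP
        obtain ⟨-, h2, h3⟩ := hP
        rw [mem_singleton]
        cases P with
        | nil => simp at h2
        | cons x Q =>
          have hQ : Q = [] := by
            simpa using h2
          subst hQ
          simp only [List.getLast?_singleton, Option.some.injEq] at h3
          rw [h3]
      exact (card_le_card this).trans (by simp)
    have h1 := h8b_step (G := G) v 0 3 (by
      intro Q hQ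
      rw [mem_nbl] at hQ
      obtain ⟨-, h2, h3⟩ := hQ
      cases Q with
      | nil => simp at h2
      | cons x Q =>
        have hQ : Q = [] := by simpa using h2
        subst hQ
        exact h8b_ext3 hc x)
    calc (nbl G v (0 + 1)).card ≤ (nbl G v 0).card * 3 := h1
      _ ≤ 1 * 3 := Nat.mul_le_mul_right 3 h0
      _ = 3 * 2 ^ 0 := by norm_num
  | succ j ih =>
    have h1 := h8b_step (G := G) v (j + 1) 2 (by
      intro Q hQ
      rw [mem_nbl] at hQ
      obtain ⟨h1, h2, h3⟩ := hQ
      cases Q with
      | nil => simp at h2
      | cons y Q =>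
        cases Q with
        | nil => simp at h2
        | cons z l =>
          exact h8b_ext2 hc y z l (h1_nb_cons.1 h1).1)
    calc (nbl G v (j + 1 + 1)).card ≤ (nbl G v (j + 1)).card * 2 := h1
      _ ≤ 3 * 2 ^ j * 2 := Nat.mul_le_mul_right 2 ih
      _ = 3 * 2 ^ (j + 1) := by rw [pow_succ]; ring

/-- Lists whose tail is far but which are not far: few choices for the head. -/
theorem card_collision (hc : Cubic G) {g : ℕ} (hg : (g : ℕ∞) ≤ G.egirth) (D h : ℕ)
    (hh : 2 * h + 1 ≤ g) (v : V) (i : ℕ) :
    ((nbl G v (h + (i + 1))).filter fun P => Far G D h P.tail ∧ ¬ Far G D h P).card ≤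
      3 * 2 ^ i * (i + 1) * 4 ^ D := by
  have hinj : ((nbl G v (h + (i + 1))).filter fun P =>
      Far G D h P.tail ∧ ¬ Far G D h P).card ≤
      ((nbl G v (i + 1)).sigma fun Q =>
        Q.tail.toFinset.biUnion fun z => univ.filter fun x => Near G D z x).card := by
    refine card_le_card_of_injOn (fun P => (⟨P.drop h, P.headD v⟩ : (_ : List V) × V)) ?_ ?_
    · intro P hP
      have hP' := Finset.mem_filter.1 (Finset.mem_coe.1 hP)
      obtain ⟨h1, h2, h3⟩ := hP'
      rw [mem_nbl] at h1
      obtain ⟨h4, h5, h6⟩ := h1
      rw [Finset.mem_coe, Finset.mem_sigma]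
      cases P with
      | nil => simp at h5
      | cons x l =>
        constructor
        · show (x :: l).drop h ∈ nbl G v (i + 1)
          rw [mem_nbl]
          refine ⟨?_, ?_, ?_⟩
          · apply nb_append_right (l := (x :: l).take h)
            rw [List.take_append_drop]
            exact h4
          · rw [List.length_drop, h5]
            omega
          · rw [List.getLast?_drop, if_neg (by omega)]
            exact h6
        · show (x :: l).headD v ∈ ((x :: l).drop h).tail.toFinset.biUnion fun z =>
            univ.filter fun x => Near G D z x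
          have h7 : ∃ z ∈ (x :: l).drop (h + 1), Near G D x z := by
            by_contra hcon
            push Not at hcon
            exact h3 ⟨hcon, h2⟩
          obtain ⟨z, hz, hnz⟩ := h7
          rw [mem_biUnion]
          refine ⟨z, ?_, ?_⟩
          · rw [List.mem_toFinset, List.tail_drop]
            exact hz
          · rw [mem_filter]
            exact ⟨mem_univ _, hnz.symm⟩
    · intro P hP P' hP' hPP
      have hA := Finset.mem_filter.1 (Finset.mem_coe.1 hP)
      have hB := Finset.mem_filter.1 (Finset.mem_coe.1 hP')
      obtain ⟨h1, -, -⟩ := hA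
      obtain ⟨h1', -, -⟩ := hB
      rw [mem_nbl] at h1 h1'
      obtain ⟨h4, h5, -⟩ := h1
      obtain ⟨h4', h5', -⟩ := h1'
      have e1 : P.drop h = P'.drop h := congrArg Sigma.fst hPP
      have e2 : P.headD v = P'.headD v := by
        have := hPP
        simp only [Sigma.mk.injEq, heq_eq_eq] at this
        exact this.2
      have hl1 : (P.take (h + 1)).length = h + 1 := by
        rw [List.length_take]; omega
      have hl2 : (P'.take (h + 1)).length = h + 1 := by
        rw [List.length_take]; omega
      have hlast : ∀ R : List V, h + 1 ≤ R.length →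
          (R.take (h + 1)).getLast? = (R.drop h).head? := by
        intro R hR
        rw [List.getLast?_take, if_neg (by omega), List.head?_drop]
        have h8 : R[h + 1 - 1]? = R[h]? := rfl
        rw [h8, List.getElem?_eq_getElem (by omega)]
        rfl
      have e3 : P.take (h + 1) = P'.take (h + 1) := by
        refine nb_unique hg (l := P.take (h + 1)) (l' := P'.take (h + 1)) ?_ ?_ ?_ ?_ (by omega)
        · apply nb_append_left (l' := P.drop (h + 1))
          rw [List.take_append_drop]; exact h4
        · apply nb_append_left (l' := P'.drop (h + 1))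
          rw [List.take_append_drop]; exact h4'
        · cases P with
          | nil => simp at h5
          | cons x l =>
            cases P' with
            | nil => simp at h5'
            | cons x' l' =>
              simp only [List.take_succ_cons, List.head?_cons]
              simp only [List.headD_cons] at e2
              rw [e2]
        · rw [hlast P (by omega), hlast P' (by omega), e1]
      have e4 : P.drop (h + 1) = P'.drop (h + 1) := by
        rw [← List.tail_drop, ← List.tail_drop, e1]
      rw [← List.take_append_drop (h + 1) P, ← List.take_append_drop (h + 1) P', e3, e4]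
  refine hinj.trans ?_
  rw [card_sigma]
  have h1 : ∀ Q ∈ nbl G v (i + 1), (Q.tail.toFinset.biUnion fun z =>
      univ.filter fun x => Near G D z x).card ≤ (i + 1) * 4 ^ D := by
    intro Q hQ
    rw [mem_nbl] at hQ
    refine (card_biUnion_le_card_mul _ _ (4 ^ D) (fun z _ => card_near hc D z)).trans ?_
    apply Nat.mul_le_mul_right
    refine (List.toFinset_card_le _).trans ?_
    rw [List.length_tail, hQ.2.1]
    omega
  refine (sum_le_card_nsmul _ _ _ h1).trans ?_
  rw [smul_eq_mul, mul_assoc (3 * 2 ^ i)]
  exact Nat.mul_le_mul_right _ (card_nbl hc v i)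

theorem far_of_short (D h : ℕ) {P : List V} (hP : P.length ≤ h + 1) : Far G D h P := by
  induction P with
  | nil => trivial
  | cons x l ih =>
    refine ⟨?_, ih (by simp only [List.length_cons] at hP; omega)⟩
    intro z hz
    rw [List.drop_eq_nil_of_le hP] at hz
    simp at hz

end NM70
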