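import Pool.Agent.NM70.Defs

set_option autoImplicit false

/-! HAND 10: the abstract selection lemma. -/

namespace NM70

open Finset Classical

theorem s_card_lt {N k : ℕ} (hk : k ≤ N) :
    ((univ : Finset (Fin N)).filter fun a : Fin N => (a : ℕ) < k).card = k := by
  have h1 : ((univ : Finset (Fin N)).filter fun a : Fin N => (a : ℕ) < k) =
      (univ : Finset (Fin k)).map (Fin.castLEEmb hk) := by
    ext a
    simp only [mem_filter, mem_univ, true_and, mem_map, Fin.castLEEmb_apply]
    constructor
    · intro h
      exact ⟨⟨a, h⟩, rfl⟩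
    · rintro ⟨b, rfl⟩
      exact b.2
  rw [h1, card_map, card_univ, Fintype.card_fin]

theorem s_card_all {P : Type*} [Fintype P] [DecidableEq P] {N : ℕ} (f : P → ℕ) (hf : ∀ c, f c ≤ N) :
    ((univ : Finset (P → Fin N)).filter fun ω => ∀ c, (ω c : ℕ) < f c).card = ∏ c, f c := by
  have h1 : ((univ : Finset (P → Fin N)).filter fun ω => ∀ c, (ω c : ℕ) < f c) =
      Fintype.piFinset fun c => (univ : Finset (Fin N)).filter fun a : Fin N => (a : ℕ) < f c := by
    ext ω
    simp [Fintype.mem_piFinset]
  rw [h1, Fintype.card_piFinset]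
  exact prod_congr rfl fun c _ => s_card_lt (hf c)

theorem s_one {P : Type*} [Fintype P] [DecidableEq P] {N : ℕ} (p : P) {k : ℕ} (hk : k ≤ N) :
    N * ((univ : Finset (P → Fin N)).filter fun ω => (ω p : ℕ) < k).card =
      k * N ^ Fintype.card P := by
  have h1 : ((univ : Finset (P → Fin N)).filter fun ω => (ω p : ℕ) < k) =
      (univ : Finset (P → Fin N)).filter fun ω =>
        ∀ c, (ω c : ℕ) < Function.update (fun _ => N) p k c := by
    ext ω
    simp only [mem_filter, mem_univ, true_and]
    constructor
    · intro h c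
      by_cases hc : c = p
      · subst hc
        rwa [Function.update_self]
      · rw [Function.update_of_ne hc]
        exact (ω c).2
    · intro h
      have := h p
      rwa [Function.update_self] at this
  rw [h1, s_card_all, prod_update_of_mem (mem_univ p), prod_const, card_sdiff_of_subset
    (subset_univ _), card_singleton, card_univ]
  · have h2 : 0 < Fintype.card P := Fintype.card_pos_iff.2 ⟨p⟩
    obtain ⟨n, hn⟩ : ∃ n, Fintype.card P = n + 1 := ⟨_, (Nat.succ_pred_eq_of_pos h2).symm⟩
    rw [hn, Nat.add_sub_cancel, pow_succ]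
    ring
  · intro c
    by_cases hc : c = p
    · subst hc
      rwa [Function.update_self]
    · rw [Function.update_of_ne hc]

theorem s_two {P : Type*} [Fintype P] [DecidableEq P] {N : ℕ} {p q : P} (hpq : q ≠ p) {k l : ℕ} (hk : k ≤ N)
    (hl : l ≤ N) :
    N * N * ((univ : Finset (P → Fin N)).filter fun ω => (ω p : ℕ) < k ∧ (ω q : ℕ) < l).card =
      k * l * N ^ Fintype.card P := by
  have h1 : ((univ : Finset (P → Fin N)).filter fun ω => (ω p : ℕ) < k ∧ (ω q : ℕ) < l) =
      (univ : Finset (P → Fin N)).filter fun ω =>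
        ∀ c, (ω c : ℕ) < Function.update (Function.update (fun _ => N) p k) q l c := by
    ext ω
    simp only [mem_filter, mem_univ, true_and]
    constructor
    · rintro ⟨h, h'⟩ c
      by_cases hc : c = q
      · subst hc
        rwa [Function.update_self]
      · rw [Function.update_of_ne hc]
        by_cases hc' : c = p
        · subst hc'
          rwa [Function.update_self]
        · rw [Function.update_of_ne hc']
          exact (ω c).2
    · intro h
      have h2 := h q
      have h3 := h p
      rw [Function.update_self] at h2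
      rw [Function.update_of_ne hpq.symm, Function.update_self] at h3
      exact ⟨h3, h2⟩
  have h4 : p ∈ (univ : Finset P) \ {q} := by simp [hpq.symm]
  rw [h1, s_card_all, prod_update_of_mem (mem_univ q), prod_update_of_mem h4, prod_const]
  · have h5 : (((univ : Finset P) \ {q}) \ {p}).card + 2 = Fintype.card P := by
      have h6 : ({p} : Finset P) ⊆ (univ : Finset P) \ {q} := by
        intro x hx
        rw [mem_singleton] at hx
        rw [hx]
        exact h4
      have h7 := card_sdiff_add_card_eq_card h6
      have h8 := card_sdiff_add_card_eq_card (subset_univ ({q} : Finset P))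
      rw [card_singleton] at h7 h8
      rw [card_univ] at h8
      omega
    rw [← h5, pow_add]
    ring
  · intro c
    by_cases hc : c = q
    · subst hc
      rwa [Function.update_self]
    · rw [Function.update_of_ne hc]
      by_cases hc' : c = p
      · subst hc'
        rwa [Function.update_self]
      · rw [Function.update_of_ne hc']

/-- Random selection: each `p` is proposed with probability `thr p / N` independently; it is
selected if no conflicting `p'` is proposed. -/
theorem select_abs {P : Type*} [Fintype P] [DecidableEq P] {N : ℕ} (hN : 0 < N) (thr : P → ℕ)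
    (hthr : ∀ p, thr p ≤ N) (R : P → P → Prop)
    (hR : ∀ p, ∀ Q : Finset P, (∀ q ∈ Q, R p q ∧ q ≠ p) → 2 * ∑ p' ∈ Q, thr p' ≤ N)
    (S : (P → Fin N) → Finset P)
    (hS : ∀ ω p, (ω p : ℕ) < thr p → (∀ p', p' ≠ p → R p p' → ¬ ((ω p' : ℕ) < thr p')) →
      p ∈ S ω) :
    (∑ p, thr p) * N ^ Fintype.card P ≤ 2 * N * ∑ ω : P → Fin N, (S ω).card := by
  have key : ∀ p, thr p * N ^ Fintype.card P ≤ 2 * N *
      ((univ : Finset (P → Fin N)).filter fun ω => (ω p : ℕ) < thr p ∧
        ∀ p', p' ≠ p → R p p' → ¬ ((ω p' : ℕ) < thr p')).card := by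
    intro p
    set A := (univ : Finset (P → Fin N)).filter fun ω => (ω p : ℕ) < thr p with hA
    set B := (univ : Finset (P → Fin N)).filter fun ω => (ω p : ℕ) < thr p ∧
        ∀ p', p' ≠ p → R p p' → ¬ ((ω p' : ℕ) < thr p') with hB
    set Q := (univ : Finset P).filter fun p' => R p p' ∧ p' ≠ p with hQ
    have hsub : A ⊆ B ∪ Q.biUnion fun p' =>
        (univ : Finset (P → Fin N)).filter fun ω => (ω p : ℕ) < thr p ∧ (ω p' : ℕ) < thr p' := by
      intro ω hω
      rw [hA, mem_filter] at hω
      rw [mem_union]
      by_cases h : ∀ p', p' ≠ p → R p p' → ¬ ((ω p' : ℕ) < thr p')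
      · left
        rw [hB, mem_filter]
        exact ⟨mem_univ _, hω.2, h⟩
      · right
        push Not at h
        obtain ⟨p', h1, h2, h3⟩ := h
        rw [mem_biUnion]
        refine ⟨p', ?_, ?_⟩
        · rw [hQ, mem_filter]
          exact ⟨mem_univ _, h2, h1⟩
        · rw [mem_filter]
          exact ⟨mem_univ _, hω.2, h3⟩
    have hcard : A.card ≤ B.card + ∑ p' ∈ Q,
        ((univ : Finset (P → Fin N)).filter fun ω =>
          (ω p : ℕ) < thr p ∧ (ω p' : ℕ) < thr p').card :=
      (card_le_card hsub).trans ((card_union_le _ _).trans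
        (Nat.add_le_add_left card_biUnion_le _))
    have h1 : N * N * A.card = N * thr p * N ^ Fintype.card P := by
      rw [mul_assoc, hA, s_one p (hthr p)]
      ring
    have h2 : N * N * ∑ p' ∈ Q, ((univ : Finset (P → Fin N)).filter fun ω =>
          (ω p : ℕ) < thr p ∧ (ω p' : ℕ) < thr p').card =
        thr p * (∑ p' ∈ Q, thr p') * N ^ Fintype.card P := by
      rw [mul_sum, mul_sum, sum_mul]
      refine sum_congr rfl fun p' hp' => ?_
      rw [hQ, mem_filter] at hp'
      exact s_two hp'.2.2 (hthr p) (hthr p')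
    have h3 := hR p Q fun q hq => (mem_filter.1 hq).2
    have h4 : N * N * A.card ≤ N * N * B.card +
        thr p * (∑ p' ∈ Q, thr p') * N ^ Fintype.card P := by
      rw [← h2, ← mul_add]
      exact Nat.mul_le_mul_left _ hcard
    rw [h1] at h4
    have h5 : 2 * (thr p * (∑ p' ∈ Q, thr p') * N ^ Fintype.card P) ≤
        N * thr p * N ^ Fintype.card P := by
      calc 2 * (thr p * (∑ p' ∈ Q, thr p') * N ^ Fintype.card P)
          = (2 * ∑ p' ∈ Q, thr p') * (thr p * N ^ Fintype.card P) := by ring
        _ ≤ N * (thr p * N ^ Fintype.card P) := Nat.mul_le_mul_right _ h3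
        _ = N * thr p * N ^ Fintype.card P := by ring
    have h6 : N * (thr p * N ^ Fintype.card P) ≤ N * (2 * N * B.card) := by
      have h7 : N * (thr p * N ^ Fintype.card P) = N * thr p * N ^ Fintype.card P := by ring
      have h8 : N * (2 * N * B.card) = 2 * (N * N * B.card) := by ring
      rw [h7, h8]
      omega
    exact Nat.le_of_mul_le_mul_left h6 hN
  have hswap : ∑ ω : P → Fin N, (univ.filter fun p => (ω p : ℕ) < thr p ∧
        ∀ p', p' ≠ p → R p p' → ¬ ((ω p' : ℕ) < thr p')).card =
      ∑ p : P, ((univ : Finset (P → Fin N)).filter fun ω => (ω p : ℕ) < thr p ∧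
        ∀ p', p' ≠ p → R p p' → ¬ ((ω p' : ℕ) < thr p')).card := by
    simp only [card_filter]
    rw [sum_comm]
  have hle : ∑ ω : P → Fin N, (univ.filter fun p => (ω p : ℕ) < thr p ∧
        ∀ p', p' ≠ p → R p p' → ¬ ((ω p' : ℕ) < thr p')).card ≤ ∑ ω : P → Fin N, (S ω).card := by
    refine sum_le_sum fun ω _ => card_le_card fun p hp => ?_
    rw [mem_filter] at hp
    exact hS ω p hp.2.1 hp.2.2
  refine le_trans ?_ (Nat.mul_le_mul_left _ hle)
  rw [hswap, sum_mul, mul_sum]
  exact sum_le_sum fun p _ => key p

end NM70
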