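import Pool.Agent.NM70.Defs

set_option autoImplicit false

/-! HAND 2: the variance inequality for local functions, and its consequence. -/

namespace NM70

open Finset Classical

variable {V : Type*}

/-- The average over a finite probability space. -/
noncomputable def avg {Ω : Type*} [Fintype Ω] (X : Ω → ℝ) : ℝ := (∑ ω, X ω) / Fintype.card Ω

section h2aux

variable {Ω : Type*} [Fintype Ω]

theorem h2_avg_add (X Y : Ω → ℝ) : avg (fun ω => X ω + Y ω) = avg X + avg Y := by
  unfold avg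
  rw [Finset.sum_add_distrib, add_div]

theorem h2_avg_sub (X Y : Ω → ℝ) : avg (fun ω => X ω - Y ω) = avg X - avg Y := by
  unfold avg
  rw [Finset.sum_sub_distrib, sub_div]

theorem h2_avg_mul (r : ℝ) (X : Ω → ℝ) : avg (fun ω => r * X ω) = r * avg X := by
  unfold avg
  rw [← Finset.mul_sum, mul_div_assoc]

theorem h2_avg_const [Nonempty Ω] (r : ℝ) : avg (fun _ : Ω => r) = r := by
  unfold avg
  have h : (Fintype.card Ω : ℝ) ≠ 0 := by
    have := Fintype.card_pos (α := Ω)
    positivity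
  rw [Finset.sum_const, Finset.card_univ, nsmul_eq_mul]
  field_simp

theorem h2_avg_mono (X Y : Ω → ℝ) (h : ∀ ω, X ω ≤ Y ω) : avg X ≤ avg Y := by
  unfold avg
  exact div_le_div_of_nonneg_right (Finset.sum_le_sum fun ω _ => h ω) (by positivity)

theorem h2_avg_sum {κ : Type*} (s : Finset κ) (X : κ → Ω → ℝ) :
    avg (fun ω => ∑ k ∈ s, X k ω) = ∑ k ∈ s, avg (X k) := by
  unfold avg
  rw [Finset.sum_comm, Finset.sum_div]

end h2aux

section h2up

variable {ι Λ : Type*} [Fintype ι] [DecidableEq ι] [Fintype Λ] [Nonempty Λ]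

/-- Averaging over one coordinate. -/
noncomputable def h2_A (c : ι) (X : (ι → Λ) → ℝ) (ω : ι → Λ) : ℝ :=
  avg fun a => X (Function.update ω c a)

theorem h2_avg_A (c : ι) (X : (ι → Λ) → ℝ) : avg (h2_A c X) = avg X := by
  have key : ∑ p : (ι → Λ) × Λ, X (Function.update p.1 c p.2) =
      ∑ p : (ι → Λ) × Λ, X p.1 := by
    refine Finset.sum_bij' (fun p _ => (Function.update p.1 c p.2, p.1 c))
      (fun p _ => (Function.update p.1 c p.2, p.1 c)) ?_ ?_ ?_ ?_ ?_
    · intro p _; exact Finset.mem_univ _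
    · intro p _; exact Finset.mem_univ _
    · intro p _; ext <;> simp
    · intro p _; ext <;> simp
    · intro p _; rfl
  rw [Fintype.sum_prod_type, Fintype.sum_prod_type] at key
  have hL : (Fintype.card Λ : ℝ) ≠ 0 := by
    have := Fintype.card_pos (α := Λ)
    positivity
  unfold h2_A avg
  rw [← Finset.sum_div]
  congr 1
  simp only at key
  rw [key]
  simp only [Finset.sum_const, Finset.card_univ, nsmul_eq_mul]
  rw [← Finset.mul_sum]
  field_simp

theorem h2_A_indep (c : ι) (X : (ι → Λ) → ℝ) (ω : ι → Λ) (a : Λ) :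
    h2_A c X (Function.update ω c a) = h2_A c X ω := by
  unfold h2_A
  simp

theorem h2_A_of_indep (c : ι) (X : (ι → Λ) → ℝ)
    (h : ∀ ω a, X (Function.update ω c a) = X ω) (ω : ι → Λ) : h2_A c X ω = X ω := by
  unfold h2_A
  simp only [h]
  exact h2_avg_const _

theorem h2_A_update (c d : ι) (X : (ι → Λ) → ℝ)
    (h : ∀ ω a, X (Function.update ω d a) = X ω) (ω : ι → Λ) (a : Λ) :
    h2_A c X (Function.update ω d a) = h2_A c X ω := by
  by_cases hcd : c = d
  · subst hcd
    exact h2_A_indep c X ω a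
  · unfold h2_A
    have : ∀ b, Function.update (Function.update ω d a) c b =
        Function.update (Function.update ω c b) d a := by
      intro b
      exact Function.update_comm (Ne.symm hcd) _ _ _
    simp only [this, h]

theorem h2_A_mul (c : ι) (X Y : (ι → Λ) → ℝ)
    (h : ∀ ω a, Y (Function.update ω c a) = Y ω) (ω : ι → Λ) :
    h2_A c (fun ω => X ω * Y ω) ω = h2_A c X ω * Y ω := by
  unfold h2_A
  simp only [h]
  have : (fun a => X (Function.update ω c a) * Y ω) =
      fun a => Y ω * X (Function.update ω c a) := by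
    funext a; ring
  rw [this, h2_avg_mul]
  ring

theorem h2_A_proj (c : ι) (X : (ι → Λ) → ℝ) :
    avg (fun ω => (X ω) ^ 2) =
      avg (fun ω => (X ω - h2_A c X ω) ^ 2) + avg (fun ω => (h2_A c X ω) ^ 2) := by
  have h1 : avg (fun ω => X ω * h2_A c X ω) = avg (fun ω => (h2_A c X ω) ^ 2) := by
    rw [← h2_avg_A c (fun ω => X ω * h2_A c X ω)]
    congr 1
    funext ω
    rw [h2_A_mul c X (h2_A c X) (fun ω a => h2_A_indep c X ω a)]
    ring
  have h2 : (fun ω => (X ω - h2_A c X ω) ^ 2) =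
      fun ω => ((X ω) ^ 2 - 2 * (X ω * h2_A c X ω)) + (h2_A c X ω) ^ 2 := by
    funext ω; ring
  rw [h2, h2_avg_add, h2_avg_sub, h2_avg_mul, h1]
  ring

end h2up

theorem h2_nsum_A [Fintype V] {ι Λ : Type*} [Fintype ι] [DecidableEq ι] [Fintype Λ] [Nonempty Λ]
    (G : SimpleGraph V) (F : (ι → Λ) → V → ℝ) (c : ι) (y : V) (ω : ι → Λ) :
    nsum G (fun x => h2_A c (fun ω => F ω x) ω) y = h2_A c (fun ω => nsum G (F ω) y) ω := by
  unfold nsum h2_A
  rw [h2_avg_sum]
  refine Finset.sum_congr rfl fun z _ => ?_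
  by_cases h : G.Adj y z
  · simp [h]
  · simp only [h, if_false]
    exact (h2_avg_const 0).symm

theorem h2_nsum_sub [Fintype V] (G : SimpleGraph V) (h k : V → ℝ) (y : V) :
    nsum G (fun x => h x - k x) y = nsum G h y - nsum G k y := by
  unfold nsum
  rw [← Finset.sum_sub_distrib]
  refine Finset.sum_congr rfl fun z _ => ?_
  by_cases hz : G.Adj y z <;> simp [hz]

/-- The induction: functions that depend only on the coordinates in `s`. -/
theorem h2_var [Fintype V] {ι Λ : Type*} [Fintype ι] [DecidableEq ι] [Fintype Λ] [Nonempty Λ]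
    (G : SimpleGraph V) (s : Finset ι) : ∀ (F : (ι → Λ) → V → ℝ)
    (_ : ∀ c : ι, ∃ B : Set V,
      (∀ h : V → ℝ, (∀ x, x ∉ B → h x = 0) → ∑ y, (nsum G h y) ^ 2 ≤ 8 * ∑ x, (h x) ^ 2) ∧
      ∀ x, x ∉ B → ∀ ω a, F (Function.update ω c a) x = F ω x)
    (_ : ∀ c, c ∉ s → ∀ ω a x, F (Function.update ω c a) x = F ω x),
    ∑ y, (avg (fun ω => (nsum G (F ω) y) ^ 2) - (avg fun ω => nsum G (F ω) y) ^ 2) ≤
      8 * ∑ x, (avg (fun ω => (F ω x) ^ 2) - (avg fun ω => F ω x) ^ 2) := by
  induction s using Finset.induction_on with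
  | empty =>
    intro F _ hs
    have hconst : ∀ ω ω' : ι → Λ, F ω = F ω' := by
      intro ω ω'
      have : ∀ t : Finset ι, F (fun i => if i ∈ t then ω' i else ω i) = F ω := by
        intro t
        induction t using Finset.induction_on with
        | empty => simp
        | insert c t hc ih =>
          rw [← ih]
          have e : (fun i => if i ∈ insert c t then ω' i else ω i) =
              Function.update (fun i => if i ∈ t then ω' i else ω i) c (ω' c) := by
            funext i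
            by_cases hi : i = c
            · subst hi; simp
            · simp [hi, Function.update_of_ne]
          rw [e]
          funext x
          exact hs c (by simp) _ _ x
      have h2 := this Finset.univ
      simp only [Finset.mem_univ, if_true] at h2
      exact h2.symm
    obtain ⟨ω0⟩ : Nonempty (ι → Λ) := inferInstance
    have hF : ∀ ω, F ω = F ω0 := fun ω => hconst ω ω0
    simp only [hF, h2_avg_const]
    simp
  | insert c s hc ih =>
    intro F hQ hs
    have hH := ih (fun ω x => h2_A c (fun ω => F ω x) ω) (by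
      intro d
      obtain ⟨B, hB1, hB2⟩ := hQ d
      refine ⟨B, hB1, fun x hx ω a => ?_⟩
      exact h2_A_update c d (fun ω => F ω x) (fun ω a => hB2 x hx ω a) ω a) (by
      intro d hd ω a x
      by_cases hdc : d = c
      · subst hdc
        exact h2_A_indep d (fun ω => F ω x) ω a
      · exact h2_A_update c d (fun ω => F ω x)
          (fun ω a => hs d (by simp [hdc, hd]) ω a x) ω a)
    simp only [h2_nsum_A, h2_avg_A] at hH
    have e1 : ∀ y, avg (fun ω => (nsum G (F ω) y) ^ 2) =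
        avg (fun ω => (nsum G (fun x => F ω x - h2_A c (fun ω => F ω x) ω) y) ^ 2) +
          avg (fun ω => (h2_A c (fun ω => nsum G (F ω) y) ω) ^ 2) := by
      intro y
      have := h2_A_proj c (fun ω => nsum G (F ω) y)
      simp only [h2_nsum_sub, h2_nsum_A]
      exact this
    have e2 : ∀ x, avg (fun ω => (F ω x) ^ 2) =
        avg (fun ω => (F ω x - h2_A c (fun ω => F ω x) ω) ^ 2) +
          avg (fun ω => (h2_A c (fun ω => F ω x) ω) ^ 2) := by
      intro x
      exact h2_A_proj c (fun ω => F ω x)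
    have e3 : ∑ y, avg (fun ω =>
          (nsum G (fun x => F ω x - h2_A c (fun ω => F ω x) ω) y) ^ 2) ≤
        8 * ∑ x, avg (fun ω => (F ω x - h2_A c (fun ω => F ω x) ω) ^ 2) := by
      obtain ⟨B, hB1, hB2⟩ := hQ c
      rw [← h2_avg_sum, ← h2_avg_sum, ← h2_avg_mul]
      refine h2_avg_mono _ _ fun ω => ?_
      refine hB1 _ fun x hx => ?_
      rw [h2_A_of_indep c (fun ω => F ω x) (fun ω a => hB2 x hx ω a)]
      ring
    have e4 : ∑ y, (avg (fun ω => (nsum G (F ω) y) ^ 2) -
          (avg fun ω => nsum G (F ω) y) ^ 2) =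
        ∑ y, avg (fun ω => (nsum G (fun x => F ω x - h2_A c (fun ω => F ω x) ω) y) ^ 2) +
        ∑ y, (avg (fun ω => (h2_A c (fun ω => nsum G (F ω) y) ω) ^ 2) -
          (avg fun ω => nsum G (F ω) y) ^ 2) := by
      rw [← Finset.sum_add_distrib]
      refine Finset.sum_congr rfl fun y _ => ?_
      rw [e1 y]
      ring
    have e5 : ∑ x, (avg (fun ω => (F ω x) ^ 2) - (avg fun ω => F ω x) ^ 2) =
        ∑ x, avg (fun ω => (F ω x - h2_A c (fun ω => F ω x) ω) ^ 2) +
        ∑ x, (avg (fun ω => (h2_A c (fun ω => F ω x) ω) ^ 2) -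
          (avg fun ω => F ω x) ^ 2) := by
      rw [← Finset.sum_add_distrib]
      refine Finset.sum_congr rfl fun x _ => ?_
      rw [e2 x]
      ring
    rw [e4, e5, mul_add]
    exact add_le_add e3 hH

/-- Variance inequality: reveal the coordinates one at a time. -/
theorem var_nbr [Fintype V] {ι Λ : Type*} [Fintype ι] [DecidableEq ι] [Fintype Λ] [Nonempty Λ]
    (G : SimpleGraph V) (F : (ι → Λ) → V → ℝ)
    (hQ : ∀ c : ι, ∃ B : Set V,
      (∀ h : V → ℝ, (∀ x, x ∉ B → h x = 0) → ∑ y, (nsum G h y) ^ 2 ≤ 8 * ∑ x, (h x) ^ 2) ∧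
      ∀ x, x ∉ B → ∀ ω a, F (Function.update ω c a) x = F ω x) :
    ∑ y, (avg (fun ω => (nsum G (F ω) y) ^ 2) - (avg fun ω => nsum G (F ω) y) ^ 2) ≤
      8 * ∑ x, (avg (fun ω => (F ω x) ^ 2) - (avg fun ω => F ω x) ^ 2) :=
  h2_var G Finset.univ F hQ (fun c hc => absurd (Finset.mem_univ c) hc)

/-- The sum over the neighbours, for a cubic graph and a constant. -/
theorem h2_nsum_const [Fintype V] (G : SimpleGraph V) (hc : Cubic G) (h : V → ℝ) (y : V)
    (r : ℝ) (hr : ∀ z, G.Adj y z → h z = r) : nsum G h y = 3 * r := by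
  obtain ⟨a, b, c, hab, hac, hbc, hN⟩ := hc y
  unfold nsum
  have h1 : ∀ z, (if G.Adj y z then h z else 0) = if z ∈ ({a, b, c} : Finset V) then r else 0 := by
    intro z
    by_cases hz : G.Adj y z
    · rw [if_pos hz, if_pos (by simpa using (hN z).1 hz), hr z hz]
    · rw [if_neg hz, if_neg (by
        intro h
        exact hz ((hN z).2 (by simpa using h)))]
  rw [Finset.sum_congr rfl fun z _ => h1 z, Finset.sum_ite_mem, Finset.univ_inter,
    Finset.sum_const]
  have : ({a, b, c} : Finset V).card = 3 := by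
    rw [Finset.card_insert_of_notMem (by simp [hab, hac]),
      Finset.card_insert_of_notMem (by simp [hbc]), Finset.card_singleton]
  rw [this]
  simp

/-- The energy argument, in expectation. -/
theorem energy_expect [Fintype V] [Nonempty V] {Ω : Type*} [Fintype Ω] [Nonempty Ω]
    (G : SimpleGraph V) (hc : Cubic G) (F : Ω → V → ℝ) (u o : Ω → ℝ) (m : ℕ)
    (hF : ∀ ω x, 0 ≤ F ω x) (hu : ∀ ω, 0 ≤ u ω)
    (h1 : ∀ ω x y, G.Adj x y → F ω x * F ω y = 0)
    (h2 : ∀ ω, (151 / 51 : ℝ) ^ 2 * ((∑ x, (F ω x) ^ 2) - u ω) ≤ ∑ y, (nsum G (F ω) y) ^ 2)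
    (h3 : ∀ ω, (51 / 50 : ℝ) ^ m * (u ω - o ω) ≤ ∑ x, F ω x)
    (h4 : ∑ y, (avg (fun ω => (nsum G (F ω) y) ^ 2) - (avg fun ω => nsum G (F ω) y) ^ 2) ≤
      8 * ∑ x, (avg (fun ω => (F ω x) ^ 2) - (avg fun ω => F ω x) ^ 2))
    (h5 : ∀ x y, G.Adj x y → avg (fun ω => F ω x) = avg (fun ω => F ω y))
    (h6 : 64 * (Fintype.card V : ℝ) ≤ (51 / 50 : ℝ) ^ (2 * m) * avg u) :
    avg u / 2 ≤ avg o := by
  set X : ℝ := ∑ x, avg (fun ω => (F ω x) ^ 2) with hX
  set Y : ℝ := ∑ x, (avg fun ω => F ω x) ^ 2 with hY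
  set Z : ℝ := ∑ y, avg (fun ω => (nsum G (F ω) y) ^ 2) with hZ
  have hns : ∀ y, avg (fun ω => nsum G (F ω) y) = 3 * avg (fun ω => F ω y) := by
    intro y
    rw [← h2_nsum_const G hc (fun z => avg (fun ω => F ω z)) y (avg fun ω => F ω y)
      (fun z hz => (h5 y z hz).symm)]
    unfold nsum
    rw [h2_avg_sum]
    refine Finset.sum_congr rfl fun z _ => ?_
    by_cases h : G.Adj y z
    · simp [h]
    · simp only [h, if_false]
      exact h2_avg_const 0
  have hYsum : ∑ y, (avg fun ω => nsum G (F ω) y) ^ 2 = 9 * Y := by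
    rw [hY, Finset.mul_sum]
    refine Finset.sum_congr rfl fun y _ => ?_
    rw [hns y]
    ring
  have h4' : Z - 9 * Y ≤ 8 * (X - Y) := by
    rw [Finset.sum_sub_distrib, Finset.sum_sub_distrib, hYsum] at h4
    exact h4
  have hcross : ∀ ω, ∑ y, F ω y * nsum G (F ω) y = 0 := by
    intro ω
    refine Finset.sum_eq_zero fun y _ => ?_
    unfold nsum
    rw [Finset.mul_sum]
    refine Finset.sum_eq_zero fun z _ => ?_
    by_cases h : G.Adj y z
    · rw [if_pos h]
      exact h1 ω y z h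
    · simp [h]
  -- the quadratic inequality
  have hquad : 0 ≤ (17 / 6 : ℝ) ^ 2 * (X - Y) - 2 * (17 / 6) * (3 * Y) + (Z - 9 * Y) := by
    have hy : ∀ y, avg (fun ω => ((17 / 6 : ℝ) * (F ω y - avg (fun ω => F ω y)) +
          (nsum G (F ω) y - 3 * avg (fun ω => F ω y))) ^ 2) =
        (17 / 6 : ℝ) ^ 2 * (avg (fun ω => (F ω y) ^ 2) - (avg fun ω => F ω y) ^ 2) +
          2 * (17 / 6) * (avg (fun ω => F ω y * nsum G (F ω) y) -
            3 * (avg fun ω => F ω y) ^ 2) +
          (avg (fun ω => (nsum G (F ω) y) ^ 2) - 9 * (avg fun ω => F ω y) ^ 2) := by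
      intro y
      have e : (fun ω => ((17 / 6 : ℝ) * (F ω y - avg (fun ω => F ω y)) +
          (nsum G (F ω) y - 3 * avg (fun ω => F ω y))) ^ 2) =
          fun ω => ((17 / 6 : ℝ) ^ 2 * (F ω y) ^ 2 +
            2 * (17 / 6) * (F ω y * nsum G (F ω) y)) + (nsum G (F ω) y) ^ 2 +
            ((-(2 * (17 / 6 : ℝ) * (17 / 6 + 3) * avg (fun ω => F ω y))) * F ω y +
              (-(2 * (17 / 6 + 3 : ℝ) * avg (fun ω => F ω y))) * nsum G (F ω) y) +
            (17 / 6 + 3) ^ 2 * (avg fun ω => F ω y) ^ 2 := by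
        funext ω
        ring
      rw [e]
      simp only [h2_avg_add, h2_avg_mul, h2_avg_const, hns]
      ring
    have hpos : 0 ≤ ∑ y, avg (fun ω => ((17 / 6 : ℝ) * (F ω y - avg (fun ω => F ω y)) +
          (nsum G (F ω) y - 3 * avg (fun ω => F ω y))) ^ 2) := by
      refine Finset.sum_nonneg fun y _ => ?_
      have := h2_avg_mono (fun _ : Ω => (0 : ℝ)) (fun ω =>
        ((17 / 6 : ℝ) * (F ω y - avg (fun ω => F ω y)) +
          (nsum G (F ω) y - 3 * avg (fun ω => F ω y))) ^ 2) (fun ω => sq_nonneg _)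
      rw [h2_avg_const] at this
      exact this
    have hcr : ∑ y, avg (fun ω => F ω y * nsum G (F ω) y) = 0 := by
      rw [← h2_avg_sum]
      simp only [hcross]
      exact h2_avg_const 0
    rw [Finset.sum_congr rfl fun y _ => hy y, Finset.sum_add_distrib, Finset.sum_add_distrib,
      ← Finset.mul_sum, ← Finset.mul_sum, Finset.sum_sub_distrib, Finset.sum_sub_distrib,
      Finset.sum_sub_distrib, ← Finset.mul_sum, ← Finset.mul_sum, hcr] at hpos
    have : (0 : ℝ) - 3 * Y = -(3 * Y) := by ring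
    simp only [← hX, ← hY, ← hZ] at hpos
    linarith
  have hZX : (151 / 51 : ℝ) ^ 2 * (X - avg u) ≤ Z := by
    have := h2_avg_mono _ _ h2
    rw [h2_avg_mul, h2_avg_sub, h2_avg_sum, h2_avg_sum] at this
    exact this
  have hm : (51 / 50 : ℝ) ^ m * (avg u - avg o) ≤ ∑ x, avg (fun ω => F ω x) := by
    have := h2_avg_mono _ _ h3
    rw [h2_avg_mul, h2_avg_sub, h2_avg_sum] at this
    exact this
  have hcs : (∑ x, avg (fun ω => F ω x)) ^ 2 ≤ (Fintype.card V : ℝ) * Y := by
    have := sq_sum_le_card_mul_sum_sq (s := (Finset.univ : Finset V))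
      (f := fun x => avg (fun ω => F ω x))
    rw [Finset.card_univ] at this
    exact this
  have hn : (0 : ℝ) < Fintype.card V := by
    have := Fintype.card_pos (α := V)
    exact_mod_cast this
  have hth : (0 : ℝ) < (51 / 50 : ℝ) ^ m := by positivity
  have hth2 : (51 / 50 : ℝ) ^ (2 * m) = ((51 / 50 : ℝ) ^ m) ^ 2 := by
    rw [mul_comm, pow_mul]
  by_contra hlt
  push Not at hlt
  have hupos : 0 < avg u := by
    by_contra h
    push Not at h
    have : (51 / 50 : ℝ) ^ (2 * m) * avg u ≤ 0 :=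
      mul_nonpos_of_nonneg_of_nonpos (by positivity) h
    nlinarith
  have hX' : Y ≤ (15.15 : ℝ) * avg u := by
    nlinarith
  have hge : (51 / 50 : ℝ) ^ m * (avg u / 2) < ∑ x, avg (fun ω => F ω x) := by
    have : (51 / 50 : ℝ) ^ m * (avg u / 2) < (51 / 50 : ℝ) ^ m * (avg u - avg o) :=
      mul_lt_mul_of_pos_left (by linarith) hth
    linarith
  have hsq : ((51 / 50 : ℝ) ^ m * (avg u / 2)) ^ 2 < (Fintype.card V : ℝ) * Y := by
    have h0 : 0 ≤ (51 / 50 : ℝ) ^ m * (avg u / 2) := by positivity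
    have := pow_lt_pow_left₀ hge h0 (n := 2) (by norm_num)
    linarith
  rw [hth2] at h6
  have h7 : ((51 / 50 : ℝ) ^ m) ^ 2 * avg u * avg u < 60.6 * (Fintype.card V : ℝ) * avg u := by
    have e : ((51 / 50 : ℝ) ^ m * (avg u / 2)) ^ 2 =
        ((51 / 50 : ℝ) ^ m) ^ 2 * avg u * avg u / 4 := by ring
    rw [e] at hsq
    have : (Fintype.card V : ℝ) * Y ≤ (Fintype.card V : ℝ) * (15.15 * avg u) :=
      mul_le_mul_of_nonneg_left hX' hn.le
    nlinarith
  have h8 : ((51 / 50 : ℝ) ^ m) ^ 2 * avg u < 60.6 * (Fintype.card V : ℝ) :=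
    lt_of_mul_lt_mul_right h7 hupos.le
  nlinarith

end NM70
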