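import Pool.Agent.NM70.EnergyF

set_option autoImplicit false

/-! HAND 4: counting half paths: total weight and load. -/

namespace NM70

open Finset Classical

variable {V : Type*} [Fintype V] {G M : SimpleGraph V}

theorem mem_halves_zero {x : V} {l : List V} :
    l ∈ halves G M 0 x ↔ Unm M x ∧ l = [x] := by
  unfold halves
  split_ifs with h <;> simp [h]

theorem mem_halves_succ {i : ℕ} {x : V} {l : List V} :
    l ∈ halves G M (i + 1) x ↔ ∃ y z l', M.Adj x y ∧ G.Adj y z ∧ z ≠ x ∧ l' ∈ halves G M i z ∧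
      l = x :: y :: l' := by
  rw [halves]
  simp only [mem_biUnion, mem_univ, true_and, Prod.exists]
  constructor
  · rintro ⟨y, z, h⟩
    split_ifs at h with h'
    · obtain ⟨l', hl', rfl⟩ := mem_image.1 h
      exact ⟨y, z, l', h'.1, h'.2.1, h'.2.2, hl', rfl⟩
    · simp at h
  · rintro ⟨y, z, l', h1, h2, h3, h4, rfl⟩
    refine ⟨y, z, ?_⟩
    rw [if_pos ⟨h1, h2, h3⟩]
    exact mem_image_of_mem _ h4

theorem halves_head {i : ℕ} {x : V} {l : List V} (h : l ∈ halves G M i x) :
    l.head? = some x := by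
  cases i with
  | zero => obtain ⟨-, rfl⟩ := mem_halves_zero.1 h; rfl
  | succ i => obtain ⟨y, z, l', -, -, -, -, rfl⟩ := mem_halves_succ.1 h; rfl

theorem halves_length {i : ℕ} {x : V} {l : List V} (h : l ∈ halves G M i x) :
    l.length = 2 * i + 1 := by
  induction i generalizing x l with
  | zero => obtain ⟨-, rfl⟩ := mem_halves_zero.1 h; rfl
  | succ i ih =>
    obtain ⟨y, z, l', -, -, -, h4, rfl⟩ := mem_halves_succ.1 h
    have := ih h4
    simp only [List.length_cons]
    omega

theorem mem_HH {m : ℕ} {x : V} {l : List V} :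
    l ∈ HH G M m x ↔ ∃ i ≤ m, l ∈ halves G M i x := by
  unfold HH
  simp only [mem_biUnion, mem_range, Nat.lt_succ_iff]

theorem mem_augs {m : ℕ} {p : PT V} :
    p ∈ augs G M m ↔ G.Adj p.1.1 p.1.2 ∧ ¬ M.Adj p.1.1 p.1.2 ∧ p.2.1 ∈ HH G M m p.1.1 ∧
      p.2.2 ∈ HH G M m p.1.2 := by
  unfold augs
  simp only [mem_biUnion, mem_univ, true_and]
  constructor
  · rintro ⟨e, he⟩
    split_ifs at he with h
    · rw [mem_product, mem_product, mem_singleton] at he
      obtain ⟨h1, h2, h3⟩ := he
      subst h1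
      exact ⟨h.1, h.2, h2, h3⟩
    · simp at he
  · rintro ⟨h1, h2, h3, h4⟩
    refine ⟨p.1, ?_⟩
    rw [if_pos ⟨h1, h2⟩, mem_product, mem_product, mem_singleton]
    exact ⟨rfl, h3, h4⟩

/-- Counting half paths of the next level with a property. -/
theorem h4_card_filter_succ (i : ℕ) (x : V) (P : List V → Prop) [DecidablePred P] :
    ((halves G M (i + 1) x).filter P).card = ∑ e : V × V,
      if M.Adj x e.1 ∧ G.Adj e.1 e.2 ∧ e.2 ≠ x then
        ((halves G M i e.2).filter (fun l => P (x :: e.1 :: l))).card else 0 := by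
  have h1 : (halves G M (i + 1) x).filter P = (univ : Finset (V × V)).biUnion fun e =>
      if M.Adj x e.1 ∧ G.Adj e.1 e.2 ∧ e.2 ≠ x then
        ((halves G M i e.2).filter (fun l => P (x :: e.1 :: l))).image
          (fun l => x :: e.1 :: l) else ∅ := by
    ext l
    simp only [mem_filter, mem_biUnion, mem_univ, true_and]
    constructor
    · rintro ⟨hl, hP⟩
      obtain ⟨y, z, l', h1, h2, h3, h4, rfl⟩ := mem_halves_succ.1 hl
      refine ⟨(y, z), ?_⟩
      rw [if_pos ⟨h1, h2, h3⟩]
      exact mem_image_of_mem _ (mem_filter.2 ⟨h4, hP⟩)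
    · rintro ⟨e, he⟩
      split_ifs at he with h
      · obtain ⟨l', hl', rfl⟩ := mem_image.1 he
        rw [mem_filter] at hl'
        exact ⟨mem_halves_succ.2 ⟨e.1, e.2, l', h.1, h.2.1, h.2.2, hl'.1, rfl⟩, hl'.2⟩
      · simp at he
  rw [h1, card_biUnion]
  · refine sum_congr rfl fun e _ => ?_
    split_ifs with h
    · rw [card_image_of_injective]
      intro a b hab
      simpa using hab
    · simp
  · intro e _ e' _ hne
    rw [Function.onFun, disjoint_left]
    intro l hl hl'
    split_ifs at hl with h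
    · split_ifs at hl' with h'
      · obtain ⟨a, ha, rfl⟩ := mem_image.1 hl
        obtain ⟨b, hb, hb'⟩ := mem_image.1 hl'
        have ha' := halves_head (mem_filter.1 ha).1
        have hb'' := halves_head (mem_filter.1 hb).1
        simp only [List.cons.injEq, true_and] at hb'
        obtain ⟨h5, h6⟩ := hb'
        subst h6
        rw [ha'] at hb''
        exact hne (Prod.ext h5.symm (Option.some.inj hb''))
      · simp at hl'
    · simp at hl

theorem h4_card_succ (i : ℕ) (x : V) :
    (halves G M (i + 1) x).card = ∑ e : V × V,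
      if M.Adj x e.1 ∧ G.Adj e.1 e.2 ∧ e.2 ≠ x then (halves G M i e.2).card else 0 := by
  have h := h4_card_filter_succ (G := G) (M := M) i x (fun _ => True)
  simpa using h

theorem card_halves (i : ℕ) (x : V) : ((halves G M i x).card : ℝ) = 2 ^ i * fr G M i x := by
  induction i generalizing x with
  | zero =>
    unfold halves fr
    split_ifs with h <;> simp
  | succ i ih =>
    rw [h4_card_succ, fr, Nat.cast_sum, ← mul_assoc]
    have h2 : (2 : ℝ) ^ (i + 1) * (1 / 2) = 2 ^ i := by rw [pow_succ]; ring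
    rw [h2, mul_sum]
    refine sum_congr rfl fun e _ => ?_
    split_ifs with h
    · exact ih _
    · simp

/-- The weight of a half path of level `i`. -/
def h4_w (m i : ℕ) : ℕ := if i = 0 then (m + 1) * 2 ^ m else 2 ^ (m - i)

theorem h4_wt {m i : ℕ} {x : V} {l : List V} (h : l ∈ halves G M i x) :
    wt m l = h4_w m i := by
  have h1 := halves_length h
  unfold wt h4_w
  rw [h1]
  have h2 : (2 * i + 1) / 2 = i := by omega
  rw [h2]
  by_cases hi : i = 0
  · rw [if_pos (by omega), if_pos hi]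
  · rw [if_neg (by omega), if_neg hi]

theorem h4_sum_HH (m : ℕ) (x : V) (P : List V → Prop) [DecidablePred P] :
    ∑ l ∈ (HH G M m x).filter P, wt m l =
      ∑ i ∈ range (m + 1), h4_w m i * ((halves G M i x).filter P).card := by
  have h1 : (HH G M m x).filter P =
      (range (m + 1)).biUnion fun i => (halves G M i x).filter P := by
    ext l
    simp only [mem_filter, mem_HH, mem_biUnion, mem_range, Nat.lt_succ_iff]
    constructor
    · rintro ⟨⟨i, hi, hl⟩, hP⟩
      exact ⟨i, hi, hl, hP⟩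
    · rintro ⟨i, hi, hl, hP⟩
      exact ⟨⟨i, hi, hl⟩, hP⟩
  rw [h1, sum_biUnion]
  · refine sum_congr rfl fun i _ => ?_
    rw [sum_congr rfl (fun l hl => h4_wt (mem_filter.1 hl).1), sum_const, smul_eq_mul, mul_comm]
  · intro i _ j _ hij
    rw [Function.onFun, disjoint_left]
    intro l hl hl'
    have h2 := halves_length (mem_filter.1 hl).1
    have h3 := halves_length (mem_filter.1 hl').1
    omega

theorem h4_Phi (m : ℕ) (x : V) :
    Phi G M m x = ∑ i ∈ range (m + 1), h4_w m i * (halves G M i x).card := by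
  have h := h4_sum_HH (G := G) (M := M) m x (fun _ => True)
  simp only [filter_true] at h
  exact h

theorem Phi_eq (m : ℕ) (x : V) : (Phi G M m x : ℝ) = 2 ^ m * FF G M m x := by
  rw [h4_Phi, sum_range_succ', Nat.cast_add, Nat.cast_sum, FF, mul_add, add_comm, mul_sum]
  congr 1
  · rw [Nat.cast_mul, card_halves]
    simp only [h4_w, if_true, pow_zero, one_mul]
    push_cast
    ring
  · refine sum_congr rfl fun i hi => ?_
    have hi' : i + 1 ≤ m := by rw [mem_range] at hi; omega
    rw [Nat.cast_mul, card_halves]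
    simp only [h4_w, Nat.succ_ne_zero, if_false]
    have h3 : (2 : ℝ) ^ (m - (i + 1)) * 2 ^ (i + 1) = 2 ^ m := by
      rw [← pow_add]; congr 1; omega
    push_cast
    rw [← mul_assoc, h3]

theorem h4_Phi_le (hc : Cubic G) (hM : IsMat G M) (m : ℕ) (x : V) :
    Phi G M m x ≤ (m + 1) * 2 ^ m := by
  have h1 := Phi_eq (G := G) (M := M) m x
  have h2 := FF_le hc hM m x
  have h3 : (Phi G M m x : ℝ) ≤ ((m + 1) * 2 ^ m : ℕ) := by
    rw [h1]
    push_cast
    rw [mul_comm ((m : ℝ) + 1)]
    exact mul_le_mul_of_nonneg_left h2 (by positivity)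
  exact_mod_cast h3

/-- The denominators divide `BB`. -/
theorem h4_dvd (hc : Cubic G) (hM : IsMat G M) (m : ℕ) (x y : V)
    (h : 0 < max (Phi G M m x) (Phi G M m y)) :
    2 ^ m * max (Phi G M m x) (Phi G M m y) ∣ BB m := by
  unfold BB
  apply Nat.dvd_factorial
  · positivity
  · have h1 : max (Phi G M m x) (Phi G M m y) ≤ (m + 1) * 2 ^ m :=
      max_le (h4_Phi_le hc hM m x) (h4_Phi_le hc hM m y)
    calc 2 ^ m * max (Phi G M m x) (Phi G M m y) ≤ 2 ^ m * ((m + 1) * 2 ^ m) :=
          Nat.mul_le_mul_left _ h1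
      _ = (m + 1) * 4 ^ m := by
          rw [show (4 : ℕ) = 2 * 2 from rfl, mul_pow]; ring


theorem h4_Kreal (hc : Cubic G) (hM : IsMat G M) (m : ℕ) (x y : V) :
    (Phi G M m x : ℝ) * (Phi G M m y : ℝ) *
      ((BB m / (2 ^ m * max (Phi G M m x) (Phi G M m y)) : ℕ) : ℝ) =
      BB m * min (FF G M m x) (FF G M m y) := by
  have hx := Phi_eq (G := G) (M := M) m x
  have hy := Phi_eq (G := G) (M := M) m y
  have h2 : (0 : ℝ) < 2 ^ m := by positivity
  have fx := FF_nonneg (G := G) (M := M) m x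
  have fy := FF_nonneg (G := G) (M := M) m y
  rcases Nat.eq_zero_or_pos (max (Phi G M m x) (Phi G M m y)) with h0 | h0
  · have hx0 : Phi G M m x = 0 := by
      have := le_max_left (Phi G M m x) (Phi G M m y); omega
    have hx1 : FF G M m x = 0 := by
      rw [hx0, Nat.cast_zero] at hx
      rcases mul_eq_zero.1 hx.symm with h | h
      · exact absurd h h2.ne'
      · exact h
    rw [hx0, hx1, min_eq_left fy]
    simp
  · have hd := h4_dvd hc hM m x y h0
    have hmax : (((max (Phi G M m x) (Phi G M m y) : ℕ)) : ℝ) =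
        2 ^ m * max (FF G M m x) (FF G M m y) := by
      rw [Nat.cast_max, hx, hy, mul_max_of_nonneg _ _ h2.le]
    have hpos : (0 : ℝ) < max (FF G M m x) (FF G M m y) := by
      have h3 : (0 : ℝ) < ((max (Phi G M m x) (Phi G M m y) : ℕ) : ℝ) := by exact_mod_cast h0
      rw [hmax] at h3
      exact (mul_pos_iff_of_pos_left h2).1 h3
    have hne : ((2 ^ m * max (Phi G M m x) (Phi G M m y) : ℕ) : ℝ) ≠ 0 := by
      have : 0 < 2 ^ m * max (Phi G M m x) (Phi G M m y) := by positivity
      exact_mod_cast this.ne'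
    rw [Nat.cast_div hd hne, Nat.cast_mul, hmax, hx, hy]
    have hmm := min_mul_max (FF G M m x) (FF G M m y)
    push_cast
    field_simp
    linear_combination (-(BB m : ℝ)) * hmm

theorem h4_sum_pair (hc : Cubic G) (hM : IsMat G M) (m : ℕ) (x y : V) :
    ∑ q ∈ HH G M m x ×ˢ HH G M m y, (thr G M m ((x, y), q) : ℝ) =
      BB m * min (FF G M m x) (FF G M m y) := by
  rw [← h4_Kreal hc hM m x y, sum_product, Phi, Phi, Nat.cast_sum, Nat.cast_sum, sum_mul_sum,
    sum_mul]
  refine sum_congr rfl fun q _ => ?_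
  rw [sum_mul]
  refine sum_congr rfl fun q' _ => ?_
  rw [thr, Nat.cast_mul, Nat.cast_mul]
  rfl

theorem h4_sum_augs {R : Type*} [AddCommMonoid R] (m : ℕ) (f : PT V → R) :
    ∑ p ∈ augs G M m, f p = ∑ e : V × V, if G.Adj e.1 e.2 ∧ ¬ M.Adj e.1 e.2 then
      ∑ q ∈ HH G M m e.1 ×ˢ HH G M m e.2, f (e, q) else 0 := by
  unfold augs
  rw [sum_biUnion]
  · refine sum_congr rfl fun e _ => ?_
    split_ifs with h
    · rw [sum_product, sum_singleton]
    · simp
  · intro e _ e' _ hne
    rw [Function.onFun, disjoint_left]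
    intro p hp hp'
    split_ifs at hp with h
    · split_ifs at hp' with h'
      · rw [mem_product, mem_singleton] at hp hp'
        exact hne (hp.1.symm.trans hp'.1)
      · simp at hp'
    · simp at hp

theorem sum_thr (hc : Cubic G) (hM : IsMat G M) (m : ℕ) :
    ∑ p ∈ augs G M m, (thr G M m p : ℝ) = BB m * OO G M m := by
  rw [h4_sum_augs, OO, mul_sum]
  refine sum_congr rfl fun e _ => ?_
  split_ifs with h
  · exact h4_sum_pair hc hM m e.1 e.2
  · simp

/-! ### The load -/

/-- Number of half paths of level `i` through `v`. -/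
noncomputable def h4_C (G M : SimpleGraph V) (v : V) (i : ℕ) : ℕ :=
  ∑ x, ((halves G M i x).filter (fun l => v ∈ l)).card

theorem h4_card_le (hc : Cubic G) (hM : IsMat G M) (i : ℕ) (x : V) :
    (halves G M i x).card ≤ 2 ^ i := by
  have h1 := card_halves (G := G) (M := M) i x
  have h2 := fr_le_one hc hM i x
  have h3 : ((halves G M i x).card : ℝ) ≤ ((2 ^ i : ℕ) : ℝ) := by
    rw [h1]
    push_cast
    exact mul_le_of_le_one_right (by positivity) h2
  exact_mod_cast h3

theorem h4_C_zero (v : V) : h4_C G M v 0 ≤ 1 := by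
  unfold h4_C
  calc ∑ x, ((halves G M 0 x).filter (fun l => v ∈ l)).card
      ≤ ∑ x, if x = v then 1 else 0 := by
        refine sum_le_sum fun x _ => ?_
        split_ifs with h
        · refine card_le_one.2 fun a ha b hb => ?_
          rw [mem_filter] at ha hb
          rw [(mem_halves_zero.1 ha.1).2, (mem_halves_zero.1 hb.1).2]
        · rw [Nat.le_zero, card_eq_zero, filter_eq_empty_iff]
          intro l hl hv
          rw [(mem_halves_zero.1 hl).2, List.mem_singleton] at hv
          exact h hv.symm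
    _ = 1 := by simp

/-- Number of ways to extend a half path at `z`. -/
theorem h4_ext (hc : Cubic G) (hM : IsMat G M) (z : V) :
    ((univ : Finset (V × V)).filter
      (fun e => M.Adj e.1 e.2 ∧ G.Adj e.2 z ∧ z ≠ e.1)).card ≤ if Unm M z then 3 else 2 := by
  obtain ⟨a, b, c, hab, hac, hbc, hz⟩ := hc z
  have hinj : Set.InjOn (Prod.snd : V × V → V) ((univ : Finset (V × V)).filter
      (fun e => M.Adj e.1 e.2 ∧ G.Adj e.2 z ∧ z ≠ e.1)) := by
    intro e he e' he' hee
    rw [Finset.mem_coe, mem_filter] at he he'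
    have h1 := he.2.1.symm
    have h2 := he'.2.1.symm
    rw [← hee] at h2
    exact Prod.ext (hM.uniq _ _ _ h1 h2) hee
  rw [← card_image_of_injOn hinj]
  have hsub : ((univ : Finset (V × V)).filter
      (fun e => M.Adj e.1 e.2 ∧ G.Adj e.2 z ∧ z ≠ e.1)).image Prod.snd ⊆ {a, b, c} := by
    intro y hy
    obtain ⟨e, he, rfl⟩ := mem_image.1 hy
    rw [mem_filter] at he
    have := (hz e.2).1 he.2.2.1.symm
    simpa using this
  split_ifs with hu
  · exact (card_le_card hsub).trans card_le_three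
  · have hu' : ∃ w, M.Adj z w := by
      by_contra hcon
      push Not at hcon
      exact hu hcon
    obtain ⟨w, hw⟩ := hu'
    have hwm : w ∈ ({a, b, c} : Finset V) := by
      have := (hz w).1 (hM.le _ _ hw)
      simpa using this
    have hsub2 : ((univ : Finset (V × V)).filter
      (fun e => M.Adj e.1 e.2 ∧ G.Adj e.2 z ∧ z ≠ e.1)).image Prod.snd ⊆
        ({a, b, c} : Finset V).erase w := by
      intro y hy
      rw [mem_erase]
      refine ⟨?_, hsub hy⟩
      rintro rfl
      obtain ⟨e, he, he2⟩ := mem_image.1 hy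
      rw [mem_filter] at he
      have h1 := he.2.1.symm
      rw [he2] at h1
      exact he.2.2.2 (hM.uniq _ _ _ hw.symm h1)
    have h3 := card_le_card hsub2
    rw [card_erase_of_mem hwm] at h3
    have h4 : ({a, b, c} : Finset V).card ≤ 3 := card_le_three
    omega

theorem h4_unm_halves {i : ℕ} {z : V} {l : List V} (hl : l ∈ halves G M (i + 1) z) :
    ¬ Unm M z := by
  obtain ⟨y, z', l', h1, -⟩ := mem_halves_succ.1 hl
  exact fun hu => hu y h1

theorem h4_C_succ (hc : Cubic G) (hM : IsMat G M) (v : V) (i : ℕ) :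
    h4_C G M v (i + 1) ≤ 2 * 2 ^ (i + 1) + (if i = 0 then 3 else 2) * h4_C G M v i := by
  have hA : ∑ x, (if v = x then (halves G M (i + 1) x).card else 0) ≤ 2 ^ (i + 1) := by
    rw [sum_ite_eq]
    simp only [mem_univ, if_true]
    exact h4_card_le hc hM _ _
  have hB : ∑ x, (if M.Adj x v then (halves G M (i + 1) x).card else 0) ≤ 2 ^ (i + 1) := by
    by_cases hu : ∃ w, M.Adj w v
    · obtain ⟨w, hw⟩ := hu
      rw [sum_eq_single w]
      · rw [if_pos hw]
        exact h4_card_le hc hM _ _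
      · intro x _ hx
        rw [if_neg]
        intro hxv
        exact hx (hM.uniq v x w hxv.symm hw.symm)
      · intro h; exact absurd (mem_univ _) h
    · rw [sum_eq_zero]
      · positivity
      · intro x _
        rw [if_neg]
        exact fun h => hu ⟨x, h⟩
  have hC : ∑ x, ∑ e : V × V, (if M.Adj x e.1 ∧ G.Adj e.1 e.2 ∧ e.2 ≠ x then
      ((halves G M i e.2).filter (fun l => v ∈ l)).card else 0) ≤
      (if i = 0 then 3 else 2) * h4_C G M v i := by
    have h1 : ∑ x, ∑ e : V × V, (if M.Adj x e.1 ∧ G.Adj e.1 e.2 ∧ e.2 ≠ x then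
        ((halves G M i e.2).filter (fun l => v ∈ l)).card else 0) =
        ∑ z, ∑ e : V × V, (if M.Adj e.1 e.2 ∧ G.Adj e.2 z ∧ z ≠ e.1 then
        ((halves G M i z).filter (fun l => v ∈ l)).card else 0) := by
      simp only [Fintype.sum_prod_type]
      rw [sum_congr rfl (fun x _ => sum_comm), sum_comm]
    rw [h1, h4_C, mul_sum]
    refine sum_le_sum fun z _ => ?_
    rw [← sum_filter, sum_const, smul_eq_mul]
    rcases Nat.eq_zero_or_pos ((halves G M i z).filter (fun l => v ∈ l)).card with h0 | h0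
    · rw [h0]; simp
    · refine Nat.mul_le_mul_right _ ((h4_ext hc hM z).trans ?_)
      by_cases hi : i = 0
      · rw [if_pos hi]
        split_ifs <;> norm_num
      · rw [if_neg hi]
        obtain ⟨l, hl⟩ := card_pos.1 h0
        obtain ⟨j, rfl⟩ := Nat.exists_eq_succ_of_ne_zero hi
        rw [if_neg (h4_unm_halves (mem_filter.1 hl).1)]
  have hmain : h4_C G M v (i + 1) ≤
      ∑ x, (if v = x then (halves G M (i + 1) x).card else 0) +
      ∑ x, (if M.Adj x v then (halves G M (i + 1) x).card else 0) +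
      ∑ x, ∑ e : V × V, (if M.Adj x e.1 ∧ G.Adj e.1 e.2 ∧ e.2 ≠ x then
        ((halves G M i e.2).filter (fun l => v ∈ l)).card else 0) := by
    rw [h4_C, ← sum_add_distrib, ← sum_add_distrib]
    refine sum_le_sum fun x _ => ?_
    by_cases hvx : v = x
    · rw [if_pos hvx]
      have := card_filter_le (halves G M (i + 1) x) (fun l => v ∈ l)
      omega
    · by_cases hMx : M.Adj x v
      · rw [if_neg hvx, if_pos hMx]
        have := card_filter_le (halves G M (i + 1) x) (fun l => v ∈ l)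
        omega
      · rw [if_neg hvx, if_neg hMx, zero_add, zero_add, h4_card_filter_succ]
        refine sum_le_sum fun e _ => ?_
        split_ifs with h
        · refine card_le_card fun l hl => ?_
          rw [mem_filter] at hl ⊢
          refine ⟨hl.1, ?_⟩
          have h2 := hl.2
          rw [List.mem_cons, List.mem_cons] at h2
          rcases h2 with h2 | h2 | h2
          · exact absurd h2 hvx
          · rw [h2] at hMx
            exact absurd h.1 hMx
          · exact h2
        · exact le_rfl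
  omega

theorem h4_C_le (hc : Cubic G) (hM : IsMat G M) (v : V) (i : ℕ) :
    2 * h4_C G M v (i + 1) ≤ (4 * i + 7) * 2 ^ (i + 1) := by
  induction i with
  | zero =>
    have h1 := h4_C_succ hc hM v 0
    have h0 := h4_C_zero (G := G) (M := M) v
    simp only [if_true, zero_add, pow_one] at h1 ⊢
    omega
  | succ i ih =>
    have h1 := h4_C_succ hc hM v (i + 1)
    rw [if_neg (Nat.succ_ne_zero i)] at h1
    calc 2 * h4_C G M v (i + 1 + 1) ≤ 2 * (2 * 2 ^ (i + 1 + 1) + 2 * h4_C G M v (i + 1)) :=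
          Nat.mul_le_mul_left _ h1
      _ = 4 * 2 ^ (i + 1 + 1) + 2 * (2 * h4_C G M v (i + 1)) := by ring
      _ ≤ 4 * 2 ^ (i + 1 + 1) + 2 * ((4 * i + 7) * 2 ^ (i + 1)) :=
          Nat.add_le_add_left (Nat.mul_le_mul_left _ ih) _
      _ = (4 * (i + 1) + 7) * 2 ^ (i + 1 + 1) := by ring

/-- Total weight of the half paths through `v`. -/
noncomputable def h4_A (G M : SimpleGraph V) (m : ℕ) (v x : V) : ℕ :=
  ∑ l ∈ (HH G M m x).filter (fun l => v ∈ l), wt m l

theorem h4_sum_lin (m : ℕ) : ∑ i ∈ range m, (4 * i + 7) = 2 * m ^ 2 + 5 * m := by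
  induction m with
  | zero => rfl
  | succ m ih => rw [sum_range_succ, ih]; ring

theorem h4_S (hc : Cubic G) (hM : IsMat G M) (m : ℕ) (v : V) :
    ∑ x, h4_A G M m v x ≤ 2 ^ m * (m + 2) ^ 2 := by
  have h1 : ∑ x, h4_A G M m v x = ∑ i ∈ range (m + 1), h4_w m i * h4_C G M v i := by
    unfold h4_A
    simp_rw [h4_sum_HH]
    rw [sum_comm]
    refine sum_congr rfl fun i _ => ?_
    rw [h4_C, mul_sum]
  have h2 : 2 * ∑ x, h4_A G M m v x ≤ 2 * (2 ^ m * (m + 2) ^ 2) := by
    rw [h1, sum_range_succ', mul_add, mul_sum]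
    have h3 : ∑ i ∈ range m, 2 * (h4_w m (i + 1) * h4_C G M v (i + 1)) ≤
        ∑ i ∈ range m, (4 * i + 7) * 2 ^ m := by
      refine sum_le_sum fun i hi => ?_
      have hi' : i + 1 ≤ m := by rw [mem_range] at hi; omega
      have h4 := h4_C_le hc hM v i
      simp only [h4_w, Nat.succ_ne_zero, if_false]
      calc 2 * (2 ^ (m - (i + 1)) * h4_C G M v (i + 1)) =
            2 ^ (m - (i + 1)) * (2 * h4_C G M v (i + 1)) := by ring
        _ ≤ 2 ^ (m - (i + 1)) * ((4 * i + 7) * 2 ^ (i + 1)) := Nat.mul_le_mul_left _ h4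
        _ = (4 * i + 7) * (2 ^ (m - (i + 1)) * 2 ^ (i + 1)) := by ring
        _ = (4 * i + 7) * 2 ^ m := by
            rw [← pow_add, Nat.sub_add_cancel hi']
    rw [← sum_mul, h4_sum_lin] at h3
    have h5 : 2 * (h4_w m 0 * h4_C G M v 0) ≤ 2 * ((m + 1) * 2 ^ m) := by
      simp only [h4_w, if_true]
      have := h4_C_zero (G := G) (M := M) v
      calc 2 * ((m + 1) * 2 ^ m * h4_C G M v 0) ≤ 2 * ((m + 1) * 2 ^ m * 1) :=
            Nat.mul_le_mul_left _ (Nat.mul_le_mul_left _ this)
        _ = 2 * ((m + 1) * 2 ^ m) := by rw [mul_one]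
    calc _ ≤ (2 * m ^ 2 + 5 * m) * 2 ^ m + 2 * ((m + 1) * 2 ^ m) := Nat.add_le_add h3 h5
      _ = 2 ^ m * (2 * m ^ 2 + 7 * m + 2) := by ring
      _ ≤ 2 ^ m * (2 * (m + 2) ^ 2) := by
          refine Nat.mul_le_mul_left _ ?_
          have h6 : 2 * (m + 2) ^ 2 = 2 * m ^ 2 + 8 * m + 8 := by ring
          rw [h6]
          omega
      _ = 2 * (2 ^ m * (m + 2) ^ 2) := by ring
  omega

/-- The common factor. -/
noncomputable def h4_K (G M : SimpleGraph V) (m : ℕ) (x y : V) : ℕ :=
  BB m / (2 ^ m * max (Phi G M m x) (Phi G M m y))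

theorem h4_K_le (m : ℕ) (x y : V) :
    2 ^ m * (Phi G M m x * h4_K G M m x y) ≤ BB m ∧
    2 ^ m * (Phi G M m y * h4_K G M m x y) ≤ BB m := by
  have h1 := Nat.div_mul_le_self (BB m) (2 ^ m * max (Phi G M m x) (Phi G M m y))
  constructor
  · calc 2 ^ m * (Phi G M m x * h4_K G M m x y)
        = h4_K G M m x y * (2 ^ m * Phi G M m x) := by ring
      _ ≤ h4_K G M m x y * (2 ^ m * max (Phi G M m x) (Phi G M m y)) :=
          Nat.mul_le_mul_left _ (Nat.mul_le_mul_left _ (le_max_left _ _))
      _ ≤ BB m := h1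
  · calc 2 ^ m * (Phi G M m y * h4_K G M m x y)
        = h4_K G M m x y * (2 ^ m * Phi G M m y) := by ring
      _ ≤ h4_K G M m x y * (2 ^ m * max (Phi G M m x) (Phi G M m y)) :=
          Nat.mul_le_mul_left _ (Nat.mul_le_mul_left _ (le_max_right _ _))
      _ ≤ BB m := h1

theorem h4_deg (hc : Cubic G) (x : V) :
    ((univ : Finset V).filter (fun y => G.Adj x y)).card ≤ 3 := by
  obtain ⟨a, b, c, -, -, -, hz⟩ := hc x
  have : (univ : Finset V).filter (fun y => G.Adj x y) ⊆ {a, b, c} := by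
    intro y hy
    rw [mem_filter] at hy
    have := (hz y).1 hy.2
    simpa using this
  exact (card_le_card this).trans card_le_three

theorem h4_half1 (hc : Cubic G) (hM : IsMat G M) (m : ℕ) (v : V) :
    ∑ p ∈ (augs G M m).filter (fun p => v ∈ p.2.1), thr G M m p ≤ 3 * (m + 2) ^ 2 * BB m := by
  have h0 : 2 ^ m * ∑ p ∈ (augs G M m).filter (fun p => v ∈ p.2.1), thr G M m p ≤
      2 ^ m * (3 * (m + 2) ^ 2 * BB m) := by
    have h1 : ∑ p ∈ (augs G M m).filter (fun p => v ∈ p.2.1), thr G M m p =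
        ∑ e : V × V, if G.Adj e.1 e.2 ∧ ¬ M.Adj e.1 e.2 then
          h4_A G M m v e.1 * (Phi G M m e.2 * h4_K G M m e.1 e.2) else 0 := by
      rw [sum_filter, h4_sum_augs]
      refine sum_congr rfl fun e _ => ?_
      split_ifs with h
      · rw [sum_product, h4_A, sum_filter, sum_mul]
        refine sum_congr rfl fun q _ => ?_
        by_cases hq : v ∈ q
        · simp only [if_pos hq]
          rw [Phi, sum_mul, mul_sum]
          refine sum_congr rfl fun q' _ => ?_
          rw [thr, h4_K]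
          ring
        · simp only [if_neg hq]
          simp
      · rfl
    rw [h1, mul_sum]
    calc ∑ e : V × V, 2 ^ m * (if G.Adj e.1 e.2 ∧ ¬ M.Adj e.1 e.2 then
          h4_A G M m v e.1 * (Phi G M m e.2 * h4_K G M m e.1 e.2) else 0)
        ≤ ∑ e : V × V, if G.Adj e.1 e.2 then h4_A G M m v e.1 * BB m else 0 := by
          refine sum_le_sum fun e _ => ?_
          split_ifs with h h' h'
          · calc 2 ^ m * (h4_A G M m v e.1 * (Phi G M m e.2 * h4_K G M m e.1 e.2))
                = h4_A G M m v e.1 * (2 ^ m * (Phi G M m e.2 * h4_K G M m e.1 e.2)) := by ring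
              _ ≤ _ := Nat.mul_le_mul_left _ (h4_K_le m e.1 e.2).2
          · exact absurd h.1 h'
          · simp
          · simp
      _ = ∑ x, ((univ : Finset V).filter (fun y => G.Adj x y)).card * (h4_A G M m v x * BB m) := by
          rw [Fintype.sum_prod_type]
          refine sum_congr rfl fun x _ => ?_
          dsimp only
          rw [← sum_filter, sum_const, smul_eq_mul]
      _ ≤ ∑ x, 3 * (h4_A G M m v x * BB m) :=
          sum_le_sum fun x _ => Nat.mul_le_mul_right _ (h4_deg hc x)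
      _ = 3 * BB m * ∑ x, h4_A G M m v x := by
          rw [mul_sum]
          refine sum_congr rfl fun x _ => ?_
          ring
      _ ≤ 3 * BB m * (2 ^ m * (m + 2) ^ 2) := Nat.mul_le_mul_left _ (h4_S hc hM m v)
      _ = 2 ^ m * (3 * (m + 2) ^ 2 * BB m) := by ring
  exact Nat.le_of_mul_le_mul_left h0 (by positivity)

theorem h4_half2 (hc : Cubic G) (hM : IsMat G M) (m : ℕ) (v : V) :
    ∑ p ∈ (augs G M m).filter (fun p => v ∈ p.2.2), thr G M m p ≤ 3 * (m + 2) ^ 2 * BB m := by
  have h0 : 2 ^ m * ∑ p ∈ (augs G M m).filter (fun p => v ∈ p.2.2), thr G M m p ≤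
      2 ^ m * (3 * (m + 2) ^ 2 * BB m) := by
    have h1 : ∑ p ∈ (augs G M m).filter (fun p => v ∈ p.2.2), thr G M m p =
        ∑ e : V × V, if G.Adj e.1 e.2 ∧ ¬ M.Adj e.1 e.2 then
          h4_A G M m v e.2 * (Phi G M m e.1 * h4_K G M m e.1 e.2) else 0 := by
      rw [sum_filter, h4_sum_augs]
      refine sum_congr rfl fun e _ => ?_
      split_ifs with h
      · rw [sum_product_right, h4_A, sum_filter, sum_mul]
        refine sum_congr rfl fun q _ => ?_
        by_cases hq : v ∈ q
        · simp only [if_pos hq]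
          rw [Phi, sum_mul, mul_sum]
          refine sum_congr rfl fun q' _ => ?_
          rw [thr, h4_K]
          ring
        · simp only [if_neg hq]
          simp
      · rfl
    rw [h1, mul_sum]
    calc ∑ e : V × V, 2 ^ m * (if G.Adj e.1 e.2 ∧ ¬ M.Adj e.1 e.2 then
          h4_A G M m v e.2 * (Phi G M m e.1 * h4_K G M m e.1 e.2) else 0)
        ≤ ∑ e : V × V, if G.Adj e.2 e.1 then h4_A G M m v e.2 * BB m else 0 := by
          refine sum_le_sum fun e _ => ?_
          split_ifs with h h' h'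
          · calc 2 ^ m * (h4_A G M m v e.2 * (Phi G M m e.1 * h4_K G M m e.1 e.2))
                = h4_A G M m v e.2 * (2 ^ m * (Phi G M m e.1 * h4_K G M m e.1 e.2)) := by ring
              _ ≤ _ := Nat.mul_le_mul_left _ (h4_K_le m e.1 e.2).1
          · exact absurd h.1.symm h'
          · simp
          · simp
      _ = ∑ x, ((univ : Finset V).filter (fun y => G.Adj x y)).card * (h4_A G M m v x * BB m) := by
          rw [Fintype.sum_prod_type_right]
          refine sum_congr rfl fun x _ => ?_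
          dsimp only
          rw [← sum_filter, sum_const, smul_eq_mul]
      _ ≤ ∑ x, 3 * (h4_A G M m v x * BB m) :=
          sum_le_sum fun x _ => Nat.mul_le_mul_right _ (h4_deg hc x)
      _ = 3 * BB m * ∑ x, h4_A G M m v x := by
          rw [mul_sum]
          refine sum_congr rfl fun x _ => ?_
          ring
      _ ≤ 3 * BB m * (2 ^ m * (m + 2) ^ 2) := Nat.mul_le_mul_left _ (h4_S hc hM m v)
      _ = 2 ^ m * (3 * (m + 2) ^ 2 * BB m) := by ring
  exact Nat.le_of_mul_le_mul_left h0 (by positivity)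

theorem h4_L (hc : Cubic G) (hM : IsMat G M) (m : ℕ) (v : V) :
    ∑ p ∈ (augs G M m).filter (fun p => v ∈ vs p), thr G M m p ≤ 6 * (m + 2) ^ 2 * BB m := by
  have h1 : (augs G M m).filter (fun p => v ∈ vs p) ⊆
      (augs G M m).filter (fun p => v ∈ p.2.1) ∪ (augs G M m).filter (fun p => v ∈ p.2.2) := by
    intro p hp
    rw [mem_filter, vs, List.mem_append] at hp
    rw [mem_union, mem_filter, mem_filter]
    rcases hp.2 with h | h
    · exact Or.inl ⟨hp.1, h⟩
    · exact Or.inr ⟨hp.1, h⟩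
  calc ∑ p ∈ (augs G M m).filter (fun p => v ∈ vs p), thr G M m p
      ≤ ∑ p ∈ (augs G M m).filter (fun p => v ∈ p.2.1) ∪
          (augs G M m).filter (fun p => v ∈ p.2.2), thr G M m p := sum_le_sum_of_subset h1
    _ ≤ ∑ p ∈ (augs G M m).filter (fun p => v ∈ p.2.1), thr G M m p +
        ∑ p ∈ (augs G M m).filter (fun p => v ∈ p.2.2), thr G M m p := by
        rw [← sum_union_inter]
        exact Nat.le_add_right _ _
    _ ≤ 3 * (m + 2) ^ 2 * BB m + 3 * (m + 2) ^ 2 * BB m :=
        Nat.add_le_add (h4_half1 hc hM m v) (h4_half2 hc hM m v)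
    _ = 6 * (m + 2) ^ 2 * BB m := by ring

theorem h4_sum_biUnion_le {ι κ : Type*} [DecidableEq ι] [DecidableEq κ] (s : Finset ι)
    (t : ι → Finset κ) (f : κ → ℕ) :
    ∑ a ∈ s.biUnion t, f a ≤ ∑ i ∈ s, ∑ a ∈ t i, f a := by
  induction s using Finset.induction_on with
  | empty => simp
  | insert i s hi ih =>
    rw [biUnion_insert, sum_insert hi]
    calc ∑ a ∈ t i ∪ s.biUnion t, f a ≤ ∑ a ∈ t i, f a + ∑ a ∈ s.biUnion t, f a := by
          rw [← sum_union_inter]
          exact Nat.le_add_right _ _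
      _ ≤ _ := Nat.add_le_add_left ih _

/-- The total threshold of the paths that meet a given path. -/
theorem conflict (hc : Cubic G) (hM : IsMat G M) (m : ℕ) {p : PT V} (hp : p ∈ augs G M m) :
    2 * ∑ p' ∈ (augs G M m).filter (fun p' => ∃ v ∈ vs p, v ∈ vs p'), thr G M m p' ≤ NN m := by
  have hlen : (vs p).length ≤ 4 * m + 2 := by
    obtain ⟨-, -, h1, h2⟩ := mem_augs.1 hp
    obtain ⟨i, hi, hl⟩ := mem_HH.1 h1
    obtain ⟨j, hj, hl'⟩ := mem_HH.1 h2
    rw [vs, List.length_append, halves_length hl, halves_length hl']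
    omega
  have h1 : (augs G M m).filter (fun p' => ∃ v ∈ vs p, v ∈ vs p') ⊆
      (vs p).toFinset.biUnion fun v => (augs G M m).filter (fun p' => v ∈ vs p') := by
    intro p' hp'
    rw [mem_filter] at hp'
    obtain ⟨h2, v, hv, hv'⟩ := hp'
    rw [mem_biUnion]
    exact ⟨v, List.mem_toFinset.2 hv, mem_filter.2 ⟨h2, hv'⟩⟩
  have h2 : ∑ p' ∈ (augs G M m).filter (fun p' => ∃ v ∈ vs p, v ∈ vs p'), thr G M m p' ≤
      (4 * m + 2) * (6 * (m + 2) ^ 2 * BB m) := by
    calc _ ≤ ∑ p' ∈ (vs p).toFinset.biUnion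
          fun v => (augs G M m).filter (fun p' => v ∈ vs p'), thr G M m p' :=
          sum_le_sum_of_subset h1
      _ ≤ ∑ v ∈ (vs p).toFinset, ∑ p' ∈ (augs G M m).filter (fun p' => v ∈ vs p'),
          thr G M m p' := by
          exact h4_sum_biUnion_le _ _ _
      _ ≤ ∑ v ∈ (vs p).toFinset, 6 * (m + 2) ^ 2 * BB m :=
          sum_le_sum fun v _ => h4_L hc hM m v
      _ = (vs p).toFinset.card * (6 * (m + 2) ^ 2 * BB m) := by
          rw [sum_const, smul_eq_mul]
      _ ≤ (4 * m + 2) * (6 * (m + 2) ^ 2 * BB m) :=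
          Nat.mul_le_mul_right _ ((List.toFinset_card_le _).trans hlen)
  calc _ ≤ 2 * ((4 * m + 2) * (6 * (m + 2) ^ 2 * BB m)) := Nat.mul_le_mul_left _ h2
    _ = (24 * (2 * m + 1)) * ((m + 2) ^ 2 * BB m) := by ring
    _ ≤ (48 * (m + 2)) * ((m + 2) ^ 2 * BB m) := Nat.mul_le_mul_right _ (by omega)
    _ = NN m := by rw [NN]; ring

end NM70
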