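import Pool.Agent.NM70.NBList
import Pool.Agent.NM70.Load

set_option autoImplicit false

/-! HAND 5: one round produces a matching with fewer unmatched vertices. -/

namespace NM70

open Finset Classical

variable {V : Type*} [Fintype V] {G M : SimpleGraph V}

/-! ### lists -/

omit [Fintype V] in
theorem h5_newH_mem : ∀ (q : List V) (a b : V), newH q a b → a ∈ q.tail ∧ b ∈ q.tail
  | [], _, _, h => h.elim
  | [_], _, _, h => h.elim
  | [_, _], _, _, h => h.elim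
  | _ :: y :: z :: l, a, b, h => by
    rcases h with ⟨h1, h2⟩ | ⟨h1, h2⟩ | h
    · subst h1
      subst h2
      simp
    · subst h1
      subst h2
      simp
    · obtain ⟨h1, h2⟩ := h5_newH_mem (z :: l) a b h
      rw [List.tail_cons] at h1 h2
      simp [h1, h2]

omit [Fintype V] in
theorem h5_newH_symm : ∀ (q : List V) (a b : V), newH q a b → newH q b a
  | [], _, _, h => h.elim
  | [_], _, _, h => h.elim
  | [_, _], _, _, h => h.elim
  | _ :: y :: z :: l, a, b, h => by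
    rcases h with ⟨h1, h2⟩ | ⟨h1, h2⟩ | h
    · exact Or.inr (Or.inl ⟨h2, h1⟩)
    · exact Or.inl ⟨h2, h1⟩
    · exact Or.inr (Or.inr (h5_newH_symm (z :: l) a b h))

omit [Fintype V] in
theorem h5_newH_uniq : ∀ (q : List V) (a b c : V), q.Nodup → newH q a b → newH q a c → b = c
  | [], _, _, _, _, h, _ => h.elim
  | [_], _, _, _, _, h, _ => h.elim
  | [_, _], _, _, _, _, h, _ => h.elim
  | x :: y :: z :: l, a, b, c, hn, h, h' => by
    have hn1 : (y :: z :: l).Nodup := (List.nodup_cons.1 hn).2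
    have hn2 : (z :: l).Nodup := (List.nodup_cons.1 hn1).2
    have hyzl : y ∉ z :: l := (List.nodup_cons.1 hn1).1
    have hyz : y ≠ z := fun h0 => hyzl (by rw [h0]; exact List.mem_cons_self)
    have hyl : y ∉ l := fun h0 => hyzl (List.mem_cons_of_mem _ h0)
    have hzl : z ∉ l := (List.nodup_cons.1 hn2).1
    rcases h with ⟨h1, h2⟩ | ⟨h1, h2⟩ | h
    · rcases h' with ⟨h3, h4⟩ | ⟨h3, h4⟩ | h'
      · rw [h2, h4]
      · exact absurd (h1.symm.trans h3) hyz
      · obtain ⟨h5, -⟩ := h5_newH_mem (z :: l) a c h'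
        rw [h1] at h5
        exact absurd h5 hyl
    · rcases h' with ⟨h3, h4⟩ | ⟨h3, h4⟩ | h'
      · exact absurd (h3.symm.trans h1) hyz
      · rw [h2, h4]
      · obtain ⟨h5, -⟩ := h5_newH_mem (z :: l) a c h'
        rw [h1] at h5
        exact absurd h5 hzl
    · obtain ⟨h5, -⟩ := h5_newH_mem (z :: l) a b h
      rw [List.tail_cons] at h5
      rcases h' with ⟨h3, h4⟩ | ⟨h3, h4⟩ | h'
      · rw [h3] at h5
        exact absurd h5 hyl
      · rw [h3] at h5
        exact absurd h5 hzl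
      · exact h5_newH_uniq (z :: l) a b c hn2 h h'

omit [Fintype V] in
theorem h5_newH_adj : ∀ (q : List V) (a b : V), NB G q → newH q a b → G.Adj a b
  | [], _, _, _, h => h.elim
  | [_], _, _, _, h => h.elim
  | [_, _], _, _, _, h => h.elim
  | x :: y :: z :: l, a, b, hn, h => by
    have h1 : NB G (y :: z :: l) := nb_tail hn
    have hyz : G.Adj y z := by
      cases l with
      | nil => exact h1
      | cons w l => exact h1.1
    rcases h with ⟨h2, h3⟩ | ⟨h2, h3⟩ | h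
    · rw [h2, h3]
      exact hyz
    · rw [h2, h3]
      exact hyz.symm
    · exact h5_newH_adj (z :: l) a b (nb_tail h1) h

/-! ### half paths -/

theorem h5_cons {i : ℕ} {x : V} {l : List V} (h : l ∈ halves G M i x) : ∃ t, l = x :: t := by
  have h1 := halves_head h
  cases l with
  | nil => simp at h1
  | cons a t =>
    simp only [List.head?_cons, Option.some.injEq] at h1
    exact ⟨t, by rw [h1]⟩

theorem h5_nb (hM : IsMat G M) : ∀ (i : ℕ) (x : V) (l : List V), l ∈ halves G M i x →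
    NB G l ∧ ∀ w, G.Adj w x → ¬ M.Adj w x → NB G (w :: l)
  | 0, x, l, h => by
    obtain ⟨-, rfl⟩ := mem_halves_zero.1 h
    exact ⟨trivial, fun w hw _ => hw⟩
  | i + 1, x, l, h => by
    obtain ⟨y, z, l', hxy, hyz, hzx, hl', rfl⟩ := mem_halves_succ.1 h
    have hyz' : ¬ M.Adj y z := by
      intro h1
      exact hzx (hM.uniq y z x h1 hxy.symm)
    have h2 := (h5_nb hM i z l' hl').2 y hyz hyz'
    obtain ⟨t, rfl⟩ := h5_cons hl'
    have h3 : NB G (x :: y :: z :: t) := ⟨hM.le _ _ hxy, hzx.symm, h2⟩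
    refine ⟨h3, fun w hw hwM => ?_⟩
    refine ⟨hw, ?_, h3⟩
    rintro rfl
    exact hwM hxy.symm

theorem h5_closed : ∀ (i : ℕ) (x : V) (l : List V), IsMat G M → l ∈ halves G M i x →
    ∀ a ∈ l, ∀ b, M.Adj a b → b ∈ l
  | 0, x, l, hM, h, a, ha, b, hab => by
    obtain ⟨hx, rfl⟩ := mem_halves_zero.1 h
    rw [List.mem_singleton] at ha
    rw [ha] at hab
    exact absurd hab (hx b)
  | i + 1, x, l, hM, h, a, ha, b, hab => by
    obtain ⟨y, z, l', hxy, hyz, hzx, hl', rfl⟩ := mem_halves_succ.1 h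
    rw [List.mem_cons, List.mem_cons] at ha
    rcases ha with rfl | rfl | ha
    · have h1 := hM.uniq _ _ _ hab hxy
      rw [h1]
      simp
    · have h1 := hM.uniq _ _ _ hab hxy.symm
      rw [h1]
      simp
    · exact List.mem_cons_of_mem _ (List.mem_cons_of_mem _ (h5_closed i z l' hM hl' a ha b hab))

theorem h5_unm : ∀ (i : ℕ) (x : V) (l : List V), l ∈ halves G M i x → ∃ u ∈ l, Unm M u
  | 0, x, l, h => by
    obtain ⟨hx, rfl⟩ := mem_halves_zero.1 h
    exact ⟨x, by simp, hx⟩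
  | i + 1, x, l, h => by
    obtain ⟨y, z, l', hxy, hyz, hzx, hl', rfl⟩ := mem_halves_succ.1 h
    obtain ⟨u, hu, hu'⟩ := h5_unm i z l' hl'
    exact ⟨u, List.mem_cons_of_mem _ (List.mem_cons_of_mem _ hu), hu'⟩

theorem h5_partner : ∀ (i : ℕ) (x : V) (l : List V), l ∈ halves G M i x →
    ∀ a ∈ l, a ≠ x → ∃ b, newH l a b
  | 0, x, l, h, a, ha, hax => by
    obtain ⟨hx, rfl⟩ := mem_halves_zero.1 h
    rw [List.mem_singleton] at ha
    exact absurd ha hax
  | i + 1, x, l, h, a, ha, hax => by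
    obtain ⟨y, z, l', hxy, hyz, hzx, hl', rfl⟩ := mem_halves_succ.1 h
    obtain ⟨t, rfl⟩ := h5_cons hl'
    rw [List.mem_cons, List.mem_cons] at ha
    rcases ha with ha | ha | ha
    · exact absurd ha hax
    · exact ⟨z, Or.inl ⟨ha, rfl⟩⟩
    · by_cases haz : a = z
      · exact ⟨y, Or.inr (Or.inl ⟨haz, rfl⟩)⟩
      · obtain ⟨b, hb⟩ := h5_partner i z (z :: t) hl' a ha haz
        exact ⟨b, Or.inr (Or.inr hb)⟩

theorem h5_lvl {m : ℕ} {x : V} {l : List V} (h : l ∈ HH G M m x) :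
    ∃ i, l ∈ halves G M i x ∧ l.length ≤ 2 * m + 1 := by
  obtain ⟨i, hi, h⟩ := mem_HH.1 h
  exact ⟨i, h, by rw [halves_length h]; omega⟩

theorem augs_nodup (hM : IsMat G M) {g : ℕ} (hg : (g : ℕ∞) ≤ G.egirth) {m : ℕ}
    (hm : 4 * m + 2 ≤ g) {p : PT V} (hp : p ∈ augs G M m) : (vs p).Nodup := by
  obtain ⟨hG, hnM, h1, h2⟩ := mem_augs.1 hp
  obtain ⟨i, hi, hli⟩ := h5_lvl h1
  obtain ⟨j, hj, hlj⟩ := h5_lvl h2
  obtain ⟨⟨x, y⟩, q, q'⟩ := p
  simp only at hG hnM hi hj hli hlj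
  obtain ⟨t, rfl⟩ := h5_cons hi
  obtain ⟨t', rfl⟩ := h5_cons hj
  have hnb1 : NB G (t.reverse ++ [x, y]) := by
    have h3 := nb_reverse ((h5_nb hM i x _ hi).2 y hG.symm (fun h => hnM h.symm))
    simpa using h3
  have hnb : NB G ((x :: t).reverse ++ y :: t') := by
    cases t' with
    | nil =>
      have : (x :: t).reverse ++ [y] = t.reverse ++ [x, y] := by simp
      rw [this]
      exact hnb1
    | cons y1 t'' =>
      have hx : x ≠ y1 := by
        have h3 := (h5_nb hM j y _ hj).2 x hG hnM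
        exact h3.2.1
      have h4 := nb_join hnb1 (h5_nb hM j y _ hj).1 hx
      have : (x :: t).reverse ++ y :: y1 :: t'' = t.reverse ++ x :: y :: y1 :: t'' := by simp
      rw [this]
      exact h4
  have hnd := nb_nodup hg hnb (by
    rw [List.length_append, List.length_reverse]
    omega)
  have hperm : (vs ((x, y), (x :: t, y :: t'))).Perm ((x :: t).reverse ++ y :: t') :=
    List.Perm.append_right _ (List.reverse_perm _).symm
  exact hperm.nodup_iff.2 hnd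

/-! ### the new matching on one path -/

omit [Fintype V] in
theorem h5_newP_symm {p : PT V} {a b : V} (h : newP p a b) : newP p b a := by
  rcases h with h | h | ⟨h1, h2⟩ | ⟨h1, h2⟩
  · exact Or.inl (h5_newH_symm _ _ _ h)
  · exact Or.inr (Or.inl (h5_newH_symm _ _ _ h))
  · exact Or.inr (Or.inr (Or.inr ⟨h2, h1⟩))
  · exact Or.inr (Or.inr (Or.inl ⟨h2, h1⟩))

theorem h5_newP_mem {m : ℕ} {p : PT V} (hp : p ∈ augs G M m) {a b : V} (h : newP p a b) :
    a ∈ vs p ∧ b ∈ vs p := by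
  obtain ⟨hG, hnM, h1, h2⟩ := mem_augs.1 hp
  obtain ⟨i, hi, -⟩ := h5_lvl h1
  obtain ⟨j, hj, -⟩ := h5_lvl h2
  have hx : p.1.1 ∈ p.2.1 := by
    obtain ⟨t, ht⟩ := h5_cons hi
    rw [ht]
    exact List.mem_cons_self
  have hy : p.1.2 ∈ p.2.2 := by
    obtain ⟨t, ht⟩ := h5_cons hj
    rw [ht]
    exact List.mem_cons_self
  unfold vs
  rw [List.mem_append, List.mem_append]
  rcases h with h | h | ⟨h3, h4⟩ | ⟨h3, h4⟩
  · obtain ⟨h5, h6⟩ := h5_newH_mem _ _ _ h
    exact ⟨Or.inl (List.mem_of_mem_tail h5), Or.inl (List.mem_of_mem_tail h6)⟩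
  · obtain ⟨h5, h6⟩ := h5_newH_mem _ _ _ h
    exact ⟨Or.inr (List.mem_of_mem_tail h5), Or.inr (List.mem_of_mem_tail h6)⟩
  · rw [h3, h4]
    exact ⟨Or.inl hx, Or.inr hy⟩
  · rw [h3, h4]
    exact ⟨Or.inr hy, Or.inl hx⟩

theorem h5_newP_adj (hM : IsMat G M) {m : ℕ} {p : PT V} (hp : p ∈ augs G M m) {a b : V}
    (h : newP p a b) : G.Adj a b := by
  obtain ⟨hG, hnM, h1, h2⟩ := mem_augs.1 hp
  obtain ⟨i, hi, -⟩ := h5_lvl h1
  obtain ⟨j, hj, -⟩ := h5_lvl h2
  rcases h with h | h | ⟨h3, h4⟩ | ⟨h3, h4⟩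
  · exact h5_newH_adj _ _ _ (h5_nb hM i _ _ hi).1 h
  · exact h5_newH_adj _ _ _ (h5_nb hM j _ _ hj).1 h
  · rw [h3, h4]
    exact hG
  · rw [h3, h4]
    exact hG.symm

theorem h5_newP_uniq {m : ℕ} {p : PT V} (hp : p ∈ augs G M m) (hn : (vs p).Nodup) {a b c : V}
    (h : newP p a b) (h' : newP p a c) : b = c := by
  obtain ⟨hG, hnM, h1, h2⟩ := mem_augs.1 hp
  obtain ⟨i, hi, -⟩ := h5_lvl h1
  obtain ⟨j, hj, -⟩ := h5_lvl h2
  obtain ⟨⟨x, y⟩, q, q'⟩ := p
  simp only at hG hnM hi hj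
  obtain ⟨t, rfl⟩ := h5_cons hi
  obtain ⟨t', rfl⟩ := h5_cons hj
  unfold vs at hn
  simp only at hn
  rw [List.nodup_append] at hn
  obtain ⟨hq, hq', hdis⟩ := hn
  have hxt : x ∉ t := (List.nodup_cons.1 hq).1
  have hyt : y ∉ t' := (List.nodup_cons.1 hq').1
  have hxy : x ≠ y := hG.ne
  have hd : ∀ z, z ∈ x :: t → z ∈ y :: t' → False := fun z h3 h4 => hdis z h3 z h4 rfl
  have m1 : ∀ {b}, newH (x :: t) a b → a ∈ t := fun h3 => (h5_newH_mem _ _ _ h3).1
  have m2 : ∀ {b}, newH (y :: t') a b → a ∈ t' := fun h3 => (h5_newH_mem _ _ _ h3).1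
  unfold newP at h h'
  simp only at h h'
  rcases h with h | h | ⟨h3, h4⟩ | ⟨h3, h4⟩
  · rcases h' with h' | h' | ⟨h5, h6⟩ | ⟨h5, h6⟩
    · exact h5_newH_uniq _ _ _ _ hq h h'
    · exact (hd a (List.mem_cons_of_mem _ (m1 h)) (List.mem_cons_of_mem _ (m2 h'))).elim
    · have h7 := m1 h
      rw [h5] at h7
      exact absurd h7 hxt
    · have h7 := m1 h
      rw [h5] at h7
      exact (hd y (List.mem_cons_of_mem _ h7) List.mem_cons_self).elim
  · rcases h' with h' | h' | ⟨h5, h6⟩ | ⟨h5, h6⟩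
    · exact (hd a (List.mem_cons_of_mem _ (m1 h')) (List.mem_cons_of_mem _ (m2 h))).elim
    · exact h5_newH_uniq _ _ _ _ hq' h h'
    · have h7 := m2 h
      rw [h5] at h7
      exact (hd x List.mem_cons_self (List.mem_cons_of_mem _ h7)).elim
    · have h7 := m2 h
      rw [h5] at h7
      exact absurd h7 hyt
  · rcases h' with h' | h' | ⟨h5, h6⟩ | ⟨h5, h6⟩
    · have h7 := m1 h'
      rw [h3] at h7
      exact absurd h7 hxt
    · have h7 := m2 h'
      rw [h3] at h7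
      exact (hd x List.mem_cons_self (List.mem_cons_of_mem _ h7)).elim
    · rw [h4, h6]
    · exact absurd (h3.symm.trans h5) hxy
  · rcases h' with h' | h' | ⟨h5, h6⟩ | ⟨h5, h6⟩
    · have h7 := m1 h'
      rw [h3] at h7
      exact (hd y (List.mem_cons_of_mem _ h7) List.mem_cons_self).elim
    · have h7 := m2 h'
      rw [h3] at h7
      exact absurd h7 hyt
    · exact absurd (h5.symm.trans h3) hxy
    · rw [h4, h6]

theorem h5_newP_ex {m : ℕ} {p : PT V} (hp : p ∈ augs G M m) {a : V} (ha : a ∈ vs p) :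
    ∃ b, newP p a b := by
  obtain ⟨hG, hnM, h1, h2⟩ := mem_augs.1 hp
  obtain ⟨i, hi, -⟩ := h5_lvl h1
  obtain ⟨j, hj, -⟩ := h5_lvl h2
  unfold vs at ha
  rw [List.mem_append] at ha
  rcases ha with ha | ha
  · by_cases h3 : a = p.1.1
    · exact ⟨p.1.2, Or.inr (Or.inr (Or.inl ⟨h3, rfl⟩))⟩
    · obtain ⟨b, hb⟩ := h5_partner i _ _ hi a ha h3
      exact ⟨b, Or.inl hb⟩
  · by_cases h3 : a = p.1.2
    · exact ⟨p.1.1, Or.inr (Or.inr (Or.inr ⟨h3, rfl⟩))⟩
    · obtain ⟨b, hb⟩ := h5_partner j _ _ hj a ha h3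
      exact ⟨b, Or.inr (Or.inl hb)⟩

theorem h5_vs_closed (hM : IsMat G M) {m : ℕ} {p : PT V} (hp : p ∈ augs G M m) {a b : V}
    (ha : a ∈ vs p) (hab : M.Adj a b) : b ∈ vs p := by
  obtain ⟨hG, hnM, h1, h2⟩ := mem_augs.1 hp
  obtain ⟨i, hi, -⟩ := h5_lvl h1
  obtain ⟨j, hj, -⟩ := h5_lvl h2
  unfold vs at ha ⊢
  rw [List.mem_append] at ha ⊢
  rcases ha with ha | ha
  · exact Or.inl (h5_closed i _ _ hM hi a ha b hab)
  · exact Or.inr (h5_closed j _ _ hM hj a ha b hab)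

/-! ### one round -/

theorem h5_step_adj (hM : IsMat G M) {m : ℕ} {lam : PT V → ℕ} {a b : V} :
    (step G M m lam).Adj a b ↔
      (M.Adj a b ∧ ∀ p, Sel G M m lam p → a ∉ vs p ∧ b ∉ vs p) ∨
        ∃ p, Sel G M m lam p ∧ newP p a b := by
  unfold step
  rw [SimpleGraph.fromRel_adj]
  constructor
  · rintro ⟨-, h | h⟩
    · exact h
    · rcases h with ⟨h1, h2⟩ | ⟨p, hp, h1⟩
      · exact Or.inl ⟨h1.symm, fun p hp => ⟨(h2 p hp).2, (h2 p hp).1⟩⟩
      · exact Or.inr ⟨p, hp, h5_newP_symm h1⟩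
  · intro h
    refine ⟨?_, Or.inl h⟩
    rcases h with ⟨h1, -⟩ | ⟨p, hp, h1⟩
    · exact h1.ne
    · exact (h5_newP_adj hM hp.1.1 h1).ne

theorem h5_disj {m : ℕ} {lam : PT V → ℕ} {p p' : PT V} (hp : Sel G M m lam p)
    (hp' : Sel G M m lam p') {a : V} (ha : a ∈ vs p) (ha' : a ∈ vs p') : p = p' := by
  by_contra hne
  exact hp.2 p' hp'.1 (fun h => hne h.symm) a ha ha'

theorem step_isMat (hM : IsMat G M) {g : ℕ} (hg : (g : ℕ∞) ≤ G.egirth) {m : ℕ}
    (hm : 4 * m + 2 ≤ g) (lam : PT V → ℕ) : IsMat G (step G M m lam) := by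
  constructor
  · intro x y h
    rw [h5_step_adj hM] at h
    rcases h with ⟨h1, -⟩ | ⟨p, hp, h1⟩
    · exact hM.le _ _ h1
    · exact h5_newP_adj hM hp.1.1 h1
  · intro x y z h h'
    rw [h5_step_adj hM] at h h'
    rcases h with ⟨h1, h2⟩ | ⟨p, hp, h1⟩
    · rcases h' with ⟨h3, -⟩ | ⟨p, hp, h3⟩
      · exact hM.uniq _ _ _ h1 h3
      · exact absurd (h5_newP_mem hp.1.1 h3).1 (h2 p hp).1
    · rcases h' with ⟨h3, h4⟩ | ⟨p', hp', h3⟩
      · exact absurd (h5_newP_mem hp.1.1 h1).1 (h4 p hp).1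
      · have h5 := h5_disj hp hp' (h5_newP_mem hp.1.1 h1).1 (h5_newP_mem hp'.1.1 h3).1
        subst h5
        exact h5_newP_uniq hp.1.1 (augs_nodup hM hg hm hp.1.1) h1 h3

theorem h5_matched (hM : IsMat G M) {m : ℕ} {lam : PT V → ℕ} {p : PT V}
    (hp : Sel G M m lam p) {a : V} (ha : a ∈ vs p) : ¬ Unm (step G M m lam) a := by
  intro h
  obtain ⟨b, hb⟩ := h5_newP_ex hp.1.1 ha
  exact h b ((h5_step_adj hM).2 (Or.inr ⟨p, hp, hb⟩))

set_option linter.unusedVariables false in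
theorem step_unm (hM : IsMat G M) {g : ℕ} (hg : (g : ℕ∞) ≤ G.egirth) {m : ℕ}
    (hm : 4 * m + 2 ≤ g) (lam : PT V → ℕ) {x : V} (hx : Unm (step G M m lam) x) : Unm M x := by
  intro b hb
  by_cases h : ∃ p, Sel G M m lam p ∧ x ∈ vs p
  · obtain ⟨p, hp, hxp⟩ := h
    exact h5_matched hM hp hxp hx
  · push Not at h
    apply hx b
    rw [h5_step_adj hM]
    refine Or.inl ⟨hb, fun p hp => ⟨h p hp, fun hbp => ?_⟩⟩
    exact h p hp (h5_vs_closed hM hp.1.1 hbp hb.symm)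

theorem step_card (hM : IsMat G M) {g : ℕ} (hg : (g : ℕ∞) ≤ G.egirth) {m : ℕ}
    (hm : 4 * m + 2 ≤ g) (lam : PT V → ℕ) :
    (unm (step G M m lam)).card + ((augs G M m).filter (Sel G M m lam)).card ≤
      (unm M).card := by
  have hex : ∀ p : PT V, p ∈ (augs G M m).filter (Sel G M m lam) → ∃ u ∈ vs p, Unm M u := by
    intro p hp
    rw [mem_filter] at hp
    obtain ⟨-, -, h1, -⟩ := mem_augs.1 hp.1
    obtain ⟨i, hi, -⟩ := h5_lvl h1
    obtain ⟨u, hu, hu'⟩ := h5_unm i _ _ hi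
    exact ⟨u, List.mem_append_left _ hu, hu'⟩
  choose f0 hf0 hf0' using hex
  let f : PT V → V := fun p =>
    if h : p ∈ (augs G M m).filter (Sel G M m lam) then f0 p h else p.1.1
  have hff : ∀ p (h : p ∈ (augs G M m).filter (Sel G M m lam)), f p = f0 p h :=
    fun p h => dif_pos h
  have hf : ∀ p, p ∈ (augs G M m).filter (Sel G M m lam) → f p ∈ vs p := by
    intro p h
    rw [hff p h]
    exact hf0 p h
  have hf' : ∀ p, p ∈ (augs G M m).filter (Sel G M m lam) → Unm M (f p) := by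
    intro p h
    rw [hff p h]
    exact hf0' p h
  have hinj : Set.InjOn f (((augs G M m).filter (Sel G M m lam) : Finset (PT V)) :
      Set (PT V)) := by
    intro p hp p' hp' heq
    rw [mem_coe] at hp hp'
    have h1 := hf p hp
    have h2 := hf p' hp'
    rw [← heq] at h2
    exact h5_disj (mem_filter.1 hp).2 (mem_filter.1 hp').2 h1 h2
  rw [← card_image_of_injOn hinj, ← card_union_of_disjoint]
  · apply card_le_card
    intro x hx
    rw [mem_union] at hx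
    rcases hx with hx | hx
    · rw [unm, mem_filter] at hx ⊢
      exact ⟨mem_univ _, step_unm hM hg hm lam hx.2⟩
    · rw [mem_image] at hx
      obtain ⟨p, hp, rfl⟩ := hx
      rw [unm, mem_filter]
      exact ⟨mem_univ _, hf' p hp⟩
  · rw [disjoint_left]
    intro x hx hx'
    rw [unm, mem_filter] at hx
    rw [mem_image] at hx'
    obtain ⟨p, hp, rfl⟩ := hx'
    exact h5_matched hM (mem_filter.1 hp).2 (hf p hp) hx.2

end NM70
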