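import Pool.Agent.NM70.NBList

set_option autoImplicit false

/-! HAND 7: swapping two branches. -/

namespace NM70

open Finset Classical

variable {V : Type*} [Fintype V] {G : SimpleGraph V}

/-- The parent in a branch. -/
def h7_par (c : V) (p : List Bool → V) : List Bool → V
  | [] => c
  | _ :: w => p w

/-- `p` parametrises the binary tree behind the directed edge from `c` to `a`. -/
structure h7_Tree (G : SimpleGraph V) (c a : V) (p : List Bool → V) : Prop where
  root : p [] = a
  adj : ∀ w y, G.Adj (p w) y ↔ y = h7_par c p w ∨ y = p (true :: w) ∨ y = p (false :: w)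
  kids : ∀ w, p (true :: w) ≠ p (false :: w)
  back : ∀ b w, p (b :: w) ≠ h7_par c p w

omit [Fintype V] in
theorem h7_kid (hc : Cubic G) (q : {q : V × V // G.Adj q.1 q.2}) :
    ∃ k : Bool → V, k true ≠ k false ∧ (∀ b, k b ≠ q.1.1) ∧
      ∀ y, G.Adj q.1.2 y ↔ y = q.1.1 ∨ y = k true ∨ y = k false := by
  obtain ⟨a, b, c, hab, hac, hbc, hy⟩ := hc q.1.2
  have hq : G.Adj q.1.2 q.1.1 := q.2.symm
  rcases (hy _).1 hq with e | e | e
  · refine ⟨fun t => if t then b else c, ?_, ?_, ?_⟩
    · simpa using hbc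
    · intro t
      rw [e]
      cases t
      · simpa using hac.symm
      · simpa using hab.symm
    · intro y
      rw [hy y, e]
      simp
  · refine ⟨fun t => if t then a else c, ?_, ?_, ?_⟩
    · simpa using hac
    · intro t
      rw [e]
      cases t
      · simpa using hbc.symm
      · simpa using hab
    · intro y
      rw [hy y, e]
      simp only [if_true, Bool.false_eq_true, if_false]
      tauto
  · refine ⟨fun t => if t then a else b, ?_, ?_, ?_⟩
    · simpa using hab
    · intro t
      rw [e]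
      cases t
      · simpa using hbc
      · simpa using hac
    · intro y
      rw [hy y, e]
      simp only [if_true, Bool.false_eq_true, if_false]
      tauto

/-- The recursion. -/
def h7_st (kid : {q : V × V // G.Adj q.1 q.2} → Bool → V)
    (hk : ∀ q b, G.Adj q.1.2 (kid q b)) (q : {q : V × V // G.Adj q.1 q.2}) :
    List Bool → {q : V × V // G.Adj q.1 q.2}
  | [] => q
  | b :: w => ⟨((h7_st kid hk q w).1.2, kid (h7_st kid hk q w) b), hk _ _⟩

omit [Fintype V] in
theorem h7_tree_exists (hc : Cubic G) {c a : V} (h : G.Adj c a) :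
    ∃ p : List Bool → V, h7_Tree G c a p := by
  choose kid h1 h2 h3 using h7_kid (G := G) hc
  have hk : ∀ q b, G.Adj q.1.2 (kid q b) := by
    intro q b
    rw [h3]
    cases b
    · exact Or.inr (Or.inr rfl)
    · exact Or.inr (Or.inl rfl)
  have hpar : ∀ w, h7_par c (fun w => (h7_st kid hk ⟨(c, a), h⟩ w).1.2) w =
      (h7_st kid hk ⟨(c, a), h⟩ w).1.1 := by
    intro w
    cases w with
    | nil => rfl
    | cons b w => rfl
  refine ⟨fun w => (h7_st kid hk ⟨(c, a), h⟩ w).1.2, ⟨rfl, ?_, ?_, ?_⟩⟩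
  · intro w y
    rw [hpar]
    exact h3 _ y
  · intro w
    exact h1 _
  · intro b w
    rw [hpar]
    exact h2 _ b

/-- The list of the ancestors. -/
def h7_anc (p : List Bool → V) : List Bool → List V
  | [] => [p []]
  | b :: w => p (b :: w) :: h7_anc p w

omit [Fintype V] in
theorem h7_anc_length (p : List Bool → V) (w : List Bool) :
    (h7_anc p w).length = w.length + 1 := by
  induction w with
  | nil => rfl
  | cons b w ih =>
    have e : h7_anc p (b :: w) = p (b :: w) :: h7_anc p w := rfl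
    rw [e, List.length_cons, ih, List.length_cons]

omit [Fintype V] in
theorem h7_anc_head (p : List Bool → V) (w : List Bool) :
    (h7_anc p w).head? = some (p w) := by
  cases w with
  | nil => rfl
  | cons b w => rfl

omit [Fintype V] in
theorem h7_anc_last (p : List Bool → V) (w : List Bool) :
    (h7_anc p w).getLast? = some (p []) := by
  induction w with
  | nil => rfl
  | cons b w ih =>
    have e : h7_anc p (b :: w) = [p (b :: w)] ++ h7_anc p w := rfl
    rw [e, List.getLast?_append, ih]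
    rfl

omit [Fintype V] in
theorem h7_anc_form (c : V) (p : List Bool → V) (w : List Bool) :
    ∃ l, h7_anc p w ++ [c] = p w :: l ∧ l.head? = some (h7_par c p w) := by
  cases w with
  | nil => exact ⟨[c], rfl, rfl⟩
  | cons b w =>
    refine ⟨h7_anc p w ++ [c], rfl, ?_⟩
    rw [List.head?_append, h7_anc_head]
    rfl

omit [Fintype V] in
theorem h7_anc_nb {c a : V} {p : List Bool → V} (T : h7_Tree G c a p) (w : List Bool) :
    NB G (h7_anc p w ++ [c]) := by
  induction w with
  | nil =>
    have h1 : G.Adj (p []) c := (T.adj [] c).2 (Or.inl rfl)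
    exact h1_nb_pair h1
  | cons b w ih =>
    obtain ⟨l, e, hl⟩ := h7_anc_form c p w
    have e2 : h7_anc p (b :: w) ++ [c] = p (b :: w) :: p w :: l := by
      rw [← e]
      rfl
    rw [e2]
    rw [e] at ih
    refine h1_nb_cons.2 ⟨(T.adj (b :: w) (p w)).2 (Or.inl rfl), ?_, ih⟩
    intro z hz
    rw [hl] at hz
    have hz' : h7_par c p w = z := by simpa using hz
    rw [← hz']
    exact T.back b w

omit [Fintype V] in
theorem h7_desc {c a : V} {p : List Bool → V} (T : h7_Tree G c a p) (w : List Bool) :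
    Desc G c a w.length (p w) :=
  ⟨h7_anc p w, h7_anc_nb T w, h7_anc_head p w, by rw [h7_anc_last, T.root], h7_anc_length p w⟩

omit [Fintype V] in
theorem h7_anc_inj {c a : V} {p : List Bool → V} (T : h7_Tree G c a p) :
    ∀ w w' : List Bool, h7_anc p w = h7_anc p w' → w = w' := by
  intro w
  induction w with
  | nil =>
    intro w' h
    cases w' with
    | nil => rfl
    | cons b t =>
      have h2 := congrArg List.length h
      rw [h7_anc_length, h7_anc_length] at h2
      simp at h2
  | cons b t ih =>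
    intro w' h
    cases w' with
    | nil =>
      have h2 := congrArg List.length h
      rw [h7_anc_length, h7_anc_length] at h2
      simp at h2
    | cons b' t' =>
      have h2 : p (b :: t) :: h7_anc p t = p (b' :: t') :: h7_anc p t' := h
      rw [List.cons.injEq] at h2
      have h3 := ih t' h2.2
      subst h3
      have h4 := T.kids t
      have h5 := h2.1
      cases b with
      | false =>
        cases b' with
        | false => rfl
        | true => exact absurd h5.symm h4
      | true =>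
        cases b' with
        | false => exact absurd h5 h4
        | true => rfl

omit [Fintype V] in
/-- Two branches behind directed edges with the same source. -/
theorem h7_same {g : ℕ} (hg : (g : ℕ∞) ≤ G.egirth) {r : ℕ} (hr : 2 * r + 4 ≤ g)
    {c a a' : V} {p p' : List Bool → V} (T : h7_Tree G c a p) (T' : h7_Tree G c a' p')
    {w w' : List Bool} (hw : w.length ≤ r) (hw' : w'.length ≤ r) (h : p w = p' w') :
    h7_anc p w = h7_anc p' w' := by
  have h1 : h7_anc p w ++ [c] = h7_anc p' w' ++ [c] := by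
    refine nb_unique hg (h7_anc_nb T w) (h7_anc_nb T' w') ?_ ?_ ?_
    · rw [List.head?_append, List.head?_append, h7_anc_head, h7_anc_head, h]
    · rw [List.getLast?_append, List.getLast?_append]
      rfl
    · rw [List.length_append, List.length_append, h7_anc_length, h7_anc_length]
      simp only [List.length_cons, List.length_nil]
      omega
  exact List.append_cancel_right h1

omit [Fintype V] in
theorem h7_inj {g : ℕ} (hg : (g : ℕ∞) ≤ G.egirth) {r : ℕ} (hr : 2 * r + 4 ≤ g)
    {c a : V} {p : List Bool → V} (T : h7_Tree G c a p)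
    {w w' : List Bool} (hw : w.length ≤ r) (hw' : w'.length ≤ r) (h : p w = p w') :
    w = w' :=
  h7_anc_inj T w w' (h7_same hg hr T T hw hw' h)

omit [Fintype V] in
theorem h7_notin {g : ℕ} (hg : (g : ℕ∞) ≤ G.egirth) {r : ℕ} (hr : 2 * r + 4 ≤ g)
    {c a : V} {p : List Bool → V} (T : h7_Tree G c a p)
    {w : List Bool} (hw : w.length ≤ r) : p w ≠ c := by
  intro h
  have h1 : (h7_anc p w ++ [c]).Nodup := by
    refine nb_nodup hg (h7_anc_nb T w) ?_
    rw [List.length_append, h7_anc_length]
    simp only [List.length_cons, List.length_nil]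
    omega
  have h2 : c ∈ h7_anc p w := by
    have h3 := h7_anc_head p w
    rw [h] at h3
    exact List.mem_of_head? h3
  have h4 := List.disjoint_of_nodup_append h1
  exact h4 h2 (List.mem_singleton.2 rfl)

omit [Fintype V] in
/-- The two sides of an edge. -/
theorem h7_flip_disj {g : ℕ} (hg : (g : ℕ∞) ≤ G.egirth) {r : ℕ} (hr : 2 * r + 4 ≤ g)
    {x x' : V} {p p' : List Bool → V} (T : h7_Tree G x' x p) (T' : h7_Tree G x x' p')
    {w w' : List Bool} (hw : w.length ≤ r) (hw' : w'.length ≤ r) : p w ≠ p' w' := by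
  intro h
  have h1 : h7_anc p w ++ [x'] = h7_anc p' w' := by
    refine nb_unique hg (h7_anc_nb T w) (nb_append_left (h7_anc_nb T' w')) ?_ ?_ ?_
    · rw [List.head?_append, h7_anc_head, h7_anc_head, h]
      rfl
    · rw [List.getLast?_append, h7_anc_last p' w', T'.root]
      rfl
    · rw [List.length_append, h7_anc_length, h7_anc_length]
      simp only [List.length_cons, List.length_nil]
      omega
  have h2 : (h7_anc p' w' ++ [x]).Nodup := by
    refine nb_nodup hg (h7_anc_nb T' w') ?_
    rw [List.length_append, h7_anc_length]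
    simp only [List.length_cons, List.length_nil]
    omega
  have h3 : x ∈ h7_anc p' w' := by
    rw [← h1]
    refine List.mem_append_left _ ?_
    have h4 := h7_anc_last p w
    rw [T.root] at h4
    exact List.mem_of_getLast? h4
  exact List.disjoint_of_nodup_append h2 h3 (List.mem_singleton.2 rfl)

/-- The neighbours of a vertex. -/
theorem h7_card (hc : Cubic G) (x : V) : (univ.filter fun z => G.Adj x z).card = 3 := by
  obtain ⟨a, b, c, hab, hac, hbc, hy⟩ := hc x
  rw [card_eq_three]
  refine ⟨a, b, c, hab, hac, hbc, ?_⟩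
  ext z
  rw [mem_filter, mem_insert, mem_insert, mem_singleton, hy z]
  exact ⟨fun h => h.2, fun h => ⟨mem_univ _, h⟩⟩

/-- A permutation that maps neighbours of `z` to neighbours of its image is a local
isomorphism at `z`. -/
theorem h7_local (hc : Cubic G) (σ : Equiv.Perm V) (z : V)
    (h : ∀ w, G.Adj z w → G.Adj (σ z) (σ w)) :
    ∀ w, G.Adj z w ↔ G.Adj (σ z) (σ w) := by
  have h1 : (univ.filter fun u => G.Adj z u).image σ = univ.filter fun u => G.Adj (σ z) u := by
    refine eq_of_subset_of_card_le ?_ ?_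
    · intro u hu
      rw [mem_image] at hu
      obtain ⟨v, hv, rfl⟩ := hu
      rw [mem_filter] at hv
      exact mem_filter.2 ⟨mem_univ _, h v hv.2⟩
    · rw [card_image_of_injective _ σ.injective, h7_card hc, h7_card hc]
  intro w
  refine ⟨h w, fun hw => ?_⟩
  have h2 : σ w ∈ (univ.filter fun u => G.Adj z u).image σ := by
    rw [h1]
    exact mem_filter.2 ⟨mem_univ _, hw⟩
  rw [mem_image] at h2
  obtain ⟨v, hv, e⟩ := h2
  rw [← σ.injective e]
  exact (mem_filter.1 hv).2

omit [Fintype V] in
theorem h7_dir {c a c' a' : V} {p p' : List Bool → V} (T : h7_Tree G c a p)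
    (T' : h7_Tree G c' a' p') {r : ℕ} (f : V → V) (s1 : ∀ w, w.length ≤ r → f (p w) = p' w)
    (sc : f c = c') {w : List Bool} (hw : w.length < r) {u : V} (hu : G.Adj (p w) u) :
    G.Adj (f (p w)) (f u) := by
  rw [s1 w hw.le]
  rcases (T.adj w u).1 hu with e | e | e
  · rw [T'.adj]
    left
    rw [e]
    cases w with
    | nil => exact sc
    | cons b t =>
      have h1 : h7_par c p (b :: t) = p t := rfl
      have h2 : h7_par c' p' (b :: t) = p' t := rfl
      rw [h1, h2]
      refine s1 t ?_
      rw [List.length_cons] at hw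
      omega
  · rw [T'.adj]
    right
    left
    rw [e]
    refine s1 _ ?_
    rw [List.length_cons]
    omega
  · rw [T'.adj]
    right
    right
    rw [e]
    refine s1 _ ?_
    rw [List.length_cons]
    omega

omit [Fintype V] in
theorem h7_out {c a c' a' : V} {p p' : List Bool → V} (T : h7_Tree G c a p)
    (T' : h7_Tree G c' a' p') {r : ℕ} (f : V → V) (s1 : ∀ w, w.length ≤ r → f (p w) = p' w)
    {z : V} (hz : ∀ w, w.length ≤ r + 1 → z ≠ p w) (hcc : z = c → z = c')
    {w : List Bool} (hw : w.length ≤ r) (hu : G.Adj z (p w)) : G.Adj z (f (p w)) := by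
  rw [s1 w hw]
  rcases (T.adj w z).1 hu.symm with e | e | e
  · cases w with
    | nil =>
      have h1 : z = c' := hcc e
      exact ((T'.adj [] z).2 (Or.inl h1)).symm
    | cons b t =>
      refine absurd e (hz t ?_)
      rw [List.length_cons] at hw
      omega
  · refine absurd e (hz _ ?_)
    rw [List.length_cons]
    omega
  · refine absurd e (hz _ ?_)
    rw [List.length_cons]
    omega

/-- The exchange of two branches. -/
theorem h7_main (hc : Cubic G) {c a c' a' : V} {p p' : List Bool → V} (T : h7_Tree G c a p)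
    (T' : h7_Tree G c' a' p') (r : ℕ)
    (inj : ∀ w w', w.length ≤ r → w'.length ≤ r → p w = p w' → w = w')
    (inj' : ∀ w w', w.length ≤ r → w'.length ≤ r → p' w = p' w' → w = w')
    (disj : ∀ w w', w.length ≤ r → w'.length ≤ r → p w ≠ p' w')
    (hcc : (c = c' ∧ ∀ w, w.length ≤ r → p w ≠ c ∧ p' w ≠ c) ∨ (c = a' ∧ c' = a)) :
    ∃ σ : Equiv.Perm V, (∀ w, w.length ≤ r → σ (p w) = p' w) ∧
      (∀ z, (∀ w, w.length ≤ r → z ≠ p w ∧ z ≠ p' w) → σ z = z) ∧
      ∀ z, ¬ (∀ w, G.Adj z w ↔ G.Adj (σ z) (σ w)) →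
        ∃ k, r ≤ k ∧ k ≤ r + 1 ∧ (Desc G c a k z ∨ Desc G c' a' k z) := by
  obtain ⟨f, f1, f2, f3⟩ : ∃ f : V → V, (∀ w, w.length ≤ r → f (p w) = p' w) ∧
      (∀ w, w.length ≤ r → f (p' w) = p w) ∧
      (∀ z, (∀ w, w.length ≤ r → z ≠ p w ∧ z ≠ p' w) → f z = z) := by
    refine ⟨fun z => if h : ∃ w : List Bool, w.length ≤ r ∧ z = p w then p' h.choose else
      if h : ∃ w : List Bool, w.length ≤ r ∧ z = p' w then p h.choose else z, ?_, ?_, ?_⟩
    · intro w hw
      have h : ∃ w' : List Bool, w'.length ≤ r ∧ p w = p w' := ⟨w, hw, rfl⟩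
      show (if h : ∃ w' : List Bool, w'.length ≤ r ∧ p w = p w' then p' h.choose else
        if h : ∃ w' : List Bool, w'.length ≤ r ∧ p w = p' w' then p h.choose else p w) = p' w
      rw [dif_pos h, ← inj w _ hw h.choose_spec.1 h.choose_spec.2]
    · intro w hw
      have h : ∃ w' : List Bool, w'.length ≤ r ∧ p' w = p' w' := ⟨w, hw, rfl⟩
      have hn : ¬ ∃ w' : List Bool, w'.length ≤ r ∧ p' w = p w' := by
        rintro ⟨w', h1, h2⟩
        exact disj w' w h1 hw h2.symm
      show (if h : ∃ w' : List Bool, w'.length ≤ r ∧ p' w = p w' then p' h.choose else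
        if h : ∃ w' : List Bool, w'.length ≤ r ∧ p' w = p' w' then p h.choose else p' w) = p w
      rw [dif_neg hn, dif_pos h, ← inj' w _ hw h.choose_spec.1 h.choose_spec.2]
    · intro z hz
      have hn : ¬ ∃ w' : List Bool, w'.length ≤ r ∧ z = p w' := by
        rintro ⟨w', h1, h2⟩
        exact (hz w' h1).1 h2
      have hn' : ¬ ∃ w' : List Bool, w'.length ≤ r ∧ z = p' w' := by
        rintro ⟨w', h1, h2⟩
        exact (hz w' h1).2 h2
      show (if h : ∃ w' : List Bool, w'.length ≤ r ∧ z = p w' then p' h.choose else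
        if h : ∃ w' : List Bool, w'.length ≤ r ∧ z = p' w' then p h.choose else z) = z
      rw [dif_neg hn, dif_neg hn']
  have cases3 : ∀ z, (∃ w : List Bool, w.length ≤ r ∧ z = p w) ∨
      (∃ w : List Bool, w.length ≤ r ∧ z = p' w) ∨
      (∀ w : List Bool, w.length ≤ r → z ≠ p w ∧ z ≠ p' w) := by
    intro z
    by_cases h1 : ∃ w : List Bool, w.length ≤ r ∧ z = p w
    · exact Or.inl h1
    · by_cases h2 : ∃ w : List Bool, w.length ≤ r ∧ z = p' w
      · exact Or.inr (Or.inl h2)
      · exact Or.inr (Or.inr fun w hw => ⟨fun h => h1 ⟨w, hw, h⟩, fun h => h2 ⟨w, hw, h⟩⟩)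
  have finv : Function.Involutive f := by
    intro z
    rcases cases3 z with ⟨w, hw, e⟩ | ⟨w, hw, e⟩ | h
    · rw [e, f1 w hw, f2 w hw]
    · rw [e, f2 w hw, f1 w hw]
    · rw [f3 z h, f3 z h]
  have h0 : ([] : List Bool).length ≤ r := Nat.zero_le _
  have sc : f c = c' := by
    rcases hcc with ⟨e, h⟩ | ⟨e, e'⟩
    · rw [← e]
      exact f3 c fun w hw => ⟨(h w hw).1.symm, (h w hw).2.symm⟩
    · rw [e, e', ← T'.root, f2 [] h0, T.root]
  have sc' : f c' = c := by
    rw [← sc, finv c]
  refine ⟨finv.toPerm, f1, f3, ?_⟩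
  intro z hz
  by_contra hno
  refine hz (h7_local hc finv.toPerm z ?_)
  have hno1 : ∀ w : List Bool, r ≤ w.length → w.length ≤ r + 1 → z ≠ p w := by
    intro w h1 h2 h3
    refine hno ⟨w.length, h1, h2, Or.inl ?_⟩
    rw [h3]
    exact h7_desc T w
  have hno2 : ∀ w : List Bool, r ≤ w.length → w.length ≤ r + 1 → z ≠ p' w := by
    intro w h1 h2 h3
    refine hno ⟨w.length, h1, h2, Or.inr ?_⟩
    rw [h3]
    exact h7_desc T' w
  intro u hu
  show G.Adj (f z) (f u)
  rcases cases3 z with ⟨w, hw, e⟩ | ⟨w, hw, e⟩ | h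
  · have h1 : w.length < r := by
      by_contra hcon
      exact hno1 w (by omega) (by omega) e
    rw [e] at hu ⊢
    exact h7_dir T T' f f1 sc h1 hu
  · have h1 : w.length < r := by
      by_contra hcon
      exact hno2 w (by omega) (by omega) e
    rw [e] at hu ⊢
    exact h7_dir T' T f f2 sc' h1 hu
  · have hz1 : ∀ w : List Bool, w.length ≤ r + 1 → z ≠ p w := by
      intro w hw
      by_cases h1 : w.length ≤ r
      · exact (h w h1).1
      · exact hno1 w (by omega) hw
    have hz2 : ∀ w : List Bool, w.length ≤ r + 1 → z ≠ p' w := by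
      intro w hw
      by_cases h1 : w.length ≤ r
      · exact (h w h1).2
      · exact hno2 w (by omega) hw
    have hc1 : z = c → z = c' := by
      intro hzc
      rcases hcc with ⟨e, _⟩ | ⟨e, e'⟩
      · rw [hzc, e]
      · exfalso
        refine hz2 [] (Nat.zero_le _) ?_
        rw [T'.root, hzc, e]
    have hc2 : z = c' → z = c := by
      intro hzc
      rcases hcc with ⟨e, _⟩ | ⟨e, e'⟩
      · rw [hzc, e]
      · exfalso
        refine hz1 [] (Nat.zero_le _) ?_
        rw [T.root, hzc, e']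
    rw [f3 z h]
    rcases cases3 u with ⟨w, hw, e⟩ | ⟨w, hw, e⟩ | h'
    · rw [e] at hu ⊢
      exact h7_out T T' f f1 hz1 hc1 hw hu
    · rw [e] at hu ⊢
      exact h7_out T' T f f2 hz2 hc2 hw hu
    · rw [f3 u h']
      exact hu

/-- Swap the two branches behind an edge. -/
theorem exists_flip (hc : Cubic G) {g : ℕ} (hg : (g : ℕ∞) ≤ G.egirth) (r : ℕ)
    (hr : 2 * r + 4 ≤ g) {x x' : V} (h : G.Adj x x') :
    ∃ σ : Equiv.Perm V, σ x = x' ∧
      ∀ z, ¬ (∀ w, G.Adj z w ↔ G.Adj (σ z) (σ w)) →
        ∃ k, r ≤ k ∧ k ≤ r + 1 ∧ (Desc G x' x k z ∨ Desc G x x' k z) := by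
  obtain ⟨p, T⟩ := h7_tree_exists hc h.symm
  obtain ⟨p', T'⟩ := h7_tree_exists hc h
  obtain ⟨σ, s1, _, s3⟩ := h7_main hc T T' r (fun w w' hw hw' e => h7_inj hg hr T hw hw' e)
    (fun w w' hw hw' e => h7_inj hg hr T' hw hw' e)
    (fun w w' hw hw' => h7_flip_disj hg hr T T' hw hw') (Or.inr ⟨rfl, rfl⟩)
  refine ⟨σ, ?_, s3⟩
  have h1 := s1 [] (Nat.zero_le _)
  rw [T.root, T'.root] at h1
  exact h1

/-- Swap the branches behind two neighbours `y`, `y'` of `v`. -/
theorem exists_swap (hc : Cubic G) {g : ℕ} (hg : (g : ℕ∞) ≤ G.egirth) (r : ℕ)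
    (hr : 2 * r + 4 ≤ g) {v y y' : V} (h : G.Adj v y) (h' : G.Adj v y') (hne : y ≠ y') :
    ∃ σ : Equiv.Perm V, σ y = y' ∧ σ v = v ∧
      (∀ z, σ z ≠ z → ∃ k, k ≤ r ∧ (Desc G v y k z ∨ Desc G v y' k z)) ∧
      ∀ z, ¬ (∀ w, G.Adj z w ↔ G.Adj (σ z) (σ w)) →
        ∃ k, r ≤ k ∧ k ≤ r + 1 ∧ (Desc G v y k z ∨ Desc G v y' k z) := by
  obtain ⟨p, T⟩ := h7_tree_exists hc h
  obtain ⟨p', T'⟩ := h7_tree_exists hc h'
  have hv : ∀ w : List Bool, w.length ≤ r → p w ≠ v ∧ p' w ≠ v := fun w hw =>
    ⟨h7_notin hg hr T hw, h7_notin hg hr T' hw⟩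
  obtain ⟨σ, s1, s2, s3⟩ := h7_main hc T T' r (fun w w' hw hw' e => h7_inj hg hr T hw hw' e)
    (fun w w' hw hw' e => h7_inj hg hr T' hw hw' e)
    (fun w w' hw hw' e => by
      have h1 := congrArg List.getLast? (h7_same hg hr T T' hw hw' e)
      rw [h7_anc_last, h7_anc_last, T.root, T'.root, Option.some.injEq] at h1
      exact hne h1) (Or.inl ⟨rfl, hv⟩)
  refine ⟨σ, ?_, ?_, ?_, s3⟩
  · have h1 := s1 [] (Nat.zero_le _)
    rw [T.root, T'.root] at h1
    exact h1
  · exact s2 v fun w hw => ⟨(hv w hw).1.symm, (hv w hw).2.symm⟩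
  · intro z hz
    by_contra hno
    refine hz (s2 z fun w hw => ⟨?_, ?_⟩)
    · intro e
      refine hno ⟨w.length, hw, Or.inl ?_⟩
      rw [e]
      exact h7_desc T w
    · intro e
      refine hno ⟨w.length, hw, Or.inr ?_⟩
      rw [e]
      exact h7_desc T' w

end NM70
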