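import Pool.Agent.NM70.Natural
import Pool.Agent.NM70.StepMat
import Pool.Agent.NM70.Swap
import Pool.Agent.NM70.Spectral
import Pool.Agent.NM70.Select

set_option autoImplicit false

/-! HAND 10: the rounds. -/

namespace NM70

open Finset Classical

variable {V : Type*}

/-- Transport of the probability space. -/
noncomputable def wmap {m T N : ℕ} (σ : Equiv.Perm V) (ω : Fin T × PI V m → Fin N) :
    Fin T × PI V m → Fin N := fun c =>
  ω (c.1, ((σ c.2.1.1, σ c.2.1.2),
    (⟨c.2.2.1.1.map σ, by rw [List.length_map]; exact c.2.2.1.2⟩,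
      ⟨c.2.2.2.1.map σ, by rw [List.length_map]; exact c.2.2.2.2⟩)))

theorem wmap_symm {m T N : ℕ} (σ : Equiv.Perm V) (ω : Fin T × PI V m → Fin N) :
    wmap σ (wmap σ.symm ω) = ω := by
  have hl : ∀ l : List V, (l.map σ).map σ.symm = l := by
    intro l
    rw [List.map_map]
    simp
  funext c
  obtain ⟨s, ⟨a, b⟩, ⟨q, hq⟩, ⟨q', hq'⟩⟩ := c
  simp only [wmap, Equiv.symm_apply_apply, hl]

theorem wmap_bijective {m T N : ℕ} (σ : Equiv.Perm V) :
    Function.Bijective (wmap (V := V) (m := m) (T := T) (N := N) σ) := by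
  refine ⟨fun ω ω' h => ?_, fun ω => ⟨wmap σ.symm ω, wmap_symm σ ω⟩⟩
  have h1 := wmap_symm σ.symm ω
  have h2 := wmap_symm σ.symm ω'
  rw [Equiv.symm_symm] at h1 h2
  rw [← h1, ← h2, h]

theorem lab_wmap {m T N : ℕ} (σ : Equiv.Perm V) (ω : Fin T × PI V m → Fin N) (t : ℕ)
    (p : PT V) : lab ω t (pmap σ p) = lab (wmap σ ω) t p := by
  unfold lab
  by_cases h : t < T ∧ p.2.1.length ≤ 2 * m + 1 ∧ p.2.2.length ≤ 2 * m + 1
  · have h' : t < T ∧ (pmap σ p).2.1.length ≤ 2 * m + 1 ∧ (pmap σ p).2.2.length ≤ 2 * m + 1 := by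
      unfold pmap
      simpa using h
    rw [dif_pos h, dif_pos h']
    rfl
  · have h' : ¬ (t < T ∧ (pmap σ p).2.1.length ≤ 2 * m + 1 ∧
        (pmap σ p).2.2.length ≤ 2 * m + 1) := by
      unfold pmap
      simpa using h
    rw [dif_neg h, dif_neg h']

section

variable [Fintype V] {G : SimpleGraph V}

omit [Fintype V] in
theorem isMat_bot : IsMat G (⊥ : SimpleGraph V) :=
  ⟨fun x y h => absurd h (by simp), fun x y z h => absurd h (by simp)⟩

theorem Mt_isMat {g : ℕ} (hg : (g : ℕ∞) ≤ G.egirth) {m : ℕ}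
    (hm : 4 * m + 2 ≤ g) (lam : ℕ → PT V → ℕ) (t : ℕ) : IsMat G (Mt G m lam t) := by
  induction t with
  | zero => exact isMat_bot
  | succ t ih => exact step_isMat ih hg hm _

theorem Mt_resp {g : ℕ} (hg : (g : ℕ∞) ≤ G.egirth) {m : ℕ} (hm : 4 * m + 2 ≤ g)
    (σ : Equiv.Perm V) (S : Set V) (hG : ∀ x ∈ S, ∀ y, G.Adj x y ↔ G.Adj (σ x) (σ y))
    (lam lam' : ℕ → PT V → ℕ) (t : ℕ)
    (hlam : ∀ s < t, ∀ p : PT V, p.1.1 ∈ S → (∀ v ∈ vs p, v ∈ S) →
      lam' s (pmap σ p) = lam s p) :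
    ∀ x ∈ core G S ((10 * m + 3) * t), ∀ y,
      (Mt G m lam t).Adj x y ↔ (Mt G m lam' t).Adj (σ x) (σ y) := by
  induction t with
  | zero =>
    intro x _ y
    simp [Mt]
  | succ t ih =>
    have h1 := ih fun s hs p => hlam s (by omega) p
    rw [Nat.mul_succ]
    exact step_resp (Mt_isMat hg hm lam t).le (Mt_isMat hg hm lam' t).le σ S hG _ h1 m _ _
      (hlam t (by omega))

/-! ### One round -/

/-- The path of an index. -/
def toPT {m : ℕ} (c : PI V m) : PT V := (c.1, (c.2.1.1, c.2.2.1))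

omit [Fintype V] in
theorem toPT_injective {m : ℕ} : Function.Injective (toPT (V := V) (m := m)) := by
  rintro ⟨e, ⟨q, hq⟩, ⟨q', hq'⟩⟩ ⟨e1, ⟨q1, hq1⟩, ⟨q1', hq1'⟩⟩ h
  simp only [toPT, Prod.mk.injEq] at h
  obtain ⟨rfl, rfl, rfl⟩ := h
  rfl

theorem exists_toPT {M : SimpleGraph V} {m : ℕ} {p : PT V} (hp : p ∈ augs G M m) :
    ∃ c : PI V m, toPT c = p := by
  rw [mem_augs] at hp
  obtain ⟨-, -, h1, h2⟩ := hp
  rw [mem_HH] at h1 h2
  obtain ⟨i, hi, h1⟩ := h1
  obtain ⟨j, hj, h2⟩ := h2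
  have h3 := halves_length h1
  have h4 := halves_length h2
  exact ⟨(p.1, (⟨p.2.1, by omega⟩, ⟨p.2.2, by omega⟩)), rfl⟩

/-- Labels of one round. -/
noncomputable def lab1 {m N : ℕ} (η : PI V m → Fin N) (p : PT V) : ℕ :=
  if h : p.2.1.length ≤ 2 * m + 1 ∧ p.2.2.length ≤ 2 * m + 1 then
    (η (p.1, (⟨p.2.1, h.1⟩, ⟨p.2.2, h.2⟩)) : ℕ) else N

omit [Fintype V] in
theorem lab1_toPT {m N : ℕ} (η : PI V m → Fin N) (c : PI V m) :
    lab1 η (toPT c) = η c := by
  unfold lab1
  rw [dif_pos ⟨c.2.1.2, c.2.2.2⟩]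
  rfl

theorem NN_pos (m : ℕ) : 0 < NN m := by
  unfold NN BB
  positivity

theorem sum_sel (hc : Cubic G) {M : SimpleGraph V} (hM : IsMat G M) (m : ℕ) :
    (∑ p ∈ augs G M m, thr G M m p) * (NN m) ^ Fintype.card (PI V m) ≤
      2 * NN m * ∑ η : PI V m → Fin (NN m),
        ((augs G M m).filter (Sel G M m (lab1 η))).card := by
  set th : PI V m → ℕ := fun c => if toPT c ∈ augs G M m then thr G M m (toPT c) else 0 with hth
  set R : PI V m → PI V m → Prop := fun c c' =>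
    toPT c ∈ augs G M m ∧ ∃ v ∈ vs (toPT c), v ∈ vs (toPT c') with hRdef
  have hconf : ∀ c : PI V m, toPT c ∈ augs G M m →
      2 * ∑ c' ∈ univ.filter (fun c' : PI V m => ∃ v ∈ vs (toPT c), v ∈ vs (toPT c')), th c' ≤
        NN m := by
    intro c hcc
    refine le_trans (Nat.mul_le_mul_left _ ?_) (conflict hc hM m hcc)
    rw [hth, ← sum_filter, filter_filter]
    have h2 : ∑ a ∈ univ.filter (fun a : PI V m => (∃ v ∈ vs (toPT c), v ∈ vs (toPT a)) ∧
        toPT a ∈ augs G M m), thr G M m (toPT a) =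
        ∑ p ∈ (univ.filter (fun a : PI V m => (∃ v ∈ vs (toPT c), v ∈ vs (toPT a)) ∧
          toPT a ∈ augs G M m)).map ⟨toPT, toPT_injective⟩, thr G M m p := by
      rw [sum_map]
      rfl
    rw [h2]
    refine sum_le_sum_of_subset ?_
    intro p hp
    rw [mem_map] at hp
    obtain ⟨a, ha, rfl⟩ := hp
    rw [mem_filter] at ha ⊢
    exact ⟨ha.2.2, ha.2.1⟩
  have hthN : ∀ c, th c ≤ NN m := by
    intro c
    by_cases hcc : toPT c ∈ augs G M m
    · have h1 := hconf c hcc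
      have h2 : c ∈ univ.filter (fun c' : PI V m => ∃ v ∈ vs (toPT c), v ∈ vs (toPT c')) := by
        rw [mem_filter]
        refine ⟨mem_univ _, ?_⟩
        rw [mem_augs, mem_HH] at hcc
        obtain ⟨i, -, hi⟩ := hcc.2.2.1
        have h3 := halves_length hi
        obtain ⟨v, hv⟩ : ∃ v, v ∈ (toPT c).2.1 := by
          cases h4 : (toPT c).2.1 with
          | nil => rw [h4] at h3; simp at h3
          | cons a l => exact ⟨a, List.mem_cons_self⟩
        have h5 : v ∈ vs (toPT c) := List.mem_append_left _ hv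
        exact ⟨v, h5, h5⟩
      have h3 := single_le_sum (f := th) (fun i _ => Nat.zero_le _) h2
      omega
    · rw [hth]
      simp only [hcc, if_false]
      exact Nat.zero_le _
  have hR : ∀ c, ∀ Q : Finset (PI V m), (∀ q ∈ Q, R c q ∧ q ≠ c) →
      2 * ∑ c' ∈ Q, th c' ≤ NN m := by
    intro c Q hQ
    by_cases hcc : toPT c ∈ augs G M m
    · refine le_trans (Nat.mul_le_mul_left _ (sum_le_sum_of_subset ?_)) (hconf c hcc)
      intro c' hc'
      rw [mem_filter]
      exact ⟨mem_univ _, (hQ c' hc').1.2⟩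
    · have h1 : Q = ∅ := by
        rw [eq_empty_iff_forall_notMem]
        intro q hq
        exact hcc (hQ q hq).1.1
      rw [h1, sum_empty]
      exact Nat.zero_le _
  have hsum : ∑ c, th c = ∑ p ∈ augs G M m, thr G M m p := by
    rw [hth, ← sum_filter]
    have h2 : ∑ a ∈ univ.filter (fun a : PI V m => toPT a ∈ augs G M m), thr G M m (toPT a) =
        ∑ p ∈ (univ.filter (fun a : PI V m => toPT a ∈ augs G M m)).map
          ⟨toPT, toPT_injective⟩, thr G M m p := by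
      rw [sum_map]
      rfl
    rw [h2]
    refine sum_congr ?_ fun _ _ => rfl
    ext p
    rw [mem_map]
    constructor
    · rintro ⟨a, ha, rfl⟩
      exact (mem_filter.1 ha).2
    · intro hp
      obtain ⟨c, rfl⟩ := exists_toPT hp
      exact ⟨c, mem_filter.2 ⟨mem_univ _, hp⟩, rfl⟩
  rw [← hsum]
  have hS : ∀ (η : PI V m → Fin (NN m)) (c : PI V m), (η c : ℕ) < th c →
      (∀ c', c' ≠ c → R c c' → ¬ ((η c' : ℕ) < th c')) →
      c ∈ univ.filter fun c : PI V m => toPT c ∈ (augs G M m).filter (Sel G M m (lab1 η)) := by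
    intro η c h1 h2
    have hcc : toPT c ∈ augs G M m := by
      by_contra hcc
      simp only [hth, hcc, if_false] at h1
      exact absurd h1 (Nat.not_lt_zero _)
    simp only [hth, hcc, if_true] at h1
    rw [mem_filter, mem_filter]
    refine ⟨mem_univ _, hcc, ⟨hcc, ?_⟩, ?_⟩
    · rw [lab1_toPT]
      exact h1
    · rintro p' ⟨hp', hp2⟩ hne v hv hv'
      obtain ⟨c', rfl⟩ := exists_toPT hp'
      rw [lab1_toPT] at hp2
      refine h2 c' (fun h => hne (by rw [h])) ⟨hcc, v, hv, hv'⟩ ?_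
      simp only [hth, hp', if_true]
      exact hp2
  refine (select_abs (NN_pos m) th hthN R hR _ hS).trans
    (Nat.mul_le_mul_left _ (sum_le_sum fun η _ => ?_))
  have hmap : (univ.filter fun c : PI V m =>
        toPT c ∈ (augs G M m).filter (Sel G M m (lab1 η))).map ⟨toPT, toPT_injective⟩ ⊆
      (augs G M m).filter (Sel G M m (lab1 η)) := by
    intro p hp
    rw [mem_map] at hp
    obtain ⟨c, hcm, rfl⟩ := hp
    exact (mem_filter.1 hcm).2
  have := card_le_card hmap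
  rwa [card_map] at this

end

end NM70
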