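import Pool.Agent.NM70.Natural
import Pool.Agent.NM70.StepMat
import Pool.Agent.NM70.Swap
import Pool.Agent.NM70.Cover
import Pool.Agent.NM70.Rounds
import Pool.Agent.NM70.CycleCount

set_option autoImplicit false

/-! HAND 8: the first moment bound for short cycles. -/

namespace NM70

open Finset Classical

section geom

variable {V : Type*} {G : SimpleGraph V}

theorem h8_join {l l' : List V} {x y : V} (h : NB G (l ++ [x])) (hl : l.getLast? = some y)
    (h' : NB G (y :: x :: l')) : NB G (l ++ x :: l') := by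
  obtain ⟨l0, rfl⟩ : ∃ l0, l = l0 ++ [y] := by
    rw [List.getLast?_eq_some_iff] at hl
    exact hl
  cases l' with
  | nil => exact h
  | cons c s =>
    have hne : y ≠ c := (h1_nb_cons.1 h').2.1 c rfl
    have h1 : NB G (l0 ++ [y, x]) := by
      have e : l0 ++ [y] ++ [x] = l0 ++ [y, x] := by simp
      rw [e] at h
      exact h
    have h2 := nb_join h1 (nb_tail h') hne
    have e : l0 ++ [y] ++ x :: c :: s = l0 ++ y :: x :: c :: s := by simp
    rw [e]
    exact h2

theorem h8_head_append {l l' : List V} {u : V} (h : l.head? = some u) :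
    (l ++ l').head? = some u := by
  cases l with
  | nil => simp at h
  | cons a t => simpa using h

/-- Separation of the descendants behind `x` from the elements of the list `x :: s`. -/
theorem h8_sep {g : ℕ} (hg : (g : ℕ∞) ≤ G.egirth) {D h : ℕ} {x y u z : V} {s l q : List V}
    (hP : NB G (y :: x :: s)) (hfar : ∀ w ∈ (x :: s).drop (h + 1), ¬ Near G D x w)
    (hl : NB G (l ++ [x])) (hly : l.getLast? = some y) (hlu : l.head? = some u)
    (hq : NB G q) (hqu : q.head? = some u) (hqz : q.getLast? = some z)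
    (hz : z ∈ x :: s) (h1 : l.length + (h + 1) + q.length ≤ g + 1)
    (h2 : l.length + q.length ≤ D + 1) : l.length + 1 ≤ q.length := by
  obtain ⟨a, ha, haz⟩ := List.mem_iff_getElem.1 hz
  by_cases hah : a ≤ h
  · have hN : NB G (l ++ x :: s) := h8_join hl hly hP
    have hN2 : NB G (l ++ (x :: s).take (a + 1)) := by
      apply nb_append_left (l' := (x :: s).drop (a + 1))
      rw [List.append_assoc, List.take_append_drop]
      exact hN
    have hlen : ((x :: s).take (a + 1)).length = a + 1 := by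
      rw [List.length_take]
      omega
    have hlast : (l ++ (x :: s).take (a + 1)).getLast? = some z := by
      rw [List.getLast?_append]
      have h3 : ((x :: s).take (a + 1)).getLast? = some z := by
        rw [List.getLast?_take, if_neg (by omega)]
        have h8 : (x :: s)[a + 1 - 1]? = (x :: s)[a]? := rfl
        rw [h8, List.getElem?_eq_getElem ha, haz]
        rfl
      rw [h3]
      rfl
    have h3 := nb_unique hg hN2 hq (by rw [h8_head_append hlu, hqu]) (by rw [hlast, hqz]) (by
      rw [List.length_append, hlen]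
      omega)
    have h4 := congrArg List.length h3
    rw [List.length_append, hlen] at h4
    omega
  · exfalso
    refine hfar z ?_ ?_
    · rw [List.mem_iff_getElem]
      refine ⟨a - (h + 1), ?_, ?_⟩
      · rw [List.length_drop]
        omega
      · rw [List.getElem_drop]
        have e : h + 1 + (a - (h + 1)) = a := by omega
        simp only [e]
        exact haz
    · have n1 : Near G l.length x u := by
        refine near_of_nb (l := (l ++ [x]).reverse) (nb_reverse hl) ?_ ?_ ?_
        · rw [List.head?_reverse]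
          simp
        · rw [List.getLast?_reverse]
          exact h8_head_append hlu
        · rw [List.length_reverse, List.length_append]
          simp
      have n2 : Near G (q.length - 1) u z := near_of_nb hq hqu hqz (by omega)
      refine Near.mono ?_ (n1.trans n2)
      have : 0 < q.length := by
        cases q with
        | nil => simp at hqu
        | cons a t => simp
      omega

theorem h8_desc_lists {c a z : V} {k : ℕ} (h : Desc G c a k z) :
    ∃ l : List V, NB G (l ++ [c]) ∧ l.head? = some z ∧ l.getLast? = some a ∧ l.length = k + 1 := h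

/-- The third neighbour. -/
theorem h8_third (hc : Cubic G) {x y c : V} (h1 : G.Adj x y) (h2 : G.Adj x c) (hne : y ≠ c) :
    ∃ y', G.Adj x y' ∧ y' ≠ y ∧ y' ≠ c ∧ ∀ w, G.Adj x w → w = y ∨ w = y' ∨ w = c := by
  obtain ⟨p, q, r, hpq, hpr, hqr, h⟩ := hc x
  have hp : G.Adj x p := (h p).2 (Or.inl rfl)
  have hq : G.Adj x q := (h q).2 (Or.inr (Or.inl rfl))
  have hr : G.Adj x r := (h r).2 (Or.inr (Or.inr rfl))
  rcases (h y).1 h1 with rfl | rfl | rfl <;> rcases (h c).1 h2 with rfl | rfl | rfl
  · exact absurd rfl hne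
  · exact ⟨r, hr, hpr.symm, hqr.symm, fun w hw => by
      rcases (h w).1 hw with rfl | rfl | rfl <;> simp⟩
  · exact ⟨q, hq, hpq.symm, hqr, fun w hw => by
      rcases (h w).1 hw with rfl | rfl | rfl <;> simp⟩
  · exact ⟨r, hr, hqr.symm, hpr.symm, fun w hw => by
      rcases (h w).1 hw with rfl | rfl | rfl <;> simp⟩
  · exact absurd rfl hne
  · exact ⟨p, hp, hpq, hpr, fun w hw => by
      rcases (h w).1 hw with rfl | rfl | rfl <;> simp⟩
  · exact ⟨q, hq, hqr, hpq.symm, fun w hw => by
      rcases (h w).1 hw with rfl | rfl | rfl <;> simp⟩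
  · exact ⟨p, hp, hpr, hpq, fun w hw => by
      rcases (h w).1 hw with rfl | rfl | rfl <;> simp⟩
  · exact absurd rfl hne

theorem h8_unm {M M' : SimpleGraph V} {σ : Equiv.Perm V} {z : V}
    (h : ∀ w, M'.Adj z w ↔ M.Adj (σ z) (σ w)) : Unm M' z ↔ Unm M (σ z) := by
  constructor
  · intro H w hw
    refine H (σ.symm w) ?_
    rw [h, Equiv.apply_symm_apply]
    exact hw
  · intro H w hw
    exact H (σ w) ((h w).1 hw)

theorem h8_AA_iff {M M' : SimpleGraph V} (σ : Equiv.Perm V) : ∀ Q : List V,
    (∀ z ∈ Q, ∀ w, G.Adj z w ↔ G.Adj (σ z) (σ w)) →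
    (∀ z ∈ Q, ∀ w, M'.Adj z w ↔ M.Adj (σ z) (σ w)) → (AA G M' Q ↔ AA G M (Q.map σ))
  | [], _, _ => Iff.rfl
  | [x], _, h2 => by
    have h3 := h8_unm (h2 x (by simp))
    exact not_congr h3
  | x :: y :: l, h1, h2 => by
    have ih := h8_AA_iff (M := M) (M' := M') σ (y :: l)
      (fun z hz => h1 z (List.mem_cons_of_mem x hz)) (fun z hz => h2 z (List.mem_cons_of_mem x hz))
    have h3 := h8_unm (h2 x (by simp))
    have h4 := h1 x (by simp) y
    have h5 := h2 x (by simp) y
    show (G.Adj x y ∧ ¬ M'.Adj x y ∧ ¬ Unm M' x ∧ AA G M' (y :: l)) ↔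
      (G.Adj (σ x) (σ y) ∧ ¬ M.Adj (σ x) (σ y) ∧ ¬ Unm M (σ x) ∧ AA G M ((y :: l).map σ))
    rw [h4, h5, h3, ih]

theorem h8_nb_mono {M : SimpleGraph V} : ∀ l : List V, NB (Hg G M) l → NB G l
  | [], _ => trivial
  | [_], _ => trivial
  | [_, _], h => (h9_adj.1 h).1
  | _ :: y :: z :: l, h =>
    ⟨(h9_adj.1 h.1).1, h.2.1, h8_nb_mono (y :: z :: l) h.2.2⟩

theorem h8_AA_of {M : SimpleGraph V} : ∀ l : List V, NB (Hg G M) l → (∀ x ∈ l, ¬ Unm M x) →
    AA G M l
  | [], _, _ => trivial
  | [x], _, h => h x (by simp)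
  | x :: y :: l, h, h2 => by
    have h3 := h9_adj.1 (h1_nb_cons.1 h).1
    exact ⟨h3.1, h3.2.1, h3.2.2.1, h8_AA_of (y :: l) (nb_tail h)
      fun z hz => h2 z (List.mem_cons_of_mem x hz)⟩

theorem h8_nodup {g : ℕ} (hg : (g : ℕ∞) ≤ G.egirth) {D h : ℕ} (hh : h + 1 ≤ g) : ∀ l : List V,
    NB G l → Far G D h l → l.Nodup
  | [], _, _ => List.nodup_nil
  | x :: l, h1, h2 => by
    rw [List.nodup_cons]
    refine ⟨?_, h8_nodup hg hh l (nb_tail h1) h2.2⟩
    intro hx
    obtain ⟨a, ha, haz⟩ := List.mem_iff_getElem.1 hx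
    by_cases hah : a + 1 ≤ h
    · have h3 : NB G ((x :: l).take (h + 1)) := by
        apply nb_append_left (l' := (x :: l).drop (h + 1))
        rw [List.take_append_drop]
        exact h1
      have h4 := nb_nodup hg h3 (by rw [List.length_take]; omega)
      rw [List.take_succ_cons, List.nodup_cons] at h4
      refine h4.1 ?_
      rw [List.mem_iff_getElem]
      refine ⟨a, by rw [List.length_take]; omega, ?_⟩
      rw [List.getElem_take]
      exact haz
    · refine h2.1 x ?_ (Near.refl D x)
      rw [List.drop_succ_cons, List.mem_iff_getElem]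
      refine ⟨a - h, by rw [List.length_drop]; omega, ?_⟩
      rw [List.getElem_drop]
      have e : h + (a - h) = a := by omega
      simp only [e]
      exact haz

theorem h8_suffix {M : SimpleGraph V} {D h : ℕ} {v : V} : ∀ l : List V, ¬ Far G D h l →
    NB (Hg G M) l → (∀ x ∈ l, ¬ Unm M x) → l.getLast? = some v →
    ∃ P : List V, P.length ≤ l.length ∧ NB G P ∧ AA G M P ∧ P.getLast? = some v ∧
      Far G D h P.tail ∧ ¬ Far G D h P
  | [], hn, _, _, _ => absurd trivial hn
  | x :: l, hn, h1, h2, h3 => by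
    by_cases hf : Far G D h l
    · exact ⟨x :: l, le_refl _, h8_nb_mono _ h1, h8_AA_of _ h1 h2, h3, hf, hn⟩
    · cases l with
      | nil => exact absurd trivial hf
      | cons y s =>
        rw [List.getLast?_cons_cons] at h3
        obtain ⟨P, p1, p2⟩ := h8_suffix (y :: s) hf (nb_tail h1)
          (fun z hz => h2 z (List.mem_cons_of_mem x hz)) h3
        exact ⟨P, p1.trans (by simp), p2⟩

end geom

section prob

variable {V : Type*} [Fintype V] {G : SimpleGraph V}

/-- One more edge halves the probability. -/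
theorem h8_half (hc : Cubic G) {g : ℕ} (hg : (g : ℕ∞) ≤ G.egirth) {Ω : Type*} [Fintype Ω]
    (M : Ω → SimpleGraph V) (hM : ∀ ω, IsMat G (M ω)) (R : ℕ)
    (hnat : ∀ σ : Equiv.Perm V, ∃ f : Ω → Ω, Function.Bijective f ∧ ∀ ω, ∀ S : Set V,
      (∀ x ∈ S, ∀ y, G.Adj x y ↔ G.Adj (σ x) (σ y)) → ∀ x ∈ core G S R, ∀ y,
        (M (f ω)).Adj x y ↔ (M ω).Adj (σ x) (σ y))
    {h : ℕ} (hR : h + 2 * R + 6 ≤ g) (hh2 : 1 ≤ h) {y x c : V} {s : List V}
    (hP : NB G (y :: x :: c :: s)) (hfar : Far G (2 * R + 3) h (x :: c :: s)) :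
    2 * ((univ : Finset Ω).filter fun ω => AA G (M ω) (y :: x :: c :: s)).card ≤
      ((univ : Finset Ω).filter fun ω => AA G (M ω) (x :: c :: s)).card := by
  have hyx : G.Adj x y := (h1_nb_cons.1 hP).1.symm
  have hxc : G.Adj x c := (h1_nb_cons.1 (nb_tail hP)).1
  have hyc : y ≠ c := (h1_nb_cons.1 hP).2.1 c rfl
  obtain ⟨y', hxy', hne, hne2, hall⟩ := h8_third hc hyx hxc hyc
  have hP' : NB G (y' :: x :: c :: s) :=
    h1_nb_cons.2 ⟨hxy'.symm, fun z hz => by
      simp only [List.head?_cons, Option.some.injEq] at hz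
      rw [← hz]
      exact hne2, nb_tail hP⟩
  obtain ⟨σ, hσy, hσx, hmove, hloc⟩ := exists_swap hc hg (R + 1) (by omega) hyx hxy' hne.symm
  obtain ⟨f, hf, hf2⟩ := hnat σ
  -- the elements of the list are fixed
  have hfix : ∀ z ∈ x :: c :: s, σ z = z := by
    intro z hz
    by_contra hne3
    obtain ⟨k, hk, hd⟩ := hmove z hne3
    rcases hd with ⟨l, l1, l2, l3, l4⟩ | ⟨l, l1, l2, l3, l4⟩
    · have := h8_sep hg (q := [z]) hP hfar.1 l1 l3 l2 trivial rfl rfl hz (by
        simp only [List.length_singleton]; omega) (by simp only [List.length_singleton]; omega)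
      simp only [List.length_singleton] at this
      omega
    · have := h8_sep hg (q := [z]) hP' hfar.1 l1 l3 l2 trivial rfl rfl hz (by
        simp only [List.length_singleton]; omega) (by simp only [List.length_singleton]; omega)
      simp only [List.length_singleton] at this
      omega
  set S : Set V := {z | ∀ w, G.Adj z w ↔ G.Adj (σ z) (σ w)} with hS
  have hcore : ∀ z ∈ y :: x :: c :: s, z ∈ core G S R := by
    intro z hz
    rw [mem_core_iff]
    intro u hu
    by_contra huS
    obtain ⟨k, hk1, hk2, hd⟩ := hloc u huS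
    obtain ⟨q, q1, q2, q3, q4⟩ := near_nb hu.symm
    rw [List.mem_cons] at hz
    rcases hz with rfl | hz
    · rcases hd with ⟨l, l1, l2, l3, l4⟩ | ⟨l, l1, l2, l3, l4⟩
      · have h3 := nb_unique hg (nb_append_left l1) q1 (by rw [l2, q2]) (by rw [l3, q3]) (by omega)
        have h4 := congrArg List.length h3
        omega
      · have hQ : NB G (y' :: x :: [z]) :=
          h1_nb_cons.2 ⟨hxy'.symm, fun w hw => by
            simp only [List.head?_cons, Option.some.injEq] at hw
            rw [← hw]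
            exact hne, hyx⟩
        have := h8_sep hg (D := 2 * R + 3) (h := h) hQ (by
          intro w hw
          exfalso
          have e : (x :: [z]).drop (h + 1) = [] := List.drop_eq_nil_of_le (by
            simp only [List.length_cons, List.length_nil]; omega)
          rw [e] at hw
          simp at hw) l1 l3 l2 q1 q2 q3 (by simp) (by omega) (by omega)
        omega
    · rcases hd with ⟨l, l1, l2, l3, l4⟩ | ⟨l, l1, l2, l3, l4⟩
      · have := h8_sep hg hP hfar.1 l1 l3 l2 q1 q2 q3 hz (by omega) (by omega)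
        omega
      · have := h8_sep hg hP' hfar.1 l1 l3 l2 q1 q2 q3 hz (by omega) (by omega)
        omega
  have hmap : (y :: x :: c :: s).map σ = y' :: x :: c :: s := by
    rw [List.map_cons, hσy]
    congr 1
    have : ∀ z ∈ x :: c :: s, σ z = id z := hfix
    rw [List.map_congr_left this, List.map_id]
  have hAA : ∀ ω, AA G (M (f ω)) (y :: x :: c :: s) ↔ AA G (M ω) (y' :: x :: c :: s) := by
    intro ω
    rw [← hmap]
    refine h8_AA_iff σ _ ?_ ?_
    · intro z hz
      exact h6_core_S (hcore z hz)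
    · intro z hz
      exact hf2 ω S (fun a ha => ha) z (hcore z hz)
  have hcard : ((univ : Finset Ω).filter fun ω => AA G (M ω) (y' :: x :: c :: s)).card =
      ((univ : Finset Ω).filter fun ω => AA G (M ω) (y :: x :: c :: s)).card := by
    refine Finset.card_bijective f hf ?_
    intro ω
    rw [mem_filter, mem_filter]
    simp only [mem_univ, true_and]
    exact (hAA ω).symm
  have hdisj : Disjoint ((univ : Finset Ω).filter fun ω => AA G (M ω) (y :: x :: c :: s))
      ((univ : Finset Ω).filter fun ω => AA G (M ω) (y' :: x :: c :: s)) := by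
    rw [Finset.disjoint_left]
    intro ω h1 h2
    rw [mem_filter] at h1 h2
    have a1 : ¬ (M ω).Adj y x := h1.2.2.1
    have a2 : ¬ (M ω).Adj y' x := h2.2.2.1
    have a3 : AA G (M ω) (x :: c :: s) := h1.2.2.2.2
    refine a3.2.2.1 ?_
    intro w hw
    rcases hall w ((hM ω).le _ _ hw) with rfl | rfl | rfl
    · exact a1 hw.symm
    · exact a2 hw.symm
    · exact a3.2.1 hw
  calc 2 * ((univ : Finset Ω).filter fun ω => AA G (M ω) (y :: x :: c :: s)).card
      = ((univ : Finset Ω).filter fun ω => AA G (M ω) (y :: x :: c :: s)).card +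
        ((univ : Finset Ω).filter fun ω => AA G (M ω) (y' :: x :: c :: s)).card := by
        rw [hcard, two_mul]
    _ = (((univ : Finset Ω).filter fun ω => AA G (M ω) (y :: x :: c :: s)) ∪
        ((univ : Finset Ω).filter fun ω => AA G (M ω) (y' :: x :: c :: s))).card :=
        (card_union_of_disjoint hdisj).symm
    _ ≤ _ := by
        refine card_le_card ?_
        intro ω hω
        rw [mem_union, mem_filter, mem_filter] at hω
        rw [mem_filter]
        refine ⟨mem_univ _, ?_⟩
        rcases hω with h1 | h1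
        · exact h1.2.2.2.2
        · exact h1.2.2.2.2

theorem h8_prob (hc : Cubic G) {g : ℕ} (hg : (g : ℕ∞) ≤ G.egirth) {Ω : Type*} [Fintype Ω]
    (M : Ω → SimpleGraph V) (hM : ∀ ω, IsMat G (M ω)) (R : ℕ)
    (hnat : ∀ σ : Equiv.Perm V, ∃ f : Ω → Ω, Function.Bijective f ∧ ∀ ω, ∀ S : Set V,
      (∀ x ∈ S, ∀ y, G.Adj x y ↔ G.Adj (σ x) (σ y)) → ∀ x ∈ core G S R, ∀ y,
        (M (f ω)).Adj x y ↔ (M ω).Adj (σ x) (σ y))
    {h : ℕ} (hR : h + 2 * R + 6 ≤ g) (hh2 : 1 ≤ h) (t : ℕ) : ∀ P : List V, P.length = t + 3 →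
    NB G P → Far G (2 * R + 3) h P.tail →
    ((univ : Finset Ω).filter fun ω => AA G (M ω) P).card * 2 ^ (t + 1) ≤ Fintype.card Ω := by
  induction t with
  | zero =>
    intro P hl hP hf
    match P, hl, hP, hf with
    | [y, x, c], _, hP, hf =>
      have h1 := h8_half hc hg M hM R hnat hR hh2 hP hf
      have h2 : ((univ : Finset Ω).filter fun ω => AA G (M ω) [x, c]).card ≤ Fintype.card Ω :=
        card_le_univ _
      calc ((univ : Finset Ω).filter fun ω => AA G (M ω) [y, x, c]).card * 2 ^ (0 + 1)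
          = 2 * ((univ : Finset Ω).filter fun ω => AA G (M ω) [y, x, c]).card := by ring
        _ ≤ _ := h1.trans h2
  | succ t ih =>
    intro P hl hP hf
    match P, hl, hP, hf with
    | y :: x :: c :: s, hl, hP, hf =>
      have h1 := h8_half hc hg M hM R hnat hR hh2 hP hf
      have h2 := ih (x :: c :: s) (by simp only [List.length_cons] at hl ⊢; omega) (nb_tail hP)
        hf.2
      calc ((univ : Finset Ω).filter fun ω => AA G (M ω) (y :: x :: c :: s)).card *
            2 ^ (t + 1 + 1)
          = 2 * ((univ : Finset Ω).filter fun ω => AA G (M ω) (y :: x :: c :: s)).card *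
            2 ^ (t + 1) := by rw [pow_succ 2 (t + 1)]; ring
        _ ≤ ((univ : Finset Ω).filter fun ω => AA G (M ω) (x :: c :: s)).card * 2 ^ (t + 1) :=
          Nat.mul_le_mul_right _ h1
        _ ≤ _ := h2

/-- The first moment bound, for any random matching that is natural with radius `R`. -/
theorem bad_bound_gen (hc : Cubic G) {g : ℕ} (hg : (g : ℕ∞) ≤ G.egirth) {Ω : Type*} [Fintype Ω]
    (M : Ω → SimpleGraph V) (hM : ∀ ω, IsMat G (M ω)) (R : ℕ)
    (hnat : ∀ σ : Equiv.Perm V, ∃ f : Ω → Ω, Function.Bijective f ∧ ∀ ω, ∀ S : Set V,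
      (∀ x ∈ S, ∀ y, G.Adj x y ↔ G.Adj (σ x) (σ y)) → ∀ x ∈ core G S R, ∀ y,
        (M (f ω)).Adj x y ↔ (M ω).Adj (σ x) (σ y))
    (L h : ℕ) (hh : 2 * h + 1 ≤ g) (hR : h + 2 * R + 6 ≤ g) (hh2 : 1 ≤ h) (v : V) :
    ((univ : Finset Ω).filter fun ω => v ∈ bad G (M ω) L).card * 2 ^ h ≤
      Fintype.card Ω * (8 * L ^ 2 * 4 ^ (2 * R + 3)) := by
  set D : ℕ := 2 * R + 3 with hD
  set C : ℕ → Finset (List V) := fun i =>
    (nbl G v (h + (i + 1))).filter fun P => Far G D h P.tail ∧ ¬ Far G D h P with hC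
  have hsub : ((univ : Finset Ω).filter fun ω => v ∈ bad G (M ω) L) ⊆
      (range L).biUnion fun i => (C i).biUnion fun P =>
        (univ : Finset Ω).filter fun ω => AA G (M ω) P := by
    intro ω hω
    rw [mem_filter] at hω
    have h1 := hω.2
    rw [bad, mem_filter] at h1
    obtain ⟨-, l, l1, l2, l3, l4, l5⟩ := h1
    have hnf : ¬ Far G D h l := fun hf => l5 (h8_nodup hg (by omega) l (h8_nb_mono l l1) hf)
    obtain ⟨P, p1, p2, p3, p4, p5, p6⟩ := h8_suffix l hnf l1 l4 l2
    have hlong : ¬ P.length ≤ h + 1 := fun hs => p6 (far_of_short D h hs)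
    rw [mem_biUnion]
    refine ⟨P.length - (h + 2), ?_, ?_⟩
    · rw [mem_range]
      omega
    · rw [mem_biUnion]
      refine ⟨P, ?_, ?_⟩
      · rw [hC]
        rw [mem_filter, mem_nbl]
        exact ⟨⟨p2, by omega, p4⟩, p5, p6⟩
      · rw [mem_filter]
        exact ⟨mem_univ _, p3⟩
  have hi : ∀ i, ((C i).biUnion fun P =>
      (univ : Finset Ω).filter fun ω => AA G (M ω) P).card * 2 ^ h ≤
        Fintype.card Ω * (3 * (i + 1) * 4 ^ D) := by
    intro i
    have h1 : ((C i).biUnion fun P => (univ : Finset Ω).filter fun ω => AA G (M ω) P).card *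
        (2 ^ (h + i)) ≤ (C i).card * Fintype.card Ω := by
      calc ((C i).biUnion fun P => (univ : Finset Ω).filter fun ω => AA G (M ω) P).card *
            (2 ^ (h + i))
          ≤ (∑ P ∈ C i, ((univ : Finset Ω).filter fun ω => AA G (M ω) P).card) *
            (2 ^ (h + i)) := Nat.mul_le_mul_right _ card_biUnion_le
        _ = ∑ P ∈ C i, ((univ : Finset Ω).filter fun ω => AA G (M ω) P).card *
            (2 ^ (h + i)) := sum_mul _ _ _
        _ ≤ ∑ _P ∈ C i, Fintype.card Ω := by
          refine sum_le_sum ?_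
          intro P hP
          rw [hC] at hP
          have hP2 := Finset.mem_filter.1 hP
          obtain ⟨q1, q2, -⟩ := hP2
          rw [mem_nbl] at q1
          obtain ⟨q3, q4, -⟩ := q1
          have h5 := h8_prob hc hg M hM R hnat hR hh2 (h + i - 1) P (by omega) q3 q2
          have e : h + i - 1 + 1 = h + i := by omega
          rw [e] at h5
          exact h5
        _ = (C i).card * Fintype.card Ω := by rw [sum_const, smul_eq_mul]
    have h2 : (C i).card ≤ 3 * 2 ^ i * (i + 1) * 4 ^ D := card_collision hc hg D h hh v i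
    have h3 : (((C i).biUnion fun P => (univ : Finset Ω).filter fun ω => AA G (M ω) P).card *
        2 ^ h) * 2 ^ i ≤ (Fintype.card Ω * (3 * (i + 1) * 4 ^ D)) * 2 ^ i := by
      calc (((C i).biUnion fun P => (univ : Finset Ω).filter fun ω => AA G (M ω) P).card *
            2 ^ h) * 2 ^ i
          = ((C i).biUnion fun P => (univ : Finset Ω).filter fun ω => AA G (M ω) P).card *
            (2 ^ (h + i)) := by rw [pow_add]; ring
        _ ≤ (C i).card * Fintype.card Ω := h1
        _ ≤ (3 * 2 ^ i * (i + 1) * 4 ^ D) * Fintype.card Ω := Nat.mul_le_mul_right _ h2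
        _ = (Fintype.card Ω * (3 * (i + 1) * 4 ^ D)) * 2 ^ i := by ring
    exact Nat.le_of_mul_le_mul_right h3 (by positivity)
  calc ((univ : Finset Ω).filter fun ω => v ∈ bad G (M ω) L).card * 2 ^ h
      ≤ ((range L).biUnion fun i => (C i).biUnion fun P =>
        (univ : Finset Ω).filter fun ω => AA G (M ω) P).card * 2 ^ h :=
        Nat.mul_le_mul_right _ (card_le_card hsub)
    _ ≤ (∑ i ∈ range L, ((C i).biUnion fun P =>
        (univ : Finset Ω).filter fun ω => AA G (M ω) P).card) * 2 ^ h :=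
        Nat.mul_le_mul_right _ card_biUnion_le
    _ = ∑ i ∈ range L, ((C i).biUnion fun P =>
        (univ : Finset Ω).filter fun ω => AA G (M ω) P).card * 2 ^ h := sum_mul _ _ _
    _ ≤ ∑ i ∈ range L, Fintype.card Ω * (3 * L * 4 ^ D) := by
        refine sum_le_sum ?_
        intro i hiL
        rw [mem_range] at hiL
        refine (hi i).trans ?_
        apply Nat.mul_le_mul_left
        apply Nat.mul_le_mul_right
        apply Nat.mul_le_mul_left
        omega
    _ = Fintype.card Ω * (3 * L ^ 2 * 4 ^ D) := by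
        rw [sum_const, card_range, smul_eq_mul]
        ring
    _ ≤ Fintype.card Ω * (8 * L ^ 2 * 4 ^ D) := by
        apply Nat.mul_le_mul_left
        apply Nat.mul_le_mul_right
        apply Nat.mul_le_mul_right
        omega

/-- The number of labellings for which `v` is bad. -/
theorem bad_bound (hc : Cubic G) {g : ℕ} (hg : (g : ℕ∞) ≤ G.egirth) (m T N L h : ℕ)
    (hm : 4 * m + 2 ≤ g) (hh : 2 * h + 1 ≤ g) (hR : h + 2 * ((10 * m + 3) * T) + 6 ≤ g) (hh2 : 1 ≤ h) (v : V) :
    ((univ : Finset (Fin T × PI V m → Fin N)).filter fun ω =>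
        v ∈ bad G (Mt G m (lab ω) T) L).card * 2 ^ h ≤
      Fintype.card (Fin T × PI V m → Fin N) *
        (8 * L ^ 2 * 4 ^ (2 * ((10 * m + 3) * T) + 3)) := by
  refine bad_bound_gen hc hg (fun ω : Fin T × PI V m → Fin N => Mt G m (lab ω) T)
    (fun ω => Mt_isMat hg hm (lab ω) T) ((10 * m + 3) * T) ?_ L h hh hR hh2 v
  intro σ
  refine ⟨wmap σ, wmap_bijective σ, ?_⟩
  intro ω S hS
  exact Mt_resp hg hm σ S hS (lab (wmap σ ω)) (lab ω) T fun s _ p _ _ => lab_wmap σ ω s p

end prob

end NM70
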