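import Mathlib

set_option autoImplicit false

/-!
Near-perfect matchings by a local natural rule, and path covers of cubic graphs: definitions.
-/

namespace NM70

open Finset Classical

variable {V : Type*}

/-- Every vertex has exactly three neighbours. -/
def Cubic (G : SimpleGraph V) : Prop :=
  ∀ x, ∃ a b c, a ≠ b ∧ a ≠ c ∧ b ≠ c ∧ ∀ y, G.Adj x y ↔ y = a ∨ y = b ∨ y = c

/-- `M` is a matching contained in `G`. -/
structure IsMat (G M : SimpleGraph V) : Prop where
  le : ∀ x y, M.Adj x y → G.Adj x y
  uniq : ∀ x y z, M.Adj x y → M.Adj x z → y = z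

/-- `x` is unmatched. -/
def Unm (M : SimpleGraph V) (x : V) : Prop := ∀ y, ¬ M.Adj x y

/-- Non-backtracking lists: consecutive vertices are adjacent, and `x, y, x` does not occur. -/
def NB (G : SimpleGraph V) : List V → Prop
  | [] => True
  | [_] => True
  | [x, y] => G.Adj x y
  | x :: y :: z :: l => G.Adj x y ∧ x ≠ z ∧ NB G (y :: z :: l)

/-- There is a walk of length at most `D` from `x` to `z`. -/
def Near (G : SimpleGraph V) (D : ℕ) (x z : V) : Prop := ∃ w : G.Walk x z, w.length ≤ D

/-- `core G S k`: the vertices all of whose walks of length at most `k` end in `S`. -/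
def core (G : SimpleGraph V) (S : Set V) : ℕ → Set V
  | 0 => S
  | k + 1 => {x | x ∈ core G S k ∧ ∀ y, G.Adj x y → y ∈ core G S k}

section rule

variable [Fintype V]

/-- The alternating half paths with `i` edges of `M` that end in `x` (the head of the list) with an
edge of `M` and start in an unmatched vertex (the last element of the list). -/
noncomputable def halves (G M : SimpleGraph V) : ℕ → V → Finset (List V)
  | 0, x => if Unm M x then {[x]} else ∅
  | i + 1, x => (univ : Finset (V × V)).biUnion fun e =>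
      if M.Adj x e.1 ∧ G.Adj e.1 e.2 ∧ e.2 ≠ x then
        (halves G M i e.2).image (fun l => x :: e.1 :: l) else ∅

/-- The normalised number of half paths, by recursion. -/
noncomputable def fr (G M : SimpleGraph V) : ℕ → V → ℝ
  | 0, x => if Unm M x then 1 else 0
  | i + 1, x => (1 / 2) * ∑ e : V × V,
      if M.Adj x e.1 ∧ G.Adj e.1 e.2 ∧ e.2 ≠ x then fr G M i e.2 else 0

/-- The total weight of the half paths that end in `x`. -/
noncomputable def FF (G M : SimpleGraph V) (m : ℕ) (x : V) : ℝ :=
  (m + 1) * fr G M 0 x + ∑ i ∈ range m, fr G M (i + 1) x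

/-- All half paths of level at most `m` ending in `x`. -/
noncomputable def HH (G M : SimpleGraph V) (m : ℕ) (x : V) : Finset (List V) :=
  (range (m + 1)).biUnion fun i => halves G M i x

/-- The integer weight of a half path, `2 ^ m` times its real weight. -/
def wt (m : ℕ) (l : List V) : ℕ :=
  if l.length = 1 then (m + 1) * 2 ^ m else 2 ^ (m - l.length / 2)

/-- `2 ^ m * FF`, as a natural number. -/
noncomputable def Phi (G M : SimpleGraph V) (m : ℕ) (x : V) : ℕ := ∑ l ∈ HH G M m x, wt m l

/-- A path: the two middle vertices and the two half paths. -/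
abbrev PT (V : Type*) := (V × V) × (List V × List V)

/-- The vertices of a path. -/
def vs (p : PT V) : List V := p.2.1 ++ p.2.2

/-- The augmenting paths considered. -/
noncomputable def augs (G M : SimpleGraph V) (m : ℕ) : Finset (PT V) :=
  (univ : Finset (V × V)).biUnion fun e =>
    if G.Adj e.1 e.2 ∧ ¬ M.Adj e.1 e.2 then {e} ×ˢ (HH G M m e.1 ×ˢ HH G M m e.2) else ∅

/-- The common multiple of all denominators. -/
def BB (m : ℕ) : ℕ := ((m + 1) * 4 ^ m).factorial

/-- Integer threshold of a path, `BB m` times its real weight. -/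
noncomputable def thr (G M : SimpleGraph V) (m : ℕ) (p : PT V) : ℕ :=
  wt m p.2.1 * wt m p.2.2 * (BB m / (2 ^ m * max (Phi G M m p.1.1) (Phi G M m p.1.2)))

/-- The number of labels. -/
def NN (m : ℕ) : ℕ := 48 * (m + 2) ^ 3 * BB m

/-- The path `p` is proposed. -/
def Prp (G M : SimpleGraph V) (m : ℕ) (lam : PT V → ℕ) (p : PT V) : Prop :=
  p ∈ augs G M m ∧ lam p < thr G M m p

/-- The path `p` is selected. -/
def Sel (G M : SimpleGraph V) (m : ℕ) (lam : PT V → ℕ) (p : PT V) : Prop :=
  Prp G M m lam p ∧ ∀ p', Prp G M m lam p' → p' ≠ p → ∀ v ∈ vs p, v ∉ vs p'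

/-- The new matching edges on a half path. -/
def newH : List V → V → V → Prop
  | _ :: y :: z :: l, a, b => (a = y ∧ b = z) ∨ (a = z ∧ b = y) ∨ newH (z :: l) a b
  | [_, _], _, _ => False
  | [_], _, _ => False
  | [], _, _ => False

/-- The new matching edges on a path. -/
def newP (p : PT V) (a b : V) : Prop :=
  newH p.2.1 a b ∨ newH p.2.2 a b ∨ (a = p.1.1 ∧ b = p.1.2) ∨ (a = p.1.2 ∧ b = p.1.1)

/-- One round: augment along all selected paths. -/
def step (G M : SimpleGraph V) (m : ℕ) (lam : PT V → ℕ) : SimpleGraph V :=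
  SimpleGraph.fromRel fun a b =>
    (M.Adj a b ∧ ∀ p, Sel G M m lam p → a ∉ vs p ∧ b ∉ vs p) ∨
      ∃ p, Sel G M m lam p ∧ newP p a b

/-- The matching after `t` rounds. -/
noncomputable def Mt (G : SimpleGraph V) (m : ℕ) (lam : ℕ → PT V → ℕ) : ℕ → SimpleGraph V
  | 0 => ⊥
  | t + 1 => step G (Mt G m lam t) m (lam t)

/-- The killed vertices. -/
def KK (G M : SimpleGraph V) (m : ℕ) (x : V) : Prop :=
  0 < FF G M m x ∧ ∃ y, G.Adj x y ∧ ¬ M.Adj x y ∧ FF G M m x ≤ FF G M m y

/-- The mass of the alternating walks that avoid the killed vertices. -/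
noncomputable def kf (G M : SimpleGraph V) (m : ℕ) : ℕ → V → ℝ
  | 0, x => if Unm M x ∧ ¬ KK G M m x then 1 else 0
  | i + 1, x => if KK G M m x then 0 else (1 / 2) * ∑ e : V × V,
      if M.Adj x e.1 ∧ G.Adj e.1 e.2 ∧ e.2 ≠ x then kf G M m i e.2 else 0

/-- The test function of the energy argument. -/
noncomputable def gg (G M : SimpleGraph V) (m : ℕ) (x : V) : ℝ :=
  ∑ i ∈ range (m + 1), (51 / 50 : ℝ) ^ i * kf G M m i x

/-- The overlap. -/
noncomputable def OO (G M : SimpleGraph V) (m : ℕ) : ℝ :=
  ∑ e : V × V, if G.Adj e.1 e.2 ∧ ¬ M.Adj e.1 e.2 then min (FF G M m e.1) (FF G M m e.2) else 0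

/-- The sum of `h` over the neighbours of `y`. -/
noncomputable def nsum (G : SimpleGraph V) (h : V → ℝ) (y : V) : ℝ :=
  ∑ z, if G.Adj y z then h z else 0

/-- The unmatched vertices. -/
noncomputable def unm (M : SimpleGraph V) : Finset V := univ.filter fun x => Unm M x

end rule

/-! ### Transport by permutations -/

/-- Transport of a path. -/
def pmap (σ : Equiv.Perm V) (p : PT V) : PT V :=
  ((σ p.1.1, σ p.1.2), (p.2.1.map σ, p.2.2.map σ))

/-- `z` is a descendant of the directed edge from `c` to `a` at depth `k`: there is a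
non-backtracking list `z, ..., a, c` with `k + 2` elements. -/
def Desc (G : SimpleGraph V) (c a : V) (k : ℕ) (z : V) : Prop :=
  ∃ l : List V, NB G (l ++ [c]) ∧ l.head? = some z ∧ l.getLast? = some a ∧ l.length = k + 1

/-- `Far G D h P`: no two elements of `P` at positions that differ by more than `h` are joined by a
walk of length at most `D`. -/
def Far (G : SimpleGraph V) (D h : ℕ) : List V → Prop
  | [] => True
  | x :: l => (∀ z ∈ (x :: l).drop (h + 1), ¬ Near G D x z) ∧ Far G D h l

/-- The graph `G` minus `M` on the matched vertices. -/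
def Hg (G M : SimpleGraph V) : SimpleGraph V :=
  SimpleGraph.fromRel fun a b => G.Adj a b ∧ ¬ M.Adj a b ∧ ¬ Unm M a ∧ ¬ Unm M b

/-- The event that the list `P` runs in `G` minus `M` on matched vertices. -/
def AA (G M : SimpleGraph V) : List V → Prop
  | [] => True
  | [x] => ¬ Unm M x
  | x :: y :: l => G.Adj x y ∧ ¬ M.Adj x y ∧ ¬ Unm M x ∧ AA G M (y :: l)

/-- The labels used in the random model. -/
abbrev PI (V : Type*) (m : ℕ) :=
  (V × V) × ({l : List V // l.length ≤ 2 * m + 1} × {l : List V // l.length ≤ 2 * m + 1})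

noncomputable instance instFintypeBL (V : Type*) [Finite V] (k : ℕ) :
    Fintype {l : List V // l.length ≤ k} :=
  (List.finite_length_le V k).fintype

/-- The labelling given by a point of the finite probability space. -/
noncomputable def lab {m T N : ℕ} (ω : Fin T × PI V m → Fin N) (t : ℕ) (p : PT V) : ℕ :=
  if h : t < T ∧ p.2.1.length ≤ 2 * m + 1 ∧ p.2.2.length ≤ 2 * m + 1 then
    (ω (⟨t, h.1⟩, (p.1, (⟨p.2.1, h.2.1⟩, ⟨p.2.2, h.2.2⟩))) : ℕ) else N

/-- `G` has a spanning linear forest (acyclic, all degrees at most two) with at most `x`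
components, that is, its vertex set can be partitioned into at most `x` paths of `G`. -/
def HasPathCover (G : SimpleGraph V) (x : ℝ) : Prop :=
  ∃ F : SimpleGraph V, F ≤ G ∧ F.IsAcyclic ∧ (∀ v, (F.neighborSet v).ncard ≤ 2) ∧
    (Nat.card F.ConnectedComponent : ℝ) ≤ x

end NM70
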