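import Pool.Agent.NM70.Defs

set_option autoImplicit false

/-! The elementary bounds for `fr` and `FF`. -/

namespace NM70

open Finset Classical

variable {V : Type*} [Fintype V] {G M : SimpleGraph V}

theorem fr_nonneg (i : ℕ) (x : V) : 0 ≤ fr G M i x := by
  induction i generalizing x with
  | zero =>
    unfold fr
    split_ifs <;> norm_num
  | succ i ih =>
    unfold fr
    refine mul_nonneg (by norm_num) (sum_nonneg fun e _ => ?_)
    split_ifs
    · exact ih _
    · exact le_rfl

theorem fr_unm {x : V} (hx : Unm M x) (i : ℕ) : fr G M (i + 1) x = 0 := by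
  unfold fr
  rw [sum_eq_zero, mul_zero]
  intro e _
  rw [if_neg fun h => hx e.1 h.1]

theorem fr_le_one (hc : Cubic G) (hM : IsMat G M) (i : ℕ) (x : V) : fr G M i x ≤ 1 := by
  induction i generalizing x with
  | zero =>
    unfold fr
    split_ifs <;> norm_num
  | succ i ih =>
    by_cases hx : Unm M x
    · rw [fr_unm hx]
      norm_num
    · have hx' := hx
      unfold Unm at hx'
      push Not at hx'
      obtain ⟨y, hy⟩ := hx'
      obtain ⟨a, b, c, hab, hac, hbc, h⟩ := hc y
      have hxy : G.Adj y x := (hM.le x y hy).symm
      have hsub : ∑ e : V × V, (if M.Adj x e.1 ∧ G.Adj e.1 e.2 ∧ e.2 ≠ x then fr G M i e.2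
          else 0) ≤ ∑ w ∈ (({a, b, c} : Finset V).erase x), (1 : ℝ) := by
        rw [Fintype.sum_prod_type, sum_eq_single y]
        · rw [← sum_filter_add_sum_filter_not univ (fun w => w ∈ ({a, b, c} : Finset V).erase x)]
          have h1 : ∑ w ∈ univ.filter (fun w => ¬ w ∈ ({a, b, c} : Finset V).erase x),
              (if M.Adj x y ∧ G.Adj y w ∧ w ≠ x then fr G M i w else 0) = 0 := by
            refine sum_eq_zero fun w hw => ?_
            rw [mem_filter, mem_erase, not_and] at hw
            rw [if_neg]
            rintro ⟨-, h2, h3⟩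
            refine hw.2 h3 ?_
            rw [mem_insert, mem_insert, mem_singleton]
            exact (h w).1 h2
          rw [h1, add_zero]
          have h2 : univ.filter (fun w => w ∈ ({a, b, c} : Finset V).erase x) =
              ({a, b, c} : Finset V).erase x := by
            ext w
            simp
          rw [h2]
          refine sum_le_sum fun w _ => ?_
          dsimp only
          split_ifs
          · exact ih w
          · norm_num
        · intro y' _ hne
          refine sum_eq_zero fun w _ => ?_
          rw [if_neg fun h' => hne (hM.uniq x y' y h'.1 hy)]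
        · intro h'
          exact absurd (mem_univ _) h'
      have hcard : (({a, b, c} : Finset V).erase x).card = 2 := by
        rw [card_erase_of_mem]
        · rw [card_eq_three.2 ⟨a, b, c, hab, hac, hbc, rfl⟩]
        · rw [mem_insert, mem_insert, mem_singleton]
          exact (h x).1 hxy
      rw [sum_const, hcard] at hsub
      unfold fr
      rw [nsmul_one] at hsub
      push_cast at hsub
      linarith

theorem FF_nonneg (m : ℕ) (x : V) : 0 ≤ FF G M m x := by
  unfold FF
  refine add_nonneg (mul_nonneg (by positivity) (fr_nonneg 0 x)) ?_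
  exact sum_nonneg fun i _ => fr_nonneg (i + 1) x

theorem FF_unm {x : V} (hx : Unm M x) (m : ℕ) : FF G M m x = m + 1 := by
  unfold FF
  rw [sum_eq_zero fun i _ => fr_unm hx i, add_zero]
  unfold fr
  rw [if_pos hx, mul_one]

theorem FF_le (hc : Cubic G) (hM : IsMat G M) (m : ℕ) (x : V) : FF G M m x ≤ m + 1 := by
  by_cases hx : Unm M x
  · exact (FF_unm hx m).le
  · unfold FF
    have h0 : fr G M 0 x = 0 := by
      unfold fr
      rw [if_neg hx]
    rw [h0, mul_zero, zero_add]
    have h1 : ∑ i ∈ range m, fr G M (i + 1) x ≤ ∑ i ∈ range m, (1 : ℝ) :=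
      sum_le_sum fun i _ => fr_le_one hc hM (i + 1) x
    rw [sum_const, card_range, nsmul_one] at h1
    linarith

end NM70
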