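import Pool.Agent.NM70.Defs

set_option autoImplicit false

/-! HAND 1: non-backtracking lists, cores, balls. -/

namespace NM70

open Finset Classical

variable {V : Type*} {G : SimpleGraph V}

theorem h1_nb_cons {x y : V} {l : List V} :
    NB G (x :: y :: l) ↔ G.Adj x y ∧ (∀ z, l.head? = some z → x ≠ z) ∧ NB G (y :: l) := by
  cases l with
  | nil => simp [NB]
  | cons z t => simp [NB]

theorem nb_tail {x : V} {l : List V} (h : NB G (x :: l)) : NB G l := by
  cases l with
  | nil => trivial
  | cons y t => exact (h1_nb_cons.1 h).2.2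

theorem nb_append_left {l l' : List V} (h : NB G (l ++ l')) : NB G l := by
  induction l with
  | nil => trivial
  | cons x t ih =>
    cases t with
    | nil => trivial
    | cons y s =>
      have h2 : NB G (x :: y :: (s ++ l')) := h
      obtain ⟨a, b, c⟩ := h1_nb_cons.1 h2
      refine h1_nb_cons.2 ⟨a, ?_, ih c⟩
      intro z hz
      refine b z ?_
      cases s with
      | nil => simp at hz
      | cons w r => simpa using hz

theorem nb_append_right {l l' : List V} (h : NB G (l ++ l')) : NB G l' := by
  induction l with
  | nil => exact h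
  | cons x t ih => exact ih (nb_tail h)

/-- Two non-backtracking lists that share the element `b` can be joined if they do not
backtrack at `b`. -/
theorem nb_join {l l' : List V} {a b c : V} (h : NB G (l ++ [a, b])) (h' : NB G (b :: c :: l'))
    (hac : a ≠ c) : NB G (l ++ a :: b :: c :: l') := by
  induction l with
  | nil =>
    have h1 : NB G (a :: b :: []) := h
    refine h1_nb_cons.2 ⟨(h1_nb_cons.1 h1).1, ?_, h'⟩
    intro z hz
    simp only [List.head?_cons, Option.some.injEq] at hz
    rw [← hz]
    exact hac
  | cons x t ih =>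
    have h3 := ih (nb_tail h)
    cases t with
    | nil =>
      have h1 : NB G (x :: a :: [b]) := h
      have h4 : NB G (a :: b :: c :: l') := h3
      have h5 := (h1_nb_cons.1 h1).2.1 b rfl
      refine h1_nb_cons.2 ⟨(h1_nb_cons.1 h1).1, ?_, h4⟩
      intro z hz
      simp only [List.head?_cons, Option.some.injEq] at hz
      rw [← hz]
      exact h5
    | cons y s =>
      have h1 : NB G (x :: y :: (s ++ [a, b])) := h
      have h4 : NB G (y :: (s ++ a :: b :: c :: l')) := h3
      refine h1_nb_cons.2 ⟨(h1_nb_cons.1 h1).1, ?_, h4⟩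
      intro z hz
      refine (h1_nb_cons.1 h1).2.1 z ?_
      cases s with
      | nil => simpa using hz
      | cons w r => simpa using hz

theorem h1_nb_pair {x y : V} (h : G.Adj x y) : NB G [x, y] := h

theorem nb_reverse {l : List V} (h : NB G l) : NB G l.reverse := by
  induction l with
  | nil => trivial
  | cons x t ih =>
    have h3 := ih (nb_tail h)
    cases t with
    | nil => trivial
    | cons y s =>
      cases s with
      | nil =>
        have h1 : NB G (x :: y :: []) := h
        exact h1_nb_pair (h1_nb_cons.1 h1).1.symm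
      | cons z r =>
        obtain ⟨a, b, c⟩ := h1_nb_cons.1 h
        have hxz : x ≠ z := b z rfl
        have e1 : (x :: y :: z :: r).reverse = r.reverse ++ z :: y :: x :: [] := by simp
        have e2 : (y :: z :: r).reverse = r.reverse ++ [z, y] := by simp
        rw [e2] at h3
        rw [e1]
        exact nb_join h3 (h1_nb_pair a.symm) (Ne.symm hxz)

theorem h1_nb_chain {l : List V} (h : NB G l) : l.IsChain G.Adj := by
  induction l with
  | nil => exact List.isChain_nil
  | cons x t ih =>
    cases t with
    | nil => exact List.isChain_singleton x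
    | cons y s =>
      obtain ⟨a, b, c⟩ := h1_nb_cons.1 h
      exact List.isChain_cons_cons.2 ⟨a, ih c⟩

theorem h1_chain_nb {l : List V} (h : l.IsChain G.Adj) (hn : l.Nodup) : NB G l := by
  induction l with
  | nil => trivial
  | cons x t ih =>
    cases t with
    | nil => trivial
    | cons y s =>
      obtain ⟨a, c⟩ := List.isChain_cons_cons.1 h
      refine h1_nb_cons.2 ⟨a, ?_, ih c (List.nodup_cons.1 hn).2⟩
      intro z hz hxz
      refine (List.nodup_cons.1 hn).1 ?_
      cases s with
      | nil => simp at hz
      | cons w r =>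
        simp only [List.head?_cons, Option.some.injEq] at hz
        rw [hxz, ← hz]
        simp

theorem h1_exists_walk {l : List V} (h : l.IsChain G.Adj) {x z : V} (h1 : l.head? = some x)
    (h2 : l.getLast? = some z) : ∃ w : G.Walk x z, w.support = l := by
  induction l generalizing x with
  | nil => simp at h1
  | cons a t ih =>
    simp only [List.head?_cons, Option.some.injEq] at h1
    subst h1
    cases t with
    | nil =>
      simp only [List.getLast?_singleton, Option.some.injEq] at h2
      subst h2
      exact ⟨SimpleGraph.Walk.nil, rfl⟩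
    | cons b s =>
      obtain ⟨c, d⟩ := List.isChain_cons_cons.1 h
      have h3 : (b :: s).getLast? = some z := by
        rw [List.getLast?_cons_cons] at h2
        exact h2
      obtain ⟨w, hw⟩ := ih d rfl h3
      exact ⟨SimpleGraph.Walk.cons c w, by rw [SimpleGraph.Walk.support_cons, hw]⟩

/-- The core of `nb_nodup`: no non-backtracking closed list. -/
theorem h1_no_return {g : ℕ} (hg : (g : ℕ∞) ≤ G.egirth) {x : V} {l : List V}
    (h : NB G (x :: (l ++ [x]))) (hn : (l ++ [x]).Nodup) (hl : l.length + 2 ≤ g) : False := by
  cases l with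
  | nil =>
    have h1 : NB G (x :: x :: []) := h
    exact G.loopless.irrefl x (h1_nb_cons.1 h1).1
  | cons y s =>
    have h1 : NB G (x :: y :: (s ++ [x])) := h
    obtain ⟨a, b, c⟩ := h1_nb_cons.1 h1
    have hlast : (y :: (s ++ [x])).getLast? = some x := by
      have : (y :: (s ++ [x])) = (y :: s) ++ [x] := rfl
      rw [this, List.getLast?_append]
      simp
    obtain ⟨w, hw⟩ := h1_exists_walk (h1_nb_chain c) rfl hlast
    have hp : w.IsPath := by
      rw [SimpleGraph.Walk.isPath_def, hw]
      exact hn
    have hcyc : (SimpleGraph.Walk.cons a w).IsCycle := by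
      rw [SimpleGraph.Walk.cons_isCycle_iff]
      refine ⟨hp, ?_⟩
      intro hm
      have h5 : s(y, x) ∈ w.edges := by
        rw [Sym2.eq_swap]
        exact hm
      have h6 := hp.eq_snd_of_mem_edges h5
      cases w with
      | nil => simp at h5
      | cons e w' =>
        rename_i v'
        have h7 : x = v' := by
          rw [h6]
          exact SimpleGraph.Walk.snd_cons w' e
        have h8 : (SimpleGraph.Walk.cons e w').support = y :: (s ++ [x]) := hw
        rw [SimpleGraph.Walk.support_cons] at h8
        have h9 : w'.support = s ++ [x] := by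
          injection h8
        have h10 : (s ++ [x]).head? = some v' := by
          rw [← h9, ← SimpleGraph.Walk.cons_tail_support w']
          rfl
        exact b v' h10 h7
    have hlen := SimpleGraph.le_egirth.1 hg x _ hcyc
    have h11 : (SimpleGraph.Walk.cons a w).length = s.length + 2 := by
      have h12 := SimpleGraph.Walk.length_support w
      rw [hw] at h12
      simp only [List.length_cons, List.length_append, List.length_nil] at h12
      rw [SimpleGraph.Walk.length_cons]
      omega
    rw [h11] at hlen
    have h13 : g ≤ s.length + 2 := by exact_mod_cast hlen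
    simp only [List.length_cons] at hl
    omega

theorem nb_nodup {g : ℕ} (hg : (g : ℕ∞) ≤ G.egirth) {l : List V} (h : NB G l)
    (hl : l.length ≤ g) : l.Nodup := by
  induction l with
  | nil => exact List.nodup_nil
  | cons x t ih =>
    have ht : t.Nodup := ih (nb_tail h) (by simp only [List.length_cons] at hl; omega)
    refine List.nodup_cons.2 ⟨?_, ht⟩
    intro hx
    obtain ⟨s, r, hsr⟩ := List.append_of_mem hx
    subst hsr
    have e1 : x :: (s ++ x :: r) = (x :: (s ++ [x])) ++ r := by simp
    have h1 : NB G (x :: (s ++ [x])) := by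
      rw [e1] at h
      exact nb_append_left h
    have e2 : s ++ x :: r = (s ++ [x]) ++ r := by simp
    have h2 : (s ++ [x]).Nodup := by
      rw [e2] at ht
      exact (List.nodup_append.1 ht).1
    refine h1_no_return hg h1 h2 ?_
    simp only [List.length_cons, List.length_append] at hl
    omega

theorem nb_unique {g : ℕ} (hg : (g : ℕ∞) ≤ G.egirth) {l l' : List V} (h : NB G l)
    (h' : NB G l') (h1 : l.head? = l'.head?) (h2 : l.getLast? = l'.getLast?)
    (hlen : l.length + l'.length ≤ g + 1) : l = l' := by
  induction l generalizing l' with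
  | nil =>
    cases l' with
    | nil => rfl
    | cons a t => simp at h1
  | cons x t ih =>
    cases l' with
    | nil => simp at h1
    | cons x' t' =>
      simp only [List.head?_cons, Option.some.injEq] at h1
      subst h1
      simp only [List.length_cons] at hlen
      cases t with
      | nil =>
        cases t' with
        | nil => rfl
        | cons y' s' =>
          exfalso
          have hn : (x :: y' :: s').Nodup := nb_nodup hg h' (by
            simp only [List.length_cons, List.length_nil] at hlen ⊢
            omega)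
          have h3 : (y' :: s').getLast? = some x := by
            rw [List.getLast?_cons_cons] at h2
            rw [← h2]
            rfl
          exact (List.nodup_cons.1 hn).1 (List.mem_of_getLast? h3)
      | cons y s =>
        cases t' with
        | nil =>
          exfalso
          have hn : (x :: y :: s).Nodup := nb_nodup hg h (by
            simp only [List.length_cons, List.length_nil] at hlen ⊢
            omega)
          have h3 : (y :: s).getLast? = some x := by
            rw [List.getLast?_cons_cons] at h2
            rw [h2]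
            rfl
          exact (List.nodup_cons.1 hn).1 (List.mem_of_getLast? h3)
        | cons y' s' =>
          by_cases hy : y = y'
          · subst hy
            have h3 := ih (l' := y :: s') (nb_tail h) (nb_tail h') rfl (by
              rw [List.getLast?_cons_cons, List.getLast?_cons_cons] at h2
              exact h2) (by
              simp only [List.length_cons] at hlen ⊢
              omega)
            rw [h3]
          · exfalso
            have h3 : NB G (s.reverse ++ [y, x]) := by
              have h4 := nb_reverse h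
              have e : (x :: y :: s).reverse = s.reverse ++ [y, x] := by simp
              rw [e] at h4
              exact h4
            have h4 : NB G (s.reverse ++ y :: x :: y' :: s') := nb_join h3 h' hy
            have h5 := nb_nodup hg h4 (by
              simp only [List.length_cons, List.length_append, List.length_reverse] at hlen ⊢
              omega)
            obtain ⟨z, hz⟩ : ∃ z, (y :: s).getLast? = some z := ⟨_, List.getLast?_eq_some_getLast (List.cons_ne_nil y s)⟩
            have hz' : (y' :: s').getLast? = some z := by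
              rw [List.getLast?_cons_cons, List.getLast?_cons_cons] at h2
              rw [← h2]
              exact hz
            have m1 : z ∈ y :: s := List.mem_of_getLast? hz
            have m2 : z ∈ y' :: s' := List.mem_of_getLast? hz'
            have e : s.reverse ++ y :: x :: y' :: s' = (s.reverse ++ [y]) ++ (x :: y' :: s') := by simp
            rw [e] at h5
            have m1' : z ∈ s.reverse ++ [y] := by
              rw [List.mem_cons] at m1
              rw [List.mem_append, List.mem_reverse, List.mem_singleton]
              tauto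
            exact (List.nodup_append.1 h5).2.2 z m1' z (List.mem_cons_of_mem x m2) rfl

theorem Near.refl (D : ℕ) (x : V) : Near G D x x :=
  ⟨SimpleGraph.Walk.nil, Nat.zero_le _⟩

theorem Near.symm {D : ℕ} {x y : V} (h : Near G D x y) : Near G D y x := by
  obtain ⟨w, hw⟩ := h
  exact ⟨w.reverse, by rw [SimpleGraph.Walk.length_reverse]; exact hw⟩

theorem Near.trans {D D' : ℕ} {x y z : V} (h : Near G D x y) (h' : Near G D' y z) :
    Near G (D + D') x z := by
  obtain ⟨w, hw⟩ := h
  obtain ⟨w', hw'⟩ := h'
  exact ⟨w.append w', by rw [SimpleGraph.Walk.length_append]; omega⟩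

theorem Near.mono {D D' : ℕ} (hD : D ≤ D') {x y : V} (h : Near G D x y) : Near G D' x y := by
  obtain ⟨w, hw⟩ := h
  exact ⟨w, hw.trans hD⟩

theorem near_of_nb {l : List V} {x z : V} (h : NB G l) (h1 : l.head? = some x)
    (h2 : l.getLast? = some z) {D : ℕ} (hD : l.length ≤ D + 1) : Near G D x z := by
  obtain ⟨w, hw⟩ := h1_exists_walk (h1_nb_chain h) h1 h2
  refine ⟨w, ?_⟩
  have h3 := SimpleGraph.Walk.length_support w
  rw [hw] at h3
  omega

theorem h1_head_support {x z : V} (w : G.Walk x z) : w.support.head? = some x := by
  rw [← SimpleGraph.Walk.cons_tail_support w]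
  rfl

theorem h1_last_support {x z : V} (w : G.Walk x z) : w.support.getLast? = some z := by
  have h := h1_head_support w.reverse
  rw [SimpleGraph.Walk.support_reverse, List.head?_reverse] at h
  exact h

theorem near_nb {D : ℕ} {x z : V} (h : Near G D x z) :
    ∃ l, NB G l ∧ l.head? = some x ∧ l.getLast? = some z ∧ l.length ≤ D + 1 := by
  obtain ⟨w, hw⟩ := h
  have hp : (w.bypass).IsPath := SimpleGraph.Walk.bypass_isPath w
  refine ⟨w.bypass.support, h1_chain_nb (SimpleGraph.Walk.isChain_adj_support _) hp.support_nodup,
    h1_head_support _, h1_last_support _, ?_⟩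
  rw [SimpleGraph.Walk.length_support]
  have := SimpleGraph.Walk.length_bypass_le_length w
  omega

theorem h1_near_zero {x y : V} (h : Near G 0 x y) : x = y := by
  obtain ⟨w, hw⟩ := h
  exact SimpleGraph.Walk.eq_of_length_eq_zero (Nat.le_zero.1 hw)

theorem h1_near_adj {x y : V} (h : G.Adj x y) : Near G 1 x y :=
  ⟨SimpleGraph.Walk.cons h SimpleGraph.Walk.nil, by
    rw [SimpleGraph.Walk.length_cons, SimpleGraph.Walk.length_nil]⟩

theorem h1_near_succ {k : ℕ} {x z : V} :
    Near G (k + 1) x z ↔ Near G k x z ∨ ∃ y, G.Adj x y ∧ Near G k y z := by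
  constructor
  · rintro ⟨w, hw⟩
    cases w with
    | nil => exact Or.inl (Near.refl k x)
    | cons h p =>
      rename_i y
      refine Or.inr ⟨y, h, p, ?_⟩
      rw [SimpleGraph.Walk.length_cons] at hw
      omega
  · rintro (h | ⟨y, hy, h⟩)
    · exact Near.mono (Nat.le_succ k) h
    · have := Near.trans (h1_near_adj hy) h
      rw [Nat.add_comm] at this
      exact this

theorem mem_core_iff {S : Set V} {k : ℕ} {x : V} :
    x ∈ core G S k ↔ ∀ y, Near G k x y → y ∈ S := by
  induction k generalizing x with
  | zero =>
    constructor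
    · intro h y hy
      rw [← h1_near_zero hy]
      exact h
    · intro h
      exact h x (Near.refl 0 x)
  | succ k ih =>
    have e : x ∈ core G S (k + 1) ↔ x ∈ core G S k ∧ ∀ y, G.Adj x y → y ∈ core G S k := Iff.rfl
    rw [e]
    constructor
    · rintro ⟨h1, h2⟩ y hy
      rcases h1_near_succ.1 hy with h | ⟨z, hz, h⟩
      · exact ih.1 h1 y h
      · exact ih.1 (h2 z hz) y h
    · intro h
      refine ⟨ih.2 fun y hy => h y (h1_near_succ.2 (Or.inl hy)), fun z hz => ih.2 fun y hy =>
        h y (h1_near_succ.2 (Or.inr ⟨z, hz, hy⟩))⟩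

theorem core_core {S : Set V} {a b : ℕ} : core G (core G S a) b = core G S (a + b) := by
  induction b with
  | zero => rfl
  | succ b ih =>
    have e1 : core G (core G S a) (b + 1) =
      {x | x ∈ core G (core G S a) b ∧ ∀ y, G.Adj x y → y ∈ core G (core G S a) b} := rfl
    have e2 : core G S (a + (b + 1)) =
      {x | x ∈ core G S (a + b) ∧ ∀ y, G.Adj x y → y ∈ core G S (a + b)} := rfl
    rw [e1, e2, ih]

theorem core_anti {S : Set V} {a b : ℕ} (hab : a ≤ b) : core G S b ⊆ core G S a := by
  intro x hx
  rw [mem_core_iff] at hx ⊢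
  exact fun y hy => hx y (Near.mono hab hy)

theorem core_near {S : Set V} {a b : ℕ} {x y : V} (hx : x ∈ core G S (a + b))
    (h : Near G b x y) : y ∈ core G S a := by
  rw [← core_core] at hx
  exact mem_core_iff.1 hx y h

theorem h1_near_succ' {k : ℕ} {x z : V} (h : Near G (k + 1) x z) :
    Near G k x z ∨ ∃ y, G.Adj y z ∧ Near G k x y := by
  rcases h1_near_succ.1 h.symm with h1 | ⟨y, hy, h1⟩
  · exact Or.inl h1.symm
  · exact Or.inr ⟨y, hy.symm, h1.symm⟩

theorem card_near [Fintype V] (hc : Cubic G) (D : ℕ) (v : V) :
    (univ.filter fun x => Near G D v x).card ≤ 4 ^ D := by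
  induction D with
  | zero =>
    have h : (univ.filter fun x => Near G 0 v x) ⊆ {v} := by
      intro x hx
      rw [mem_filter] at hx
      rw [mem_singleton, h1_near_zero hx.2]
    have h2 := card_le_card h
    rw [card_singleton] at h2
    rw [pow_zero]
    exact h2
  | succ D ih =>
    choose a b c habc using hc
    have h : (univ.filter fun x => Near G (D + 1) v x) ⊆
        (univ.filter fun x => Near G D v x).biUnion fun y => {y, a y, b y, c y} := by
      intro x hx
      rw [mem_filter] at hx
      rw [mem_biUnion]
      rcases h1_near_succ' hx.2 with h1 | ⟨y, hy, h1⟩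
      · refine ⟨x, mem_filter.2 ⟨mem_univ _, h1⟩, ?_⟩
        rw [mem_insert]
        exact Or.inl rfl
      · refine ⟨y, mem_filter.2 ⟨mem_univ _, h1⟩, ?_⟩
        rw [mem_insert, mem_insert, mem_insert, mem_singleton]
        exact Or.inr (((habc y).2.2.2 x).1 hy)
    calc (univ.filter fun x => Near G (D + 1) v x).card
        ≤ _ := card_le_card h
      _ ≤ (univ.filter fun x => Near G D v x).card * 4 := by
        refine card_biUnion_le_card_mul _ _ _ fun y _ => ?_
        exact card_le_four
      _ ≤ 4 ^ D * 4 := Nat.mul_le_mul_right 4 ih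
      _ = 4 ^ (D + 1) := (pow_succ 4 D).symm

/-- A shortest list to a neighbour `y` of `z` which is not farther than `z` can be extended
by `z`. -/
theorem h1_snoc {v y z : V} {k : ℕ} (hy : Near G k v y) (hz : ∀ j, j < k → ¬ Near G j v z)
    (hyz : G.Adj y z) :
    ∃ l : List V, NB G (l ++ [y, z]) ∧ (l ++ [y, z]).head? = some v ∧ l.length ≤ k := by
  obtain ⟨l1, hnb, hh, hl, hlen⟩ := near_nb hy
  obtain ⟨l, hl1⟩ : ∃ l, l1 = l ++ [y] := List.getLast?_eq_some_iff.1 hl
  subst hl1
  rw [List.length_append, List.length_singleton] at hlen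
  refine ⟨l, ?_, ?_, by omega⟩
  · rcases List.eq_nil_or_concat' l with h0 | ⟨t, u, htu⟩
    · subst h0
      exact h1_nb_pair hyz
    · subst htu
      have huz : u ≠ z := by
        intro huz
        subst huz
        have h1 : NB G (t ++ [u]) := nb_append_left hnb
        have h2 : (t ++ [u]).head? = some v := by
          cases t with
          | nil => exact hh
          | cons p q => exact hh
        have h3 : (t ++ [u]).getLast? = some u := by
          rw [List.getLast?_append]
          rfl
        rw [List.length_append, List.length_singleton] at hlen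
        refine hz (k - 1) (by omega) (near_of_nb h1 h2 h3 ?_)
        rw [List.length_append, List.length_singleton]
        omega
      have e : t ++ [u] ++ [y] = t ++ [u, y] := by simp
      rw [e] at hnb
      have h4 : NB G (t ++ u :: y :: z :: []) := nb_join hnb (h1_nb_pair hyz) huz
      have e2 : t ++ [u] ++ [y, z] = t ++ u :: y :: z :: [] := by simp
      rw [e2]
      exact h4
  · cases l with
    | nil => exact hh
    | cons p q => exact hh

/-- At most one neighbour is not farther. -/
theorem h1_parent {g : ℕ} (hg : (g : ℕ∞) ≤ G.egirth) {v z y y' : V} {R k k' : ℕ}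
    (hR : 2 * R + 3 ≤ g) (hk : k ≤ R) (hk' : k' ≤ R)
    (hy : Near G k v y) (hz : ∀ j, j < k → ¬ Near G j v z) (hyz : G.Adj y z)
    (hy' : Near G k' v y') (hz' : ∀ j, j < k' → ¬ Near G j v z) (hyz' : G.Adj y' z) : y = y' := by
  obtain ⟨l, h1, h2, h3⟩ := h1_snoc hy hz hyz
  obtain ⟨l', h1', h2', h3'⟩ := h1_snoc hy' hz' hyz'
  have h4 : l ++ [y, z] = l' ++ [y', z] := by
    refine nb_unique hg h1 h1' (by rw [h2, h2']) ?_ ?_
    · rw [List.getLast?_append, List.getLast?_append]
      rfl
    · simp only [List.length_append, List.length_cons, List.length_nil]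
      omega
  have h5 := congrArg List.reverse h4
  simp only [List.reverse_append, List.reverse_cons, List.reverse_nil, List.nil_append,
    List.cons_append, List.cons.injEq, true_and] at h5
  exact h5.1

theorem h1_sum3 [Fintype V] {f : V → ℝ} {x a b c : V} (hab : a ≠ b) (hac : a ≠ c) (hbc : b ≠ c)
    (h : ∀ y, G.Adj x y ↔ y = a ∨ y = b ∨ y = c) :
    ∑ z, (if G.Adj x z then f z else 0) = f a + f b + f c := by
  have h1 : (univ.filter fun z => G.Adj x z) = {a, b, c} := by
    ext z
    rw [mem_filter, mem_insert, mem_insert, mem_singleton, h z]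
    exact ⟨fun h => h.2, fun h => ⟨mem_univ _, h⟩⟩
  rw [← sum_filter, h1, sum_insert, sum_insert, sum_singleton]
  · ring
  · rw [mem_singleton]
    exact hbc
  · rw [mem_insert, mem_singleton, not_or]
    exact ⟨hab, hac⟩

theorem h1_ineq {a b c p q r : ℝ} (hp : p = 2 ∨ p = 4) (hq : q = 2 ∨ q = 4) (hr : r = 2 ∨ r = 4)
    (h1 : a ≠ 0 → b ≠ 0 → p = 4 ∨ q = 4) (h2 : a ≠ 0 → c ≠ 0 → p = 4 ∨ r = 4)
    (h3 : b ≠ 0 → c ≠ 0 → q = 4 ∨ r = 4) :
    (a + b + c) ^ 2 ≤ p * a ^ 2 + q * b ^ 2 + r * c ^ 2 := by
  by_cases ha : a = 0
  · subst ha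
    have hp' : p * 0 ^ 2 = 0 := by ring
    by_cases hb : b = 0
    · subst hb
      rcases hr with h | h <;> rw [h] <;> nlinarith [sq_nonneg c]
    · by_cases hc : c = 0
      · subst hc
        rcases hq with h | h <;> rw [h] <;> nlinarith [sq_nonneg b]
      · rcases h3 hb hc with h | h
        · rcases hr with h' | h' <;> rw [h, h'] <;> nlinarith [sq_nonneg (b - c), sq_nonneg b]
        · rcases hq with h' | h' <;> rw [h, h'] <;> nlinarith [sq_nonneg (b - c), sq_nonneg c]
  · by_cases hb : b = 0
    · subst hb
      by_cases hc : c = 0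
      · subst hc
        rcases hp with h | h <;> rw [h] <;> nlinarith [sq_nonneg a]
      · rcases h2 ha hc with h | h
        · rcases hr with h' | h' <;> rw [h, h'] <;> nlinarith [sq_nonneg (a - c), sq_nonneg a]
        · rcases hp with h' | h' <;> rw [h, h'] <;> nlinarith [sq_nonneg (a - c), sq_nonneg c]
    · by_cases hc : c = 0
      · subst hc
        rcases h1 ha hb with h | h
        · rcases hq with h' | h' <;> rw [h, h'] <;> nlinarith [sq_nonneg (a - b), sq_nonneg a]
        · rcases hp with h' | h' <;> rw [h, h'] <;> nlinarith [sq_nonneg (a - b), sq_nonneg b]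
      · have e1 := h1 ha hb
        have e2 := h2 ha hc
        have e3 := h3 hb hc
        have k1 : (a + b + c) ^ 2 ≤ 2 * a ^ 2 + 4 * b ^ 2 + 4 * c ^ 2 := by
          nlinarith [sq_nonneg (a - b - c), sq_nonneg (b - c)]
        have k2 : (a + b + c) ^ 2 ≤ 4 * a ^ 2 + 2 * b ^ 2 + 4 * c ^ 2 := by
          nlinarith [sq_nonneg (b - a - c), sq_nonneg (a - c)]
        have k3 : (a + b + c) ^ 2 ≤ 4 * a ^ 2 + 4 * b ^ 2 + 2 * c ^ 2 := by
          nlinarith [sq_nonneg (c - a - b), sq_nonneg (a - b)]
        have s1 := sq_nonneg a
        have s2 := sq_nonneg b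
        have s3 := sq_nonneg c
        rcases hp with hp | hp <;> rcases hq with hq | hq <;> rcases hr with hr | hr <;>
          subst hp <;> subst hq <;> subst hr
        · exfalso; rcases e1 with h | h <;> norm_num at h
        · exfalso; rcases e1 with h | h <;> norm_num at h
        · exfalso; rcases e2 with h | h <;> norm_num at h
        · linarith
        · exfalso; rcases e3 with h | h <;> norm_num at h
        · linarith
        · linarith
        · linarith

/-- `z` is nearer to `v` than `y`. -/
def h1_lt (G : SimpleGraph V) (v z y : V) : Prop := ∃ k, Near G k v z ∧ ¬ Near G k v y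

/-- The weights. -/
noncomputable def h1_w (G : SimpleGraph V) (v y z : V) : ℝ := if h1_lt G v z y then 2 else 4

theorem h1_w_cases (v y z : V) : h1_w G v y z = 2 ∨ h1_w G v y z = 4 := by
  unfold h1_w
  split_ifs
  · exact Or.inl rfl
  · exact Or.inr rfl

/-- The adjacency operator has norm at most `2 √2` on functions supported on a tree ball. -/
theorem quad_ball [Fintype V] (hc : Cubic G) {g : ℕ} (hg : (g : ℕ∞) ≤ G.egirth) (v : V) (R : ℕ)
    (hR : 2 * R + 3 ≤ g) (h : V → ℝ) (hs : ∀ x, ¬ Near G R v x → h x = 0) :
    ∑ y, (nsum G h y) ^ 2 ≤ 8 * ∑ x, (h x) ^ 2 := by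
  -- at most one neighbour in the ball is nearer
  have key1 : ∀ y z z', G.Adj y z → G.Adj y z' → h z ≠ 0 → h z' ≠ 0 → h1_lt G v z y →
      h1_lt G v z' y → z = z' := by
    intro y z z' hyz hyz' hz hz' h1 h2
    obtain ⟨k, hk, hk2⟩ := h1
    obtain ⟨k', hk', hk2'⟩ := h2
    have n1 : Near G R v z := by
      by_contra hcon
      exact hz (hs z hcon)
    have n2 : Near G R v z' := by
      by_contra hcon
      exact hz' (hs z' hcon)
    by_cases c1 : k ≤ R
    · by_cases c2 : k' ≤ R
      · exact h1_parent hg hR c1 c2 hk (fun j hj hn => hk2 (Near.mono hj.le hn)) hyz.symm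
          hk' (fun j hj hn => hk2' (Near.mono hj.le hn)) hyz'.symm
      · have c3 : R ≤ k' := by omega
        exact h1_parent hg hR c1 le_rfl hk (fun j hj hn => hk2 (Near.mono hj.le hn)) hyz.symm
          n2 (fun j hj hn => hk2' (Near.mono (hj.le.trans c3) hn)) hyz'.symm
    · have c3 : R ≤ k := by omega
      by_cases c2 : k' ≤ R
      · exact h1_parent hg hR le_rfl c2 n1 (fun j hj hn => hk2 (Near.mono (hj.le.trans c3) hn))
          hyz.symm hk' (fun j hj hn => hk2' (Near.mono hj.le hn)) hyz'.symm
      · have c4 : R ≤ k' := by omega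
        exact h1_parent hg hR le_rfl le_rfl n1
          (fun j hj hn => hk2 (Near.mono (hj.le.trans c3) hn)) hyz.symm
          n2 (fun j hj hn => hk2' (Near.mono (hj.le.trans c4) hn)) hyz'.symm
  -- at most one neighbour of a point of the ball is not farther
  have key2 : ∀ z y y', G.Adj z y → G.Adj z y' → h z ≠ 0 → ¬ h1_lt G v z y →
      ¬ h1_lt G v z y' → y = y' := by
    intro z y y' hzy hzy' hz h1 h2
    have n1 : Near G R v z := by
      by_contra hcon
      exact hz (hs z hcon)
    have hex : ∃ k, Near G k v z := ⟨R, n1⟩
    have hk := Nat.find_spec hex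
    have hmin : ∀ j, j < Nat.find hex → ¬ Near G j v z := fun j hj => Nat.find_min hex hj
    have hkR : Nat.find hex ≤ R := Nat.find_le n1
    have hy : Near G (Nat.find hex) v y := by
      by_contra hcon
      exact h1 ⟨_, hk, hcon⟩
    have hy' : Near G (Nat.find hex) v y' := by
      by_contra hcon
      exact h2 ⟨_, hk, hcon⟩
    exact h1_parent hg hR hkR hkR hy hmin hzy.symm hy' hmin hzy'.symm
  have step1 : ∀ y, (nsum G h y) ^ 2 ≤ ∑ z, if G.Adj y z then h1_w G v y z * (h z) ^ 2 else 0 := by
    intro y
    obtain ⟨a, b, c, hab, hac, hbc, hy⟩ := hc y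
    unfold nsum
    rw [h1_sum3 hab hac hbc hy, h1_sum3 hab hac hbc hy]
    have ea : G.Adj y a := (hy a).2 (Or.inl rfl)
    have eb : G.Adj y b := (hy b).2 (Or.inr (Or.inl rfl))
    have ec : G.Adj y c := (hy c).2 (Or.inr (Or.inr rfl))
    have aux : ∀ z z', z ≠ z' → G.Adj y z → G.Adj y z' → h z ≠ 0 → h z' ≠ 0 →
        h1_w G v y z = 4 ∨ h1_w G v y z' = 4 := by
      intro z z' hne e e' hz hz'
      by_contra hcon
      rw [not_or] at hcon
      unfold h1_w at hcon
      refine hne (key1 y z z' e e' hz hz' ?_ ?_)
      · by_contra hc2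
        exact hcon.1 (if_neg hc2)
      · by_contra hc2
        exact hcon.2 (if_neg hc2)
    exact h1_ineq (h1_w_cases v y a) (h1_w_cases v y b) (h1_w_cases v y c)
      (aux a b hab ea eb) (aux a c hac ea ec) (aux b c hbc eb ec)
  have step2 : ∀ z, ∑ y, (if G.Adj y z then h1_w G v y z * (h z) ^ 2 else 0) ≤ 8 * (h z) ^ 2 := by
    intro z
    by_cases hz : h z = 0
    · rw [hz]
      refine le_of_eq ?_
      rw [show (8 : ℝ) * 0 ^ 2 = 0 by norm_num]
      refine sum_eq_zero fun y _ => ?_
      split_ifs
      · ring
      · rfl
    · obtain ⟨a, b, c, hab, hac, hbc, hy⟩ := hc z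
      have e1 : ∀ y, (if G.Adj y z then h1_w G v y z * (h z) ^ 2 else 0) =
          (if G.Adj z y then h1_w G v y z * (h z) ^ 2 else 0) := by
        intro y
        by_cases e : G.Adj z y
        · rw [if_pos e, if_pos e.symm]
        · rw [if_neg e, if_neg fun e' => e e'.symm]
      rw [sum_congr rfl fun y _ => e1 y, h1_sum3 hab hac hbc hy]
      have ea : G.Adj z a := (hy a).2 (Or.inl rfl)
      have eb : G.Adj z b := (hy b).2 (Or.inr (Or.inl rfl))
      have ec : G.Adj z c := (hy c).2 (Or.inr (Or.inr rfl))
      have aux : ∀ y y', y ≠ y' → G.Adj z y → G.Adj z y' →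
          h1_w G v y z = 2 ∨ h1_w G v y' z = 2 := by
        intro y y' hne e e'
        by_contra hcon
        rw [not_or] at hcon
        unfold h1_w at hcon
        refine hne (key2 z y y' e e' hz ?_ ?_)
        · intro hc2
          exact hcon.1 (if_pos hc2)
        · intro hc2
          exact hcon.2 (if_pos hc2)
      have s := sq_nonneg (h z)
      have w1 := aux a b hab ea eb
      have w2 := aux a c hac ea ec
      have w3 := aux b c hbc eb ec
      have hsum : h1_w G v a z + h1_w G v b z + h1_w G v c z ≤ 8 := by
        have b4 : ∀ y, h1_w G v y z ≤ 4 := by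
          intro y
          rcases h1_w_cases (G := G) v y z with p | p <;> rw [p]
          norm_num
        have ba := b4 a
        have bb := b4 b
        have bc := b4 c
        rcases w1 with w1 | w1 <;> rcases w2 with w2 | w2 <;> rcases w3 with w3 | w3 <;> linarith
      nlinarith
  calc ∑ y, (nsum G h y) ^ 2
      ≤ ∑ y, ∑ z, (if G.Adj y z then h1_w G v y z * (h z) ^ 2 else 0) :=
        sum_le_sum fun y _ => step1 y
    _ = ∑ z, ∑ y, (if G.Adj y z then h1_w G v y z * (h z) ^ 2 else 0) := sum_comm
    _ ≤ ∑ z, 8 * (h z) ^ 2 := sum_le_sum fun z _ => step2 z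
    _ = 8 * ∑ x, (h x) ^ 2 := (mul_sum _ _ _).symm

end NM70
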