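import Pool.Agent.NM70.NBList
import Pool.Agent.NM70.Load

set_option autoImplicit false

/-! HAND 6: the rule is local and natural. -/

namespace NM70

open Finset Classical

variable {V : Type*} [Fintype V] {G M M' : SimpleGraph V}

/-! ### Cores -/

theorem h6_core_S {S : Set V} {k : ℕ} {x : V} (hx : x ∈ core G S k) : x ∈ S :=
  core_anti (G := G) (S := S) (Nat.zero_le k) hx

theorem h6_core_adj {S : Set V} {a b : ℕ} (hab : a + 1 ≤ b) {x y : V} (hx : x ∈ core G S b)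
    (h : G.Adj x y) : y ∈ core G S a := by
  have hx' : x ∈ core G S (a + 1) := core_anti hab hx
  exact hx'.2 y h

/-- A local isomorphism between `M` and `M'`. -/
structure H6 (G M M' : SimpleGraph V) (σ : Equiv.Perm V) (S : Set V) (k : ℕ) : Prop where
  hM : ∀ x y, M.Adj x y → G.Adj x y
  hM' : ∀ x y, M'.Adj x y → G.Adj x y
  hG : ∀ x ∈ S, ∀ y, G.Adj x y ↔ G.Adj (σ x) (σ y)
  hMM : ∀ x ∈ core G S k, ∀ y, M.Adj x y ↔ M'.Adj (σ x) (σ y)

variable {σ : Equiv.Perm V} {S : Set V} {k : ℕ}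

theorem h6_unm (h : H6 G M M' σ S k) {x : V} (hx : x ∈ core G S k) :
    Unm M' (σ x) ↔ Unm M x := by
  constructor
  · intro hu y hy
    exact hu _ ((h.hMM x hx y).1 hy)
  · intro hu y hy
    refine hu (σ.symm y) ((h.hMM x hx (σ.symm y)).2 ?_)
    rwa [Equiv.apply_symm_apply]

/-! ### Half paths -/

theorem h6_halves (h : H6 G M M' σ S k) (i : ℕ) : ∀ {x : V}, x ∈ core G S (k + 2 * i) →
    ∀ l : List V, l.map σ ∈ halves G M' i (σ x) ↔ l ∈ halves G M i x := by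
  induction i with
  | zero =>
    intro x hx l
    rw [mem_halves_zero, mem_halves_zero, h6_unm h (core_anti (by omega) hx)]
    refine and_congr_right fun _ => ?_
    constructor
    · intro h2
      have h3 : l.map σ = [x].map σ := h2
      exact List.map_injective_iff.2 σ.injective h3
    · rintro rfl
      rfl
  | succ i ih =>
    intro x hx l
    rw [mem_halves_succ, mem_halves_succ]
    constructor
    · rintro ⟨y', z', l'', h1, h2, h3, h4, h5⟩
      obtain ⟨y, rfl⟩ := σ.surjective y'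
      obtain ⟨z, rfl⟩ := σ.surjective z'
      obtain ⟨a, l1, rfl, ha, hl1⟩ := List.map_eq_cons_iff.1 h5
      obtain ⟨b, l2, rfl, hb, hl2⟩ := List.map_eq_cons_iff.1 hl1
      obtain rfl := σ.injective ha
      obtain rfl := σ.injective hb
      have h1' : M.Adj a b := (h.hMM a (core_anti (by omega) hx) b).2 h1
      have hy : b ∈ core G S (k + 2 * i + 1) := h6_core_adj (by omega) hx (h.hM _ _ h1')
      have h2' : G.Adj b z := (h.hG b (h6_core_S hy) z).2 h2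
      have hz : z ∈ core G S (k + 2 * i) := h6_core_adj (by omega) hy h2'
      refine ⟨b, z, l2, h1', h2', fun e => h3 (by rw [e]), (ih hz l2).1 (by rw [hl2]; exact h4), rfl⟩
    · rintro ⟨y, z, l', h1, h2, h3, h4, rfl⟩
      have hy : y ∈ core G S (k + 2 * i + 1) := h6_core_adj (by omega) hx (h.hM _ _ h1)
      have hz : z ∈ core G S (k + 2 * i) := h6_core_adj (by omega) hy h2
      exact ⟨σ y, σ z, l'.map σ, (h.hMM x (core_anti (by omega) hx) y).1 h1,
        (h.hG y (h6_core_S hy) z).1 h2, fun e => h3 (σ.injective e), (ih hz l').2 h4, rfl⟩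

theorem h6_HH (h : H6 G M M' σ S k) {m : ℕ} {x : V} (hx : x ∈ core G S (k + 2 * m))
    (l : List V) : l.map σ ∈ HH G M' m (σ x) ↔ l ∈ HH G M m x := by
  rw [mem_HH, mem_HH]
  constructor
  · rintro ⟨i, hi, hl⟩
    exact ⟨i, hi, (h6_halves h i (core_anti (by omega) hx) l).1 hl⟩
  · rintro ⟨i, hi, hl⟩
    exact ⟨i, hi, (h6_halves h i (core_anti (by omega) hx) l).2 hl⟩

theorem h6_map_symm (σ : Equiv.Perm V) (l : List V) : (l.map σ.symm).map σ = l := by
  rw [List.map_map, Equiv.self_comp_symm, List.map_id]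

theorem h6_map_symm' (σ : Equiv.Perm V) (l : List V) : (l.map σ).map σ.symm = l := by
  rw [List.map_map, Equiv.symm_comp_self, List.map_id]

theorem h6_wt_map (m : ℕ) (σ : Equiv.Perm V) (l : List V) : wt m (l.map σ) = wt m l := by
  unfold wt
  rw [List.length_map]

theorem h6_Phi (h : H6 G M M' σ S k) {m : ℕ} {x : V} (hx : x ∈ core G S (k + 2 * m)) :
    Phi G M' m (σ x) = Phi G M m x := by
  unfold Phi
  refine (Finset.sum_nbij' (fun l => l.map σ) (fun l => l.map σ.symm) ?_ ?_ ?_ ?_ ?_).symm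
  · intro l hl
    exact (h6_HH h hx l).2 hl
  · intro l hl
    refine (h6_HH h hx _).1 ?_
    rw [h6_map_symm]
    exact hl
  · intro l _
    exact h6_map_symm' σ l
  · intro l _
    exact h6_map_symm σ l
  · intro l _
    exact (h6_wt_map m σ l).symm

/-! ### The real weights -/

theorem h6_sum (h : H6 G M M' σ S k) {n : ℕ} {x : V} (hx : x ∈ core G S (k + n + 2))
    (f f' : V → ℝ) (hf : ∀ z ∈ core G S (k + n), f' (σ z) = f z) :
    (∑ e : V × V, if M'.Adj (σ x) e.1 ∧ G.Adj e.1 e.2 ∧ e.2 ≠ σ x then f' e.2 else 0) =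
      ∑ e : V × V, if M.Adj x e.1 ∧ G.Adj e.1 e.2 ∧ e.2 ≠ x then f e.2 else 0 := by
  rw [← Equiv.sum_comp (Equiv.prodCongr σ σ)]
  refine Finset.sum_congr rfl fun e _ => ?_
  obtain ⟨y, z⟩ := e
  show (if M'.Adj (σ x) (σ y) ∧ G.Adj (σ y) (σ z) ∧ σ z ≠ σ x then f' (σ z) else 0) =
    if M.Adj x y ∧ G.Adj y z ∧ z ≠ x then f z else 0
  by_cases hc : M.Adj x y ∧ G.Adj y z ∧ z ≠ x
  · have hy : y ∈ core G S (k + n + 1) := h6_core_adj (by omega) hx (h.hM _ _ hc.1)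
    have hz : z ∈ core G S (k + n) := h6_core_adj (by omega) hy hc.2.1
    rw [if_pos hc, if_pos ⟨(h.hMM x (core_anti (by omega) hx) y).1 hc.1,
      (h.hG y (h6_core_S hy) z).1 hc.2.1, fun e => hc.2.2 (σ.injective e)⟩]
    exact hf z hz
  · rw [if_neg hc, if_neg]
    rintro ⟨h1, h2, h3⟩
    have h1' : M.Adj x y := (h.hMM x (core_anti (by omega) hx) y).2 h1
    have hy : y ∈ core G S (k + n + 1) := h6_core_adj (by omega) hx (h.hM _ _ h1')
    exact hc ⟨h1', (h.hG y (h6_core_S hy) z).2 h2, fun e => h3 (by rw [e])⟩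

theorem h6_fr (h : H6 G M M' σ S k) (i : ℕ) : ∀ {x : V}, x ∈ core G S (k + 2 * i) →
    fr G M' i (σ x) = fr G M i x := by
  induction i with
  | zero =>
    intro x hx
    exact if_congr (h6_unm h (core_anti (by omega) hx)) rfl rfl
  | succ i ih =>
    intro x hx
    exact congrArg (fun t : ℝ => (1 / 2) * t)
      (h6_sum h (n := 2 * i) (core_anti (by omega) hx) _ _ fun z hz => ih hz)

theorem h6_FF (h : H6 G M M' σ S k) {m : ℕ} {x : V} (hx : x ∈ core G S (k + 2 * m)) :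
    FF G M' m (σ x) = FF G M m x := by
  unfold FF
  rw [h6_fr h 0 (core_anti (by omega) hx)]
  refine congrArg (fun t : ℝ => (m + 1) * fr G M 0 x + t) ?_
  refine Finset.sum_congr rfl fun i hi => ?_
  have := Finset.mem_range.1 hi
  exact h6_fr h (i + 1) (core_anti (by omega) hx)

theorem h6_KK (h : H6 G M M' σ S k) {m : ℕ} {x : V} (hx : x ∈ core G S (k + 2 * m + 1)) :
    KK G M' m (σ x) ↔ KK G M m x := by
  unfold KK
  rw [h6_FF h (core_anti (by omega) hx)]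
  refine and_congr_right fun _ => ?_
  constructor
  · rintro ⟨y', h1, h2, h3⟩
    obtain ⟨y, rfl⟩ := σ.surjective y'
    have hxy : G.Adj x y := (h.hG x (h6_core_S hx) y).2 h1
    rw [h6_FF h (h6_core_adj (by omega) hx hxy)] at h3
    exact ⟨y, hxy, fun hm => h2 ((h.hMM x (core_anti (by omega) hx) y).1 hm), h3⟩
  · rintro ⟨y, h1, h2, h3⟩
    rw [← h6_FF h (h6_core_adj (by omega) hx h1)] at h3
    exact ⟨σ y, (h.hG x (h6_core_S hx) y).1 h1,
      fun hm => h2 ((h.hMM x (core_anti (by omega) hx) y).2 hm), h3⟩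

theorem h6_kf (h : H6 G M M' σ S k) (m i : ℕ) :
    ∀ {x : V}, x ∈ core G S (k + (2 * m + 1 + 2 * i)) → kf G M' m i (σ x) = kf G M m i x := by
  induction i with
  | zero =>
    intro x hx
    exact if_congr (and_congr (h6_unm h (core_anti (by omega) hx))
      (not_congr (h6_KK h (core_anti (by omega) hx)))) rfl rfl
  | succ i ih =>
    intro x hx
    exact if_congr (h6_KK h (core_anti (by omega) hx)) rfl (congrArg (fun t : ℝ => (1 / 2) * t)
      (h6_sum h (n := 2 * m + 1 + 2 * i) (core_anti (by omega) hx) _ _ fun z hz => ih hz))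

/-- The test function is natural under local isomorphisms. -/
theorem gg_resp (hM : ∀ x y, M.Adj x y → G.Adj x y) (hM' : ∀ x y, M'.Adj x y → G.Adj x y)
    (σ : Equiv.Perm V) (S : Set V) (hG : ∀ x ∈ S, ∀ y, G.Adj x y ↔ G.Adj (σ x) (σ y)) (k : ℕ)
    (hMM : ∀ x ∈ core G S k, ∀ y, M.Adj x y ↔ M'.Adj (σ x) (σ y)) (m : ℕ) :
    ∀ x ∈ core G S (k + (10 * m + 3)), gg G M m x = gg G M' m (σ x) := by
  intro x hx
  have h : H6 G M M' σ S k := ⟨hM, hM', hG, hMM⟩
  unfold gg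
  refine Finset.sum_congr rfl fun i hi => ?_
  have := Finset.mem_range.1 hi
  rw [h6_kf h m i (core_anti (by omega) hx)]

/-! ### Augmenting paths -/

theorem h6_augs (h : H6 G M M' σ S k) {m : ℕ} {p : PT V} (h1 : p.1.1 ∈ core G S (k + 2 * m))
    (h2 : p.1.2 ∈ core G S (k + 2 * m)) : pmap σ p ∈ augs G M' m ↔ p ∈ augs G M m := by
  rw [mem_augs, mem_augs]
  show G.Adj (σ p.1.1) (σ p.1.2) ∧ ¬ M'.Adj (σ p.1.1) (σ p.1.2) ∧
    p.2.1.map σ ∈ HH G M' m (σ p.1.1) ∧ p.2.2.map σ ∈ HH G M' m (σ p.1.2) ↔ _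
  rw [← h.hG _ (h6_core_S h1), ← h.hMM _ (core_anti (by omega) h1), h6_HH h h1, h6_HH h h2]

theorem h6_thr (h : H6 G M M' σ S k) {m : ℕ} {p : PT V} (h1 : p.1.1 ∈ core G S (k + 2 * m))
    (h2 : p.1.2 ∈ core G S (k + 2 * m)) : thr G M' m (pmap σ p) = thr G M m p := by
  show wt m (p.2.1.map σ) * wt m (p.2.2.map σ) *
    (BB m / (2 ^ m * max (Phi G M' m (σ p.1.1)) (Phi G M' m (σ p.1.2)))) = _
  rw [h6_wt_map, h6_wt_map, h6_Phi h h1, h6_Phi h h2]
  rfl

theorem h6_near (hM : ∀ x y, M.Adj x y → G.Adj x y) (i : ℕ) :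
    ∀ {x v : V} {l : List V}, l ∈ halves G M i x → v ∈ l → Near G (2 * i) x v := by
  induction i with
  | zero =>
    intro x v l hl hv
    obtain ⟨_, rfl⟩ := mem_halves_zero.1 hl
    obtain rfl := List.mem_singleton.1 hv
    exact Near.refl _ _
  | succ i ih =>
    intro x v l hl hv
    obtain ⟨y, z, l', h1, h2, h3, h4, rfl⟩ := mem_halves_succ.1 hl
    rcases List.mem_cons.1 hv with rfl | hv
    · exact Near.refl _ _
    rcases List.mem_cons.1 hv with rfl | hv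
    · exact ⟨SimpleGraph.Walk.cons (hM _ _ h1) SimpleGraph.Walk.nil, by
        rw [SimpleGraph.Walk.length_cons, SimpleGraph.Walk.length_nil]; omega⟩
    · obtain ⟨w, hw⟩ := ih h4 hv
      exact ⟨SimpleGraph.Walk.cons (hM _ _ h1) (SimpleGraph.Walk.cons h2 w), by
        rw [SimpleGraph.Walk.length_cons, SimpleGraph.Walk.length_cons]; omega⟩

theorem h6_near_HH (hM : ∀ x y, M.Adj x y → G.Adj x y) {m : ℕ} {x v : V} {l : List V}
    (hl : l ∈ HH G M m x) (hv : v ∈ l) : Near G (2 * m) x v := by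
  obtain ⟨i, hi, hl⟩ := mem_HH.1 hl
  exact (h6_near hM i hl hv).mono (by omega)

theorem h6_near_one {x y : V} (h : G.Adj x y) : Near G 1 x y :=
  ⟨SimpleGraph.Walk.cons h SimpleGraph.Walk.nil, by
    rw [SimpleGraph.Walk.length_cons, SimpleGraph.Walk.length_nil]⟩

theorem h6_augs_near (hM : ∀ x y, M.Adj x y → G.Adj x y) {m : ℕ} {p : PT V}
    (hp : p ∈ augs G M m) {v : V} (hv : v ∈ vs p) :
    Near G (2 * m + 1) v p.1.1 ∧ Near G (2 * m + 1) v p.1.2 := by
  obtain ⟨h1, _, h3, h4⟩ := mem_augs.1 hp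
  rcases List.mem_append.1 hv with hv | hv
  · have h5 := (h6_near_HH hM h3 hv).symm
    exact ⟨h5.mono (by omega), h5.trans (h6_near_one h1)⟩
  · have h5 := (h6_near_HH hM h4 hv).symm
    exact ⟨h5.trans (h6_near_one h1.symm), h5.mono (by omega)⟩

/-- The vertices of a path lie in a core if the two middle vertices lie in a deeper one. -/
theorem h6_vs_core (hM : ∀ x y, M.Adj x y → G.Adj x y) {m a : ℕ} {p : PT V}
    (hp : p ∈ augs G M m) (h1 : p.1.1 ∈ core G S (a + 2 * m))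
    (h2 : p.1.2 ∈ core G S (a + 2 * m)) {v : V} (hv : v ∈ vs p) : v ∈ core G S a := by
  obtain ⟨_, _, h3, h4⟩ := mem_augs.1 hp
  rcases List.mem_append.1 hv with hv | hv
  · exact core_near h1 (h6_near_HH hM h3 hv)
  · exact core_near h2 (h6_near_HH hM h4 hv)

theorem h6_heads_core (hM : ∀ x y, M.Adj x y → G.Adj x y) {m a : ℕ} {p : PT V}
    (hp : p ∈ augs G M m) {v : V} (hv : v ∈ vs p) (hc : v ∈ core G S (a + (2 * m + 1))) :
    p.1.1 ∈ core G S a ∧ p.1.2 ∈ core G S a := by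
  obtain ⟨h1, h2⟩ := h6_augs_near hM hp hv
  exact ⟨core_near hc h1, core_near hc h2⟩

/-- Walks are pulled back through the local isomorphism. -/
theorem h6_pull_walk (hG : ∀ x ∈ S, ∀ y, G.Adj x y ↔ G.Adj (σ x) (σ y)) {a : ℕ} {u z' : V}
    (w : G.Walk u z') : ∀ (j : ℕ) (v : V), w.length ≤ j → u = σ v → v ∈ core G S (a + j) →
      σ.symm z' ∈ core G S a := by
  induction w with
  | nil =>
    intro j v _ hu hv
    rw [hu, Equiv.symm_apply_apply]
    exact core_anti (by omega) hv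
  | cons hadj w' ih =>
    intro j v hj hu hv
    rw [SimpleGraph.Walk.length_cons] at hj
    obtain ⟨j', rfl⟩ : ∃ j', j = j' + 1 := ⟨j - 1, by omega⟩
    rename_i u0 u1 z0
    have h1 : G.Adj v (σ.symm u1) := by
      refine (hG v (h6_core_S hv) _).2 ?_
      rw [Equiv.apply_symm_apply, ← hu]
      exact hadj
    exact ih j' (σ.symm u1) (by omega) (by rw [Equiv.apply_symm_apply])
      (h6_core_adj (by omega) hv h1)

theorem h6_pull (hG : ∀ x ∈ S, ∀ y, G.Adj x y ↔ G.Adj (σ x) (σ y)) {a j : ℕ} {v z : V}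
    (hv : v ∈ core G S (a + j)) (hz : Near G j (σ v) (σ z)) : z ∈ core G S a := by
  obtain ⟨w, hw⟩ := hz
  have := h6_pull_walk hG (a := a) w j v hw rfl hv
  rwa [Equiv.symm_apply_apply] at this

theorem h6_mem_pmap {p : PT V} {v : V} : σ v ∈ vs (pmap σ p) ↔ v ∈ vs p := by
  show σ v ∈ p.2.1.map σ ++ p.2.2.map σ ↔ v ∈ p.2.1 ++ p.2.2
  rw [← List.map_append, List.mem_map]
  constructor
  · rintro ⟨a, ha, hab⟩
    exact σ.injective hab ▸ ha
  · intro ha
    exact ⟨v, ha, rfl⟩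

theorem h6_pmap_symm (σ : Equiv.Perm V) (p : PT V) : pmap σ (pmap σ.symm p) = p := by
  obtain ⟨⟨a, b⟩, l, l'⟩ := p
  show ((σ (σ.symm a), σ (σ.symm b)), ((l.map σ.symm).map σ, (l'.map σ.symm).map σ)) = _
  rw [h6_map_symm, h6_map_symm, Equiv.apply_symm_apply, Equiv.apply_symm_apply]

theorem h6_pmap_inj (σ : Equiv.Perm V) : Function.Injective (pmap σ) := by
  intro p q h
  have h1 : pmap σ.symm (pmap σ p) = pmap σ.symm (pmap σ q) := by rw [h]
  have h2 : ∀ p : PT V, pmap σ.symm (pmap σ p) = p := h6_pmap_symm σ.symm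
  rwa [h2, h2] at h1

theorem h6_heads_pull (h : H6 G M M' σ S k) {m a : ℕ} {p : PT V}
    (hp : pmap σ p ∈ augs G M' m) {v : V} (hv : v ∈ vs p)
    (hc : v ∈ core G S (a + (2 * m + 1))) : p.1.1 ∈ core G S a ∧ p.1.2 ∈ core G S a := by
  obtain ⟨h1, h2⟩ := h6_augs_near h.hM' hp (h6_mem_pmap.2 hv)
  exact ⟨h6_pull h.hG hc h1, h6_pull h.hG hc h2⟩

/-! ### Selected paths -/

/-- The labels correspond. -/
def H6L (σ : Equiv.Perm V) (S : Set V) (lam lam' : PT V → ℕ) : Prop :=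
  ∀ p : PT V, p.1.1 ∈ S → (∀ v ∈ vs p, v ∈ S) → lam' (pmap σ p) = lam p

theorem h6_Prp (h : H6 G M M' σ S k) {lam lam' : PT V → ℕ} (hl : H6L σ S lam lam') {m : ℕ}
    {p : PT V} (h1 : p.1.1 ∈ core G S (k + 2 * m)) (h2 : p.1.2 ∈ core G S (k + 2 * m)) :
    Prp G M' m lam' (pmap σ p) ↔ Prp G M m lam p := by
  unfold Prp
  rw [h6_augs h h1 h2]
  refine and_congr_right fun hp => ?_
  rw [h6_thr h h1 h2, hl p (h6_core_S h1) fun v hv => h6_core_S (h6_vs_core h.hM hp h1 h2 hv)]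

theorem h6_Sel (h : H6 G M M' σ S k) {lam lam' : PT V → ℕ} (hl : H6L σ S lam lam') {m : ℕ}
    {p : PT V} (h1 : p.1.1 ∈ core G S (k + 2 * m)) (h2 : p.1.2 ∈ core G S (k + 2 * m))
    (hv : ∀ v ∈ vs p, v ∈ core G S (k + 2 * m + (2 * m + 1))) :
    Sel G M' m lam' (pmap σ p) ↔ Sel G M m lam p := by
  unfold Sel
  rw [h6_Prp h hl h1 h2]
  refine and_congr_right fun _ => ?_
  constructor
  · intro hs q hq hqp v hvp hvq
    obtain ⟨h3, h4⟩ := h6_heads_core h.hM hq.1 hvq (hv v hvp)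
    exact hs (pmap σ q) ((h6_Prp h hl h3 h4).2 hq) (fun e => hqp (h6_pmap_inj σ e)) (σ v)
      (h6_mem_pmap.2 hvp) (h6_mem_pmap.2 hvq)
  · intro hs q' hq' hqp v' hvp' hvq'
    obtain ⟨v, rfl⟩ := σ.surjective v'
    obtain ⟨q, rfl⟩ : ∃ q, q' = pmap σ q := ⟨pmap σ.symm q', (h6_pmap_symm σ q').symm⟩
    have hvp := h6_mem_pmap.1 hvp'
    have hvq := h6_mem_pmap.1 hvq'
    obtain ⟨h3, h4⟩ := h6_heads_pull h hq'.1 hvq (hv v hvp)
    exact hs q ((h6_Prp h hl h3 h4).1 hq') (fun e => hqp (by rw [e])) v hvp hvq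

theorem h6_Sel_at (h : H6 G M M' σ S k) {lam lam' : PT V → ℕ} (hl : H6L σ S lam lam') {m : ℕ}
    {p : PT V} {x : V} (hx : x ∈ core G S (k + (8 * m + 2))) (hxp : x ∈ vs p) :
    Sel G M' m lam' (pmap σ p) ↔ Sel G M m lam p := by
  have hx' : x ∈ core G S (k + (6 * m + 1) + (2 * m + 1)) := core_anti (by omega) hx
  have key : p ∈ augs G M m → (Sel G M' m lam' (pmap σ p) ↔ Sel G M m lam p) := by
    intro hp
    obtain ⟨h3, h4⟩ := h6_heads_core h.hM hp hxp hx'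
    refine h6_Sel h hl (core_anti (by omega) h3) (core_anti (by omega) h4) fun v hv => ?_
    exact h6_vs_core h.hM hp (core_anti (by omega) h3) (core_anti (by omega) h4) hv
  constructor
  · intro hs
    obtain ⟨h3, h4⟩ := h6_heads_pull h hs.1.1 hxp hx'
    exact (key ((h6_augs h (core_anti (by omega) h3) (core_anti (by omega) h4)).1 hs.1.1)).1 hs
  · intro hs
    exact (key hs.1.1).2 hs

/-! ### The new edges -/

theorem h6_newH (σ : Equiv.Perm V) (a b : V) :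
    ∀ l : List V, newH (l.map σ) (σ a) (σ b) ↔ newH l a b
  | [] => Iff.rfl
  | [_] => Iff.rfl
  | [_, _] => Iff.rfl
  | x :: y :: z :: l => by
    have ih := h6_newH σ a b (z :: l)
    show ((σ a = σ y ∧ σ b = σ z) ∨ (σ a = σ z ∧ σ b = σ y) ∨
      newH ((z :: l).map σ) (σ a) (σ b)) ↔ _
    rw [ih, σ.injective.eq_iff, σ.injective.eq_iff, σ.injective.eq_iff, σ.injective.eq_iff]
    rfl

theorem h6_newH_mem {a b : V} : ∀ {l : List V}, newH l a b → a ∈ l ∧ b ∈ l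
  | [], h => h.elim
  | [_], h => h.elim
  | [_, _], h => h.elim
  | x :: y :: z :: l, h => by
    have h' : (a = y ∧ b = z) ∨ (a = z ∧ b = y) ∨ newH (z :: l) a b := h
    rcases h' with ⟨rfl, rfl⟩ | ⟨rfl, rfl⟩ | h'
    · simp
    · simp
    · obtain ⟨h1, h2⟩ := h6_newH_mem h'
      exact ⟨List.mem_cons_of_mem _ (List.mem_cons_of_mem _ h1),
        List.mem_cons_of_mem _ (List.mem_cons_of_mem _ h2)⟩

theorem h6_newP {p : PT V} {a b : V} : newP (pmap σ p) (σ a) (σ b) ↔ newP p a b := by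
  show (newH (p.2.1.map σ) (σ a) (σ b) ∨ newH (p.2.2.map σ) (σ a) (σ b) ∨
    (σ a = σ p.1.1 ∧ σ b = σ p.1.2) ∨ (σ a = σ p.1.2 ∧ σ b = σ p.1.1)) ↔ _
  rw [h6_newH, h6_newH, σ.injective.eq_iff, σ.injective.eq_iff, σ.injective.eq_iff,
    σ.injective.eq_iff]
  rfl

theorem h6_head_mem {m : ℕ} {x : V} {l : List V} (h : l ∈ HH G M m x) : x ∈ l := by
  obtain ⟨i, _, hl⟩ := mem_HH.1 h
  exact List.mem_of_mem_head? (halves_head hl)

theorem h6_newP_mem {m : ℕ} {p : PT V} (hp : p ∈ augs G M m) {a b : V} (h : newP p a b) :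
    a ∈ vs p ∧ b ∈ vs p := by
  obtain ⟨_, _, h3, h4⟩ := mem_augs.1 hp
  rcases h with h | h | ⟨rfl, rfl⟩ | ⟨rfl, rfl⟩
  · obtain ⟨h1, h2⟩ := h6_newH_mem h
    exact ⟨List.mem_append_left _ h1, List.mem_append_left _ h2⟩
  · obtain ⟨h1, h2⟩ := h6_newH_mem h
    exact ⟨List.mem_append_right _ h1, List.mem_append_right _ h2⟩
  · exact ⟨List.mem_append_left _ (h6_head_mem h3), List.mem_append_right _ (h6_head_mem h4)⟩
  · exact ⟨List.mem_append_right _ (h6_head_mem h4), List.mem_append_left _ (h6_head_mem h3)⟩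

/-! ### One round -/

/-- The relation whose symmetrisation is `step`. -/
def h6R (G M : SimpleGraph V) (m : ℕ) (lam : PT V → ℕ) (a b : V) : Prop :=
  (M.Adj a b ∧ ∀ p, Sel G M m lam p → a ∉ vs p ∧ b ∉ vs p) ∨
    ∃ p, Sel G M m lam p ∧ newP p a b

theorem h6_step_adj {m : ℕ} {lam : PT V → ℕ} {a b : V} :
    (step G M m lam).Adj a b ↔ a ≠ b ∧ (h6R G M m lam a b ∨ h6R G M m lam b a) :=
  Iff.rfl

theorem h6_covered (h : H6 G M M' σ S k) {lam lam' : PT V → ℕ} (hl : H6L σ S lam lam') {m : ℕ}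
    {x : V} (hx : x ∈ core G S (k + (8 * m + 2))) :
    (∃ p, Sel G M' m lam' p ∧ σ x ∈ vs p) ↔ ∃ p, Sel G M m lam p ∧ x ∈ vs p := by
  constructor
  · rintro ⟨p', hs, hx'⟩
    obtain ⟨p, rfl⟩ : ∃ p, p' = pmap σ p := ⟨pmap σ.symm p', (h6_pmap_symm σ p').symm⟩
    have hxp := h6_mem_pmap.1 hx'
    exact ⟨p, (h6_Sel_at h hl hx hxp).1 hs, hxp⟩
  · rintro ⟨p, hs, hxp⟩
    exact ⟨pmap σ p, (h6_Sel_at h hl hx hxp).2 hs, h6_mem_pmap.2 hxp⟩

theorem h6_R (h : H6 G M M' σ S k) {lam lam' : PT V → ℕ} (hl : H6L σ S lam lam') {m : ℕ}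
    {a b : V} (hab : a ∈ core G S (k + (8 * m + 3)) ∨ b ∈ core G S (k + (8 * m + 3))) :
    h6R G M' m lam' (σ a) (σ b) ↔ h6R G M m lam a b := by
  have hadj : M'.Adj (σ a) (σ b) ↔ M.Adj a b := by
    rcases hab with ha | hb
    · exact (h.hMM a (core_anti (by omega) ha) b).symm
    · rw [SimpleGraph.adj_comm M', SimpleGraph.adj_comm M]
      exact (h.hMM b (core_anti (by omega) hb) a).symm
  refine or_congr ?_ ?_
  · rw [hadj]
    refine and_congr_right fun hm => ?_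
    have hab2 : a ∈ core G S (k + (8 * m + 2)) ∧ b ∈ core G S (k + (8 * m + 2)) := by
      rcases hab with ha | hb
      · exact ⟨core_anti (by omega) ha, h6_core_adj (by omega) ha (h.hM _ _ hm)⟩
      · exact ⟨h6_core_adj (by omega) hb (h.hM _ _ hm).symm, core_anti (by omega) hb⟩
    have ha := h6_covered h hl hab2.1
    have hb := h6_covered h hl hab2.2
    constructor
    · intro hs p hp
      exact ⟨fun hx => (ha.2 ⟨p, hp, hx⟩).elim fun p' hp' => (hs p' hp'.1).1 hp'.2,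
        fun hx => (hb.2 ⟨p, hp, hx⟩).elim fun p' hp' => (hs p' hp'.1).2 hp'.2⟩
    · intro hs p hp
      exact ⟨fun hx => (ha.1 ⟨p, hp, hx⟩).elim fun p' hp' => (hs p' hp'.1).1 hp'.2,
        fun hx => (hb.1 ⟨p, hp, hx⟩).elim fun p' hp' => (hs p' hp'.1).2 hp'.2⟩
  · have hsel : ∀ p : PT V, a ∈ vs p → b ∈ vs p →
        (Sel G M' m lam' (pmap σ p) ↔ Sel G M m lam p) := by
      intro p hap hbp
      rcases hab with ha | hb
      · exact h6_Sel_at h hl (core_anti (by omega) ha) hap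
      · exact h6_Sel_at h hl (core_anti (by omega) hb) hbp
    constructor
    · rintro ⟨p', hs, hn⟩
      obtain ⟨p, rfl⟩ : ∃ p, p' = pmap σ p := ⟨pmap σ.symm p', (h6_pmap_symm σ p').symm⟩
      obtain ⟨h1, h2⟩ := h6_newP_mem hs.1.1 hn
      exact ⟨p, (hsel p (h6_mem_pmap.1 h1) (h6_mem_pmap.1 h2)).1 hs, h6_newP.1 hn⟩
    · rintro ⟨p, hs, hn⟩
      obtain ⟨h1, h2⟩ := h6_newP_mem hs.1.1 hn
      exact ⟨pmap σ p, (hsel p h1 h2).2 hs, h6_newP.2 hn⟩

/-- One round is natural under local isomorphisms. -/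
theorem step_resp (hM : ∀ x y, M.Adj x y → G.Adj x y) (hM' : ∀ x y, M'.Adj x y → G.Adj x y)
    (σ : Equiv.Perm V) (S : Set V) (hG : ∀ x ∈ S, ∀ y, G.Adj x y ↔ G.Adj (σ x) (σ y)) (k : ℕ)
    (hMM : ∀ x ∈ core G S k, ∀ y, M.Adj x y ↔ M'.Adj (σ x) (σ y)) (m : ℕ)
    (lam lam' : PT V → ℕ)
    (hlam : ∀ p : PT V, p.1.1 ∈ S → (∀ v ∈ vs p, v ∈ S) → lam' (pmap σ p) = lam p) :
    ∀ x ∈ core G S (k + (10 * m + 3)), ∀ y,
      (step G M m lam).Adj x y ↔ (step G M' m lam').Adj (σ x) (σ y) := by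
  intro x hx y
  have h : H6 G M M' σ S k := ⟨hM, hM', hG, hMM⟩
  have hx' : x ∈ core G S (k + (8 * m + 3)) := core_anti (by omega) hx
  rw [h6_step_adj, h6_step_adj, h6_R h hlam (Or.inl hx'), h6_R h hlam (Or.inr hx'),
    σ.injective.ne_iff]

end NM70
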