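import Pool.Agent.NM70.Rounds

set_option autoImplicit false

/-! HAND 10: averaging over the labels of one round. -/

namespace NM70

open Finset Classical

variable {V : Type*} [Fintype V] {G : SimpleGraph V}

/-- Replace the labels of round `t`. -/
noncomputable def upd {m T N : ℕ} (t : Fin T) (ω : Fin T × PI V m → Fin N)
    (η : PI V m → Fin N) : Fin T × PI V m → Fin N :=
  fun c => if c.1 = t then η c.2 else ω c

/-- The labels of round `t`. -/
def row {m T N : ℕ} (t : Fin T) (ω : Fin T × PI V m → Fin N) : PI V m → Fin N :=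
  fun c => ω (t, c)

omit [Fintype V] in
theorem upd_row {m T N : ℕ} (t : Fin T) (ω : Fin T × PI V m → Fin N) (η : PI V m → Fin N) :
    upd t (upd t ω η) (row t ω) = ω := by
  funext c
  obtain ⟨s, c⟩ := c
  unfold upd row
  by_cases h : s = t
  · subst h
    simp
  · simp [h]

omit [Fintype V] in
theorem row_upd {m T N : ℕ} (t : Fin T) (ω : Fin T × PI V m → Fin N) (η : PI V m → Fin N) :
    row t (upd t ω η) = η := by
  funext c
  unfold upd row
  simp

omit [Fintype V] in
theorem sum_swap_abs {A B : Type*} [Fintype A] [Fintype B] (u : A → B → A) (r : A → B)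
    (h1 : ∀ a b, u (u a b) (r a) = a) (h2 : ∀ a b, r (u a b) = b) (X : A → ℝ) :
    ∑ a, ∑ b, X (u a b) = (Fintype.card B : ℝ) * ∑ a, X a := by
  let f : A × B → A × B := fun p => (u p.1 p.2, r p.1)
  have hf : Function.Involutive f := by
    rintro ⟨a, b⟩
    simp only [f, h1, h2]
  rw [← Fintype.sum_prod_type' (f := fun a b => X (u a b))]
  have h1 := Equiv.sum_comp (Function.Involutive.toPerm f hf) (fun p : A × B => X p.1)
  have h2 : ∑ p : A × B, X p.1 = (Fintype.card B : ℝ) * ∑ a, X a := by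
    rw [Fintype.sum_prod_type]
    simp only [sum_const, card_univ, nsmul_eq_mul]
    rw [mul_sum]
  rw [← h2, ← h1]
  rfl

theorem sum_upd {m T N : ℕ} (t : Fin T) (X : (Fin T × PI V m → Fin N) → ℝ) :
    ∑ ω, ∑ η : PI V m → Fin N, X (upd t ω η) =
      (Fintype.card (PI V m → Fin N) : ℝ) * ∑ ω, X ω :=
  sum_swap_abs (upd t) (row t) (upd_row t) (row_upd t) X

theorem Mt_congr {m : ℕ} {lam lam' : ℕ → PT V → ℕ} {t : ℕ} (h : ∀ s < t, lam s = lam' s) :
    Mt G m lam t = Mt G m lam' t := by
  induction t with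
  | zero => rfl
  | succ t ih =>
    unfold Mt
    rw [ih fun s hs => h s (by omega), h t (by omega)]

omit [Fintype V] in
theorem lab_upd_of_ne {m T N : ℕ} (t : Fin T) (ω : Fin T × PI V m → Fin N)
    (η : PI V m → Fin N) {s : ℕ} (hs : s ≠ t) : lab (upd t ω η) s = lab ω s := by
  funext p
  unfold lab
  by_cases h : s < T ∧ p.2.1.length ≤ 2 * m + 1 ∧ p.2.2.length ≤ 2 * m + 1
  · rw [dif_pos h, dif_pos h]
    unfold upd
    have : ¬ ((⟨s, h.1⟩ : Fin T) = t) := fun e => hs (by rw [← e])
    simp [this]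
  · rw [dif_neg h, dif_neg h]

omit [Fintype V] in
theorem lab_upd {m T N : ℕ} (t : Fin T) (ω : Fin T × PI V m → Fin N)
    (η : PI V m → Fin N) : lab (upd t ω η) t = lab1 η := by
  funext p
  unfold lab lab1
  by_cases h : p.2.1.length ≤ 2 * m + 1 ∧ p.2.2.length ≤ 2 * m + 1
  · rw [dif_pos ⟨t.2, h⟩, dif_pos h]
    unfold upd
    simp
  · rw [dif_neg h, dif_neg (fun h' => h h'.2)]

/-- One round, averaged. -/
theorem round_avg (hc : Cubic G) {g : ℕ} (hg : (g : ℕ∞) ≤ G.egirth) {m : ℕ}
    (hm : 4 * m + 2 ≤ g) {T : ℕ} (t : Fin T) :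
    ∑ ω : Fin T × PI V m → Fin (NN m), ((unm (Mt G m (lab ω) (t + 1))).card : ℝ) ≤
      ∑ ω : Fin T × PI V m → Fin (NN m), (((unm (Mt G m (lab ω) t)).card : ℝ) -
        OO G (Mt G m (lab ω) t) m / (96 * (m + 2) ^ 3)) := by
  set H : ℝ := (Fintype.card (PI V m → Fin (NN m)) : ℝ) with hH
  have hHpos : 0 < H := by
    rw [hH]
    have : Nonempty (PI V m → Fin (NN m)) := ⟨fun _ => ⟨0, NN_pos m⟩⟩
    exact_mod_cast Fintype.card_pos
  have key : ∀ ω : Fin T × PI V m → Fin (NN m),
      ∑ η : PI V m → Fin (NN m), ((unm (Mt G m (lab (upd t ω η)) (t + 1))).card : ℝ) ≤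
      H * (((unm (Mt G m (lab ω) t)).card : ℝ) -
        OO G (Mt G m (lab ω) t) m / (96 * (m + 2) ^ 3)) := by
    intro ω
    set M := Mt G m (lab ω) t with hMdef
    have hM : IsMat G M := Mt_isMat hg hm _ _
    have h1 : ∀ η : PI V m → Fin (NN m), Mt G m (lab (upd t ω η)) (t + 1) =
        step G M m (lab1 η) := by
      intro η
      have h2 : Mt G m (lab (upd t ω η)) t = M :=
        Mt_congr fun s hs => lab_upd_of_ne t ω η (by omega)
      change step G (Mt G m (lab (upd t ω η)) t) m (lab (upd t ω η) t) = _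
      rw [h2, lab_upd]
    have h2 : ∀ η : PI V m → Fin (NN m),
        ((unm (Mt G m (lab (upd t ω η)) (t + 1))).card : ℝ) ≤
          ((unm M).card : ℝ) - (((augs G M m).filter (Sel G M m (lab1 η))).card : ℝ) := by
      intro η
      rw [h1 η]
      have := step_card hM hg hm (lab1 η)
      have h3 : ((unm (step G M m (lab1 η))).card : ℝ) +
          (((augs G M m).filter (Sel G M m (lab1 η))).card : ℝ) ≤ ((unm M).card : ℝ) := by
        exact_mod_cast this
      linarith
    refine (sum_le_sum fun η _ => h2 η).trans ?_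
    rw [sum_sub_distrib, sum_const, card_univ, nsmul_eq_mul, ← hH, mul_sub]
    have h3 := sum_sel hc hM m
    have h4 : (BB m * OO G M m) * H ≤ 2 * (48 * (m + 2) ^ 3 * BB m) *
        ∑ η : PI V m → Fin (NN m), (((augs G M m).filter (Sel G M m (lab1 η))).card : ℝ) := by
      rw [← sum_thr hc hM m]
      have h5 : ((∑ p ∈ augs G M m, thr G M m p : ℕ) : ℝ) *
          ((NN m : ℝ) ^ Fintype.card (PI V m)) ≤ 2 * (NN m : ℝ) *
          ((∑ η : PI V m → Fin (NN m),
            ((augs G M m).filter (Sel G M m (lab1 η))).card : ℕ) : ℝ) := by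
        exact_mod_cast h3
      have h6 : H = (NN m : ℝ) ^ Fintype.card (PI V m) := by
        rw [hH, Fintype.card_fun, Fintype.card_fin]
        push_cast
        rfl
      have h7 : (NN m : ℝ) = 48 * (m + 2) ^ 3 * BB m := by
        unfold NN
        push_cast
        rfl
      rw [h6, ← h7]
      push_cast at h5
      exact h5
    have hB : (0 : ℝ) < BB m := by
      unfold BB
      exact_mod_cast Nat.factorial_pos _
    have h8 : OO G M m / (96 * (m + 2) ^ 3) * H ≤
        ∑ η : PI V m → Fin (NN m), (((augs G M m).filter (Sel G M m (lab1 η))).card : ℝ) := by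
      rw [div_mul_eq_mul_div, div_le_iff₀ (by positivity)]
      have h9 : (BB m : ℝ) * (OO G M m * H) ≤ BB m * ((∑ η : PI V m → Fin (NN m),
          (((augs G M m).filter (Sel G M m (lab1 η))).card : ℝ)) * (96 * (m + 2) ^ 3)) := by
        linarith
      exact le_of_mul_le_mul_left h9 hB
    linarith
  have h1 := sum_upd t fun ω : Fin T × PI V m → Fin (NN m) =>
    ((unm (Mt G m (lab ω) (t + 1))).card : ℝ)
  have h2 := sum_le_sum fun ω (_ : ω ∈ (univ : Finset (Fin T × PI V m → Fin (NN m)))) => key ω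
  rw [h1, ← mul_sum] at h2
  exact le_of_mul_le_mul_left h2 hHpos

end NM70
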